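import Pool.Agent.SYS.NS.Defs

/-!
# SYS-NS-BaseX: large bases; sizes of words with small steps

PLAN.
* `exists_base`: for `n ≥ 1` the region `emp.newTri 0 1 2` (three different darts of `Fin (6 n)`) has the type `[t0] [3] (2 n - 1) 0` (look for the lemma on `newTri` in `Lib/Cyl`, `Lib/CntB`, `Lib/Typ`, e.g. `typ_newTri` from `typ_emp`).  As long as `1 ≤ F` a region of type `[x] [p] F 0` has a child by the step `T`, of type `[z] [p + 1] (F - 1) 0`:
  `st_card` (the number is `(3 F).descFactorial 3 * 1 > 0`, so the set is nonempty), `st_typ`.  Iterate `p₀` times with `n = p₀ + F₀ + 1`.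
* `wend_ge`, `wvol_le`, `wk_le`: induction on `w`.
-/

namespace SYS.NS

open Classical SST SYS.Num SYS.Part

private theorem bx_step {n : ℕ} {S : Part (Fin (6 * n))} {x : Fin (6 * n)} {p F : ℕ} (hS : S.Typ [x] [p] (F + 1) 0) :
    ∃ (S' : Part (Fin (6 * n))) (z : Fin (6 * n)), S'.Typ [z] [p + 1] F 0 := by
  have h1 := st_card hS (s := .T) trivial
  have h2 : ({q : Part (Fin (6 * n)) × Fin (6 * n) | S.St x .T q.1 q.2}).Nonempty := by
    rw [Set.nonempty_iff_ne_empty]
    intro h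
    rw [h, Set.ncard_empty] at h1
    have h3 : (0 : ℝ) < (((3 * (F + 1)).descFactorial (3 * Stp.T.vol) : ℕ) : ℝ) * Stp.T.wt 1 Num.W := by
      apply mul_pos
      · have : 0 < (3 * (F + 1)).descFactorial (3 * Stp.T.vol) := by
          rw [Nat.descFactorial_pos]
          show 3 * 1 ≤ 3 * (F + 1)
          omega
        exact_mod_cast this
      · exact one_pos
    rw [← h1] at h3
    simp at h3
  obtain ⟨⟨S', z⟩, hq⟩ := h2
  have hq' : S.St x .T S' z := hq
  obtain ⟨-, F', hF', h4⟩ := st_typ hS hq'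
  have : F' = F := by
    have : F' + 1 = F + 1 := hF'
    omega
  subst this
  exact ⟨S', z, h4⟩

private theorem bx_it {n : ℕ} (k : ℕ) : ∀ (S : Part (Fin (6 * n))) (x : Fin (6 * n)) (p F : ℕ), S.Typ [x] [p] (F + k) 0 →
    ∃ (S' : Part (Fin (6 * n))) (z : Fin (6 * n)), S'.Typ [z] [p + k] F 0 := by
  induction k with
  | zero =>
    intro S x p F h
    exact ⟨S, x, h⟩
  | succ k ih =>
    intro S x p F h
    obtain ⟨S1, z1, h1⟩ := bx_step (F := F + k) h
    obtain ⟨S2, z2, h2⟩ := ih S1 z1 (p + 1) F h1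
    refine ⟨S2, z2, ?_⟩
    rw [show p + (k + 1) = p + 1 + k by omega]
    exact h2

theorem exists_base (p₀ F₀ : ℕ) : ∃ (n : ℕ) (S : Part (Fin (6 * n))) (x : Fin (6 * n)) (p F : ℕ),
    S.Typ [x] [p] F 0 ∧ p₀ ≤ p ∧ F₀ ≤ F := by
  obtain ⟨n, hn⟩ : ∃ n, n = p₀ + F₀ + 1 := ⟨_, rfl⟩
  have hR : (emp : Part (Fin (6 * n))).R = ∅ := by
    ext d
    constructor
    · intro hd; exact absurd rfl hd
    · intro hd; exact absurd hd (Set.notMem_empty d)
  have h0 : (emp : Part (Fin (6 * n))).Typ [] [] ((F₀ + (2 * n - 1 - F₀)) + 1) 0 := by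
    have := typ_emp (n := n) (by omega)
    rwa [show F₀ + (2 * n - 1 - F₀) + 1 = 2 * n by omega]
  have a0 : (⟨0, by omega⟩ : Fin (6 * n)) ∉ (emp : Part (Fin (6 * n))).R := by
    rw [hR]; exact Set.notMem_empty _
  have a1 : (⟨1, by omega⟩ : Fin (6 * n)) ∉ (emp : Part (Fin (6 * n))).R := by
    rw [hR]; exact Set.notMem_empty _
  have a2 : (⟨2, by omega⟩ : Fin (6 * n)) ∉ (emp : Part (Fin (6 * n))).R := by
    rw [hR]; exact Set.notMem_empty _
  have h1 := typ_newTri h0 a0 a1 a2 (by simp [Fin.ext_iff]) (by simp [Fin.ext_iff]) (by simp [Fin.ext_iff])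
  obtain ⟨S', z, h2⟩ := bx_it (2 * n - 1 - F₀) _ _ _ _ h1
  exact ⟨n, S', z, _, _, h2, by omega, le_rfl⟩

private theorem bx_gv {v : ℕ} {s : Stp} (h : s ∈ Gv v) : s = .T ∨ (∃ k a, k ≤ v ∧ a ≤ v ∧ s = .L k a) ∨
    ∃ k a, k ≤ v ∧ a ≤ v ∧ s = .R k a := by
  rw [Gv, Finset.mem_union, Finset.mem_union, Finset.mem_singleton, Finset.mem_image, Finset.mem_image] at h
  rcases h with h | ⟨z, hz, rfl⟩ | ⟨z, hz, rfl⟩
  · exact Or.inl h
  · rw [Finset.mem_product, Finset.mem_range, Finset.mem_range] at hz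
    exact Or.inr (Or.inl ⟨z.1, z.2, by omega, by omega, rfl⟩)
  · rw [Finset.mem_product, Finset.mem_range, Finset.mem_range] at hz
    exact Or.inr (Or.inr ⟨z.1, z.2, by omega, by omega, rfl⟩)

private theorem bx_wk (s : Stp) (w : List Stp) : wk (s :: w) =
    (match s with | .T => 0 | .L k _ => k + 2 | .R k _ => k + 2) + wk w := by
  cases s <;> simp [Part.wk]

theorem wk_le {v : ℕ} {w : List Stp} (hw : ∀ s ∈ w, s ∈ Gv v) : wk w ≤ w.length * (v + 2) := by
  induction w with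
  | nil => simp [Part.wk]
  | cons s w ih =>
    have h1 := ih fun t ht => hw t (List.mem_cons_of_mem _ ht)
    rw [bx_wk, List.length_cons, Nat.succ_mul]
    rcases bx_gv (hw s List.mem_cons_self) with rfl | ⟨k, a, hk, -, rfl⟩ | ⟨k, a, hk, -, rfl⟩
    · show 0 + wk w ≤ _
      omega
    · show k + 2 + wk w ≤ _
      omega
    · show k + 2 + wk w ≤ _
      omega

theorem wvol_le {v : ℕ} {w : List Stp} (hw : ∀ s ∈ w, s ∈ Gv v) : wvol w ≤ w.length * (v + 1) := by
  induction w with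
  | nil => simp [wvol]
  | cons s w ih =>
    have h1 := ih fun t ht => hw t (List.mem_cons_of_mem _ ht)
    rw [wvol_cons, List.length_cons, Nat.succ_mul]
    rcases bx_gv (hw s List.mem_cons_self) with rfl | ⟨k, a, -, ha, rfl⟩ | ⟨k, a, -, ha, rfl⟩
    · show 1 + wvol w ≤ _
      omega
    · show a + wvol w ≤ _
      omega
    · show a + wvol w ≤ _
      omega

theorem wend_ge {p : ℕ} (w : List Stp) : p ≤ wend p w + wk w := by
  induction w generalizing p with
  | nil => exact Nat.le_add_right _ _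
  | cons s w ih =>
    rw [wend_cons, bx_wk]
    have h := ih (p := s.nx p)
    cases s with
    | T =>
      have h' : p + 1 ≤ wend (Stp.T.nx p) w + wk w := h
      show p ≤ _ + (0 + wk w)
      omega
    | L k a =>
      have h' : p - (k + 2) ≤ wend ((Stp.L k a).nx p) w + wk w := h
      show p ≤ _ + (k + 2 + wk w)
      omega
    | R k a =>
      have h' : p - (k + 2) ≤ wend ((Stp.R k a).nx p) w + wk w := h
      show p ≤ _ + (k + 2 + wk w)
      omega

end SYS.NS
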