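import Pool.Agent.SYS.NS.Defs

/-!
# SYS-NS-Inv: the local ends of a block do not depend on the base

PLAN.  Copy the private lemmas `typ_B`, `typ_per`, `lvl`, `EF`, `mem_EF`, `EF_card`, `key` of `PX/GM.lean` (and `sim_exn`, wherever it is) into this file (keep them private) and the second half of the proof of `gB_low` there: `Q' :=` all `(w, r)` with `w` a word of `Q` and `r ∈ EF (nx S' x') S' x' W w`.  For every word `w`: `Q` restricted to `w` is contained in
`EF (nx S x) S x W w`, and `nwt X F w * ∑ EF = nwt X F' w * ∑ EF'` by `key` (`hB.bok.ib`) divided by the two `descFactorial`s (nonzero: `wvol w ≤ F` by `br_typ` with `br_of_lbr`, `wvol w ≤ v ≤ F'`).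
-/

namespace SYS.NS

open Classical SST SYS.Num SYS.Part

variable {nx : ∀ {D : Type} [Finite D], Part D → D → Part D → Option D} {R₀ N : ℕ} {X : ℝ}

private theorem inv_typ_B {D : Type} [Finite D] {S : Part D} {x : D} {l : List D} {p : ℕ} {P : List ℕ} {F κ : ℕ}
    (hS : S.Typ (x :: l) (p :: P) F κ) : x ∈ S.B := hS.hl.1 _ List.mem_cons_self

private theorem inv_typ_per {D : Type} [Finite D] {S : Part D} {x : D} {l : List D} {p : ℕ} {P : List ℕ} {F κ : ℕ}
    (hS : S.Typ (x :: l) (p :: P) F κ) : S.per x = p := by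
  have h := hS.per
  rw [List.map_cons] at h
  exact (List.cons_eq_cons.1 h).1

private theorem inv_lvl {α : Type} (A : Finset α) (f : α → ℕ) (M : ℕ) (h : ∀ a ∈ A, f a ≤ M) :
    ∑ a ∈ A, (f a : ℝ) = ∑ j ∈ Finset.range (M + 1), ((A.filter fun a => f a = j).card : ℝ) * j := by
  rw [← Finset.sum_fiberwise_of_maps_to (g := f) (t := Finset.range (M + 1))
    (fun a ha => Finset.mem_range.2 (Nat.lt_succ_of_le (h a ha)))]
  refine Finset.sum_congr rfl fun j _ => ?_
  rw [Finset.sum_congr rfl (fun a ha => by rw [(Finset.mem_filter.1 ha).2]), Finset.sum_const, nsmul_eq_mul]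

/-- Local ends. -/
private noncomputable def inv_EF {D : Type} [Finite D] (b : Part D → Option D) (S : Part D) (x : D) (W : ℕ) (w : List Stp) :
    Finset (Part D × D) :=
  (Set.toFinite {q : Part D × D | LBR b S x W S x w q.1 q.2 ∧ b q.1 = none}).toFinset

private theorem inv_mem_EF {D : Type} [Finite D] {b : Part D → Option D} {S : Part D} {x : D} {W : ℕ} {w : List Stp}
    {q : Part D × D} : q ∈ inv_EF b S x W w ↔ LBR b S x W S x w q.1 q.2 ∧ b q.1 = none := by
  unfold inv_EF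
  rw [Set.Finite.mem_toFinset]
  exact Iff.rfl

private theorem inv_EF_card {D : Type} [Finite D] (b : Part D → Option D) (S : Part D) (x : D) (W : ℕ) (w : List Stp) (j : ℕ) :
    ((inv_EF b S x W w).filter fun q => exn S q.1 = j).card =
      {q : Part D × D | LBR b S x W S x w q.1 q.2 ∧ (b q.1 = none ∧ exn S q.1 = j)}.ncard := by
  rw [← Set.ncard_coe_finset]
  congr 1
  ext q
  rw [Finset.mem_coe, Finset.mem_filter, inv_mem_EF, and_assoc]
  exact Iff.rfl

private theorem inv_key {D E : Type} [Finite D] [Finite E] {S : Part D} {x : D} {T : Part E} {y : E} {W : ℕ}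
    {b : Part D → Option D} {b' : Part E → Option E} (hx : x ∈ S.B) (hy : y ∈ T.B) (hp : 2 * W + 1 < S.per x)
    (hp' : 2 * W + 1 < T.per y) (hI : IB b b' S x T y W) (w : List Stp) {F F' : ℕ}
    (hF : S.R.ncard + 3 * F = Nat.card D) (hF' : T.R.ncard + 3 * F' = Nat.card E) :
    (∑ q ∈ inv_EF b S x W w, (exn S q.1 : ℝ)) * (((3 * F').descFactorial (3 * wvol w) : ℕ) : ℝ) =
      (∑ q ∈ inv_EF b' T y W w, (exn T q.1 : ℝ)) * (((3 * F).descFactorial (3 * wvol w) : ℕ) : ℝ) := by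
  have hexn : ∀ {D : Type} [Finite D] (S X' : Part D), exn S X' ≤ Nat.card D := by
    intro D _ S X'
    unfold exn
    rw [← Set.ncard_univ]
    exact Set.ncard_le_ncard (Set.subset_univ _) (Set.toFinite _)
  rw [inv_lvl _ (fun q : Part D × D => exn S q.1) (max (Nat.card D) (Nat.card E))
      (fun q _ => (hexn S q.1).trans (le_max_left _ _)),
    inv_lvl _ (fun q : Part E × E => exn T q.1) (max (Nat.card D) (Nat.card E))
      (fun q _ => (hexn T q.1).trans (le_max_right _ _)), Finset.sum_mul, Finset.sum_mul]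
  refine Finset.sum_congr rfl fun j _ => ?_
  obtain ⟨θ, hθ⟩ := sim_refl hx hy hp hp'
  have hx0 : θ x = y := by
    have h := hθ.base 0 (by simp)
    have e1 : S.bs x 0 = x := by unfold bs; rw [zpow_zero]; rfl
    have e2 : T.bs y 0 = y := by unfold bs; rw [zpow_zero]; rfl
    rw [e1, e2] at h
    exact h
  have h1 := ind_b (θ := θ) (S₁ := S) (T₁ := T) (d := x) hI (fun S' _ => b S' = none ∧ exn S S' = j)
    (fun T' _ => b' T' = none ∧ exn T T' = j) (by
      intro S' T' θ' x' hsim _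
      rw [sim_exn hsim]
      refine and_congr_left' ⟨fun h => (hI S' T' θ' hsim).1 h, fun h => ?_⟩
      by_contra hne
      obtain ⟨d, hd⟩ := Option.ne_none_iff_exists'.1 hne
      have h2 := ((hI S' T' θ' hsim).2 d hd).2
      rw [h] at h2
      cases h2) hθ (Or.inr ⟨0, by simp, by unfold bs; rw [zpow_zero]; rfl⟩) w hF hF'
  rw [hx0] at h1
  rw [inv_EF_card, inv_EF_card]
  calc _ = ((({q : Part D × D | LBR b S x W S x w q.1 q.2 ∧ (b q.1 = none ∧ exn S q.1 = j)}.ncard : ℕ) : ℝ) *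
        (((3 * F').descFactorial (3 * wvol w) : ℕ) : ℝ)) * j := by ring
    _ = _ := by
      rw [h1]
      ring

theorem loc_inv (hX : 0 < X) (hB : BH nx R₀ N) {n n' : ℕ} {S : Part (Fin (6 * n))} {x : Fin (6 * n)} {l : List (Fin (6 * n))}
    {p : ℕ} {P : List ℕ} {F κ : ℕ} {S' : Part (Fin (6 * n'))} {x' : Fin (6 * n')} {l' : List (Fin (6 * n'))} {p' : ℕ}
    {P' : List ℕ} {F' κ' W v : ℕ} (hS : S.Typ (x :: l) (p :: P) F κ) (hS' : S'.Typ (x' :: l') (p' :: P') F' κ')
    (hp : 2 * W + 1 < p) (hp' : 2 * W + 1 < p') (hv : v ≤ F') (Q : Finset (List Stp × Part (Fin (6 * n)) × Fin (6 * n)))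
    (hQ : ∀ q ∈ Q, LBR (nx S x) S x W S x q.1 q.2.1 q.2.2 ∧ nx S x q.2.1 = none ∧ wvol q.1 ≤ v) :
    ∃ Q' : Finset (List Stp × Part (Fin (6 * n')) × Fin (6 * n')),
      (∀ q ∈ Q', LBR (nx S' x') S' x' W S' x' q.1 q.2.1 q.2.2 ∧ nx S' x' q.2.1 = none ∧ wvol q.1 ≤ v) ∧
      ∑ q ∈ Q, nwt X F q.1 * (exn S q.2.1 : ℝ) ≤ ∑ q ∈ Q', nwt X F' q.1 * (exn S' q.2.1 : ℝ) := by
  obtain ⟨V, hV⟩ : ∃ V : Finset (List Stp), V = Q.image Prod.fst := ⟨_, rfl⟩
  have hx := inv_typ_B hS
  have hx' := inv_typ_B hS'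
  have hVle : ∀ w ∈ V, wvol w ≤ F ∧ wvol w ≤ v := by
    intro w hw
    rw [hV] at hw
    obtain ⟨q, hq, rfl⟩ := Finset.mem_image.1 hw
    obtain ⟨h1, h2, h3⟩ := hQ q hq
    refine ⟨?_, h3⟩
    obtain ⟨h4, h5⟩ := br_of_lbr hS hp (fun Z d hZ hd => hB.bok.gate S x hx Z d hZ hd) h1
    obtain ⟨-, F', hF', -⟩ := br_typ hS h4
    omega
  refine ⟨V.biUnion fun w => (inv_EF (nx S' x') S' x' W w).image fun q => (w, q), ?_, ?_⟩
  · intro q hq
    obtain ⟨w, hw, hq⟩ := Finset.mem_biUnion.1 hq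
    obtain ⟨r, hr, rfl⟩ := Finset.mem_image.1 hq
    obtain ⟨h1, h2⟩ := inv_mem_EF.1 hr
    exact ⟨h1, h2, (hVle w hw).2⟩
  · have hsumS : ∑ q ∈ V.biUnion fun w => (inv_EF (nx S' x') S' x' W w).image fun q => (w, q),
        nwt X F' q.1 * (exn S' q.2.1 : ℝ) =
        ∑ w ∈ V, nwt X F' w * ∑ q ∈ inv_EF (nx S' x') S' x' W w, (exn S' q.1 : ℝ) := by
      rw [Finset.sum_biUnion]
      · refine Finset.sum_congr rfl fun w _ => ?_
        rw [Finset.sum_image (fun a _ b _ hab => (Prod.mk.inj hab).2), Finset.mul_sum]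
      · intro w _ w' _ hne
        rw [Function.onFun, Finset.disjoint_left]
        intro q hq hq'
        obtain ⟨r, _, rfl⟩ := Finset.mem_image.1 hq
        obtain ⟨r', _, h⟩ := Finset.mem_image.1 hq'
        exact hne (Prod.mk.inj h).1.symm
    have hsum0 : ∑ q ∈ Q, nwt X F q.1 * (exn S q.2.1 : ℝ) ≤
        ∑ w ∈ V, nwt X F w * ∑ q ∈ inv_EF (nx S x) S x W w, (exn S q.1 : ℝ) := by
      rw [← Finset.sum_fiberwise_of_maps_to (g := Prod.fst) (t := V)
        (fun q hq => by rw [hV]; exact Finset.mem_image_of_mem _ hq)]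
      refine Finset.sum_le_sum fun w hw => ?_
      have e1 : ∑ q ∈ Q.filter (fun q => q.1 = w), nwt X F q.1 * (exn S q.2.1 : ℝ) =
          nwt X F w * ∑ q ∈ (Q.filter (fun q => q.1 = w)).image Prod.snd, (exn S q.1 : ℝ) := by
        rw [Finset.sum_image, Finset.mul_sum]
        · refine Finset.sum_congr rfl fun q hq => ?_
          rw [(Finset.mem_filter.1 hq).2]
        · intro a ha b hb hab
          have h1 := (Finset.mem_filter.1 ha).2
          have h2 := (Finset.mem_filter.1 hb).2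
          exact Prod.ext (h1.trans h2.symm) hab
      rw [e1]
      refine mul_le_mul_of_nonneg_left ?_ (nwt_nonneg hX _ _)
      refine Finset.sum_le_sum_of_subset_of_nonneg ?_ fun _ _ _ => Nat.cast_nonneg _
      intro r hr
      obtain ⟨q, hq, rfl⟩ := Finset.mem_image.1 hr
      have hqm := Finset.mem_filter.1 hq
      obtain ⟨h1, h2, -⟩ := hQ q hqm.1
      rw [← hqm.2]
      exact inv_mem_EF.2 ⟨h1, h2⟩
    have heq : ∑ w ∈ V, nwt X F w * ∑ q ∈ inv_EF (nx S x) S x W w, (exn S q.1 : ℝ) =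
        ∑ w ∈ V, nwt X F' w * ∑ q ∈ inv_EF (nx S' x') S' x' W w, (exn S' q.1 : ℝ) := by
      refine Finset.sum_congr rfl fun w hw => ?_
      obtain ⟨hw1, hw2⟩ := hVle w hw
      have hp0 : 2 * W + 1 < S.per x := by rw [inv_typ_per hS]; exact hp
      have hp1 : 2 * W + 1 < S'.per x' := by rw [inv_typ_per hS']; exact hp'
      have hk := inv_key hx hx' hp0 hp1 (hB.bok.ib S x S' x' W hx hx' hp0 hp1) w hS.vol hS'.vol
      have hd0 : (((3 * F).descFactorial (3 * wvol w) : ℕ) : ℝ) ≠ 0 := by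
        rw [Nat.cast_ne_zero, Ne, Nat.descFactorial_eq_zero_iff_lt]
        omega
      have hd1 : (((3 * F').descFactorial (3 * wvol w) : ℕ) : ℝ) ≠ 0 := by
        rw [Nat.cast_ne_zero, Ne, Nat.descFactorial_eq_zero_iff_lt]
        omega
      unfold nwt
      rw [div_mul_eq_mul_div, div_mul_eq_mul_div, div_eq_div_iff hd0 hd1, mul_assoc, mul_assoc, hk]
    rw [hsumS, ← heq]
    exact hsum0

end SYS.NS
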