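import Pool.Agent.SYS.NS.EL
import Pool.Agent.SYS.NS.Inv
import Pool.Agent.SYS.NS.BaseX

/-!
# SYS-NS-Low: local ends with many exits, tails of the other ends (input for GRW)

PLAN.
* `low`: `gB_low` for `ε / 4`: `W₁`, `v₁`.  `abs_mass` for a `δ` with `2 N δ ≤ ε / 4` (`δ = ε / (8 (N + 1))`): `v₀`.  `exists_base` with `p₁ ≥ 4 (W + W₁ + 2)`, `F₁ ≥ v₁ + v₀`: a base `S₁` with one hole (`l = []`).  `gB_low`: a set `Q₁` of ends, `¬ Abs x₁ W₁`, `wvol ≤ v₁`, with sum at least `gB - ε / 4`.  The part of `Q₁` with `Abs x₁ W`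
  contributes at most `2 N * mass ≤ ε / 4 + ε / 4` (`exn_len`, `hB.bok.len`, `abs_mass`, `hW`).  The rest is local with the window `W + 1` (`lbr_of_br`; `hB.bok.gate`).  `loc_inv` (window `W + 1`, `v = v₁`) from `S₁` to `S`.
* `tail_e`: `δ` with `(L + 1) δ ≤ ε / 4`; `v` so large that `(L + 1) * exp (A (N + 1) - a v) ≤ ε / 4` and `v ≥` the `v₀` of `abs_mass` for `δ`.  Split `Q`: `L < Part.wk q.1`: `end_tail` with `v = L` (`hL`): at most `ε / 4`; `wk q.1 ≤ L`: `(wk + 1) ≤ L + 1`, and the mass of those with `S.Abs x W q.2.1` is at most `.. + δ` (`abs_mass`), those with `v < wvol q.1`: `end_tail`; if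
  `¬ Abs x W` and `wvol ≤ v` then the end is local (`lbr_of_br`), excluded.  `br_len`: `hB.bok.len`.
-/

namespace SYS.NS

open Classical SST SYS.Num SYS.Part

variable {nx : ∀ {D : Type} [Finite D], Part D → D → Part D → Option D} {R₀ N : ℕ} {X c C a A : ℝ}

theorem low (hX : 0 < X) (hT : Tl X c C) (hc : 0 < c) (hC : 0 < C) (hB : BH nx R₀ N) {ε : ℝ} (hε : 0 < ε) {W : ℕ}
    (hW : 2 * N * ((2 ^ (R₀ + 2) + 2 * N) * (C * Real.exp (-(c * W)))) ≤ ε / 4) :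
    ∃ v : ℕ, ∀ {n : ℕ} {S : Part (Fin (6 * n))} {x : Fin (6 * n)} {l : List (Fin (6 * n))} {p : ℕ} {P : List ℕ} {F κ : ℕ},
    S.Typ (x :: l) (p :: P) F κ → 2 * (W + 1) + 1 < p → v ≤ F →
    ∃ Q : Finset (List Stp × Part (Fin (6 * n)) × Fin (6 * n)),
      (∀ q ∈ Q, LBR (nx S x) S x (W + 1) S x q.1 q.2.1 q.2.2 ∧ nx S x q.2.1 = none ∧ wvol q.1 ≤ v) ∧
      gB nx X - ε ≤ ∑ q ∈ Q, nwt X F q.1 * (exn S q.2.1 : ℝ) := by
  obtain ⟨W₁, v₁, hlow⟩ := gB_low hX hB.bok (ε := ε / 4) (by linarith)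
  have hN1 : (0 : ℝ) < 8 * ((N : ℝ) + 1) := by positivity
  obtain ⟨δ, hδ0⟩ : ∃ δ, δ = ε / (8 * ((N : ℝ) + 1)) := ⟨_, rfl⟩
  have hδ : 0 < δ := by
    rw [hδ0]
    exact div_pos hε hN1
  have hδ2 : 2 * N * δ ≤ ε / 4 := by
    have h1 : δ * (8 * ((N : ℝ) + 1)) = ε := by
      rw [hδ0]
      exact div_mul_cancel₀ _ hN1.ne'
    nlinarith
  obtain ⟨v₀, habs⟩ := abs_mass hX hT hc hC hB hδ
  obtain ⟨n₁, S₁, x₁, p₁, F₁, hS₁, hp₁, hF₁⟩ := exists_base (4 * (W + W₁ + 2)) (v₁ + v₀)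
  obtain ⟨Q₁, hQ₁, hsum⟩ := hlow hS₁ (by omega) (by omega)
  have hx₁ : x₁ ∈ S₁.B := hS₁.hl.1 x₁ List.mem_cons_self
  refine ⟨v₁, fun {n S x l p P F κ} hS hp hv => ?_⟩
  have hQ2 : ∀ q ∈ Q₁.filter (fun q => ¬ S₁.Abs x₁ W q.2.1),
      LBR (nx S₁ x₁) S₁ x₁ (W + 1) S₁ x₁ q.1 q.2.1 q.2.2 ∧ nx S₁ x₁ q.2.1 = none ∧ wvol q.1 ≤ v₁ := by
    intro q hq
    obtain ⟨h1, h2⟩ := Finset.mem_filter.1 hq
    obtain ⟨h3, -, h4⟩ := hQ₁ q h1
    exact ⟨lbr_of_br hS₁ (by omega) (fun Z d hZ hd => hB.bok.gate S₁ x₁ hx₁ Z d hZ hd) h3.1 h2, h3.2, h4⟩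
  obtain ⟨Q', hQ', hle⟩ := loc_inv hX hB hS₁ hS (by omega) hp hv _ hQ2
  refine ⟨Q', hQ', ?_⟩
  have hsplit := Finset.sum_filter_add_sum_filter_not Q₁ (fun q => S₁.Abs x₁ W q.2.1)
    (fun q => nwt X F₁ q.1 * (exn S₁ q.2.1 : ℝ))
  have hmass := habs hS₁ (W := W) (by omega) (by rw [List.length_nil]; omega)
    (Q₁.filter (fun q => S₁.Abs x₁ W q.2.1))
    (fun q hq => ⟨(hQ₁ q (Finset.mem_filter.1 hq).1).1, (Finset.mem_filter.1 hq).2⟩)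
  have h5 : ∑ q ∈ Q₁.filter (fun q => S₁.Abs x₁ W q.2.1), nwt X F₁ q.1 * (exn S₁ q.2.1 : ℝ) ≤
      2 * N * ∑ q ∈ Q₁.filter (fun q => S₁.Abs x₁ W q.2.1), nwt X F₁ q.1 := by
    rw [Finset.mul_sum]
    refine Finset.sum_le_sum fun q hq => ?_
    obtain ⟨h6, -, -⟩ := hQ₁ q (Finset.mem_filter.1 hq).1
    have h7 := exn_len hx₁ h6.1
    have h8 := hB.bok.len S₁ x₁ q hx₁ h6
    have h9 : (exn S₁ q.2.1 : ℝ) ≤ 2 * N := by
      have h10 : exn S₁ q.2.1 ≤ 2 * N := by omega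
      exact_mod_cast h10
    rw [mul_comm]
    exact mul_le_mul_of_nonneg_right h9 (nwt_nonneg hX _ _)
  have h6 : 2 * (N : ℝ) * ∑ q ∈ Q₁.filter (fun q => S₁.Abs x₁ W q.2.1), nwt X F₁ q.1 ≤
      2 * N * ((2 ^ (R₀ + 2) + 2 * N) * (C * Real.exp (-(c * W))) + δ) :=
    mul_le_mul_of_nonneg_left hmass (by positivity)
  rw [mul_add] at h6
  linarith

theorem tail_e (hX : 0 < X) (hT : Tl X c C) (hc : 0 < c) (hC : 0 < C) (hA : Wt X a A) (ha : 0 < a) (hB : BH nx R₀ N) {ε : ℝ}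
    (hε : 0 < ε) {W L : ℕ} (hL : Real.exp (A * (N + 1) - a * L) ≤ ε / 4)
    (hW : (L + 1) * ((2 ^ (R₀ + 2) + 2 * N) * (C * Real.exp (-(c * W)))) ≤ ε / 4) :
    ∃ v : ℕ, ∀ v' : ℕ, v ≤ v' → ∀ {n : ℕ} {S : Part (Fin (6 * n))} {x : Fin (6 * n)} {l : List (Fin (6 * n))} {p : ℕ} {P : List ℕ}
    {F κ : ℕ}, S.Typ (x :: l) (p :: P) F κ → 4 * (W + 1) ≤ p → v + l.length ≤ F →
    ∀ Q : Finset (List Stp × Part (Fin (6 * n)) × Fin (6 * n)), (∀ q ∈ Q, BEnd (nx S x) S x q ∧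
      ¬ (LBR (nx S x) S x (W + 1) S x q.1 q.2.1 q.2.2 ∧ wvol q.1 ≤ v')) →
    ∑ q ∈ Q, nwt X F q.1 * ((wk q.1 : ℝ) + 1) ≤ ε := by
  have hL1 : (0 : ℝ) < 4 * ((L : ℝ) + 1) := by positivity
  obtain ⟨δ, hδ0⟩ : ∃ δ, δ = ε / (4 * ((L : ℝ) + 1)) := ⟨_, rfl⟩
  have hδ : 0 < δ := by
    rw [hδ0]
    exact div_pos hε hL1
  have hδ2 : ((L : ℝ) + 1) * δ = ε / 4 := by
    have h1 : δ * (4 * ((L : ℝ) + 1)) = ε := by
      rw [hδ0]
      exact div_mul_cancel₀ _ hL1.ne'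
    linarith
  obtain ⟨v₀, habs⟩ := abs_mass hX hT hc hC hB hδ
  obtain ⟨v₂, hv₂⟩ : ∃ v₂ : ℕ, (A * (N + 1) - Real.log (ε / 4)) / a ≤ v₂ := ⟨_, Nat.le_ceil _⟩
  have hexp : ∀ v : ℕ, v₂ ≤ v → Real.exp (A * (N + 1) - a * v) ≤ ε / 4 := by
    intro v hv
    have h1 : A * (N + 1) - Real.log (ε / 4) ≤ a * v := by
      rw [div_le_iff₀ ha] at hv₂
      have h2 : (v₂ : ℝ) ≤ v := by exact_mod_cast hv
      nlinarith
    calc Real.exp (A * (N + 1) - a * v) ≤ Real.exp (Real.log (ε / 4)) := Real.exp_le_exp.2 (by linarith)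
      _ = ε / 4 := Real.exp_log (by linarith)
  refine ⟨v₀ + v₂, fun v' hv' {n S x l p P F κ} hS hp hF Q hQ => ?_⟩
  have hx : x ∈ S.B := hS.hl.1 x List.mem_cons_self
  have hlen : ∀ q ∈ Q, q.1.length ≤ N := fun q hq => hB.bok.len S x q hx (hQ q hq).1
  rw [← Finset.sum_filter_add_sum_filter_not Q (fun q => L < Part.wk q.1),
    ← Finset.sum_filter_add_sum_filter_not (Q.filter (fun q => ¬ L < Part.wk q.1))
      (fun q : List Stp × Part (Fin (6 * n)) × Fin (6 * n) => S.Abs x W q.2.1)]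
  have h1 : ∑ q ∈ Q.filter (fun q => L < Part.wk q.1), nwt X F q.1 * ((wk q.1 : ℝ) + 1) ≤ ε / 4 := by
    refine (end_tail hX hA hS (b := nx S x) _ fun q hq => ?_).trans hL
    obtain ⟨h2, h3⟩ := Finset.mem_filter.1 hq
    exact ⟨(hQ q h2).1, hlen q h2, by omega⟩
  have h2 : ∑ q ∈ (Q.filter (fun q => ¬ L < Part.wk q.1)).filter (fun q => S.Abs x W q.2.1),
      nwt X F q.1 * ((wk q.1 : ℝ) + 1) ≤ ε / 2 := by
    have hmass := habs hS (W := W) hp (by omega)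
      ((Q.filter (fun q => ¬ L < Part.wk q.1)).filter (fun q => S.Abs x W q.2.1))
      (fun q hq => by
        obtain ⟨h3, h4⟩ := Finset.mem_filter.1 hq
        exact ⟨(hQ q (Finset.mem_filter.1 h3).1).1, h4⟩)
    have h3 : ∑ q ∈ (Q.filter (fun q => ¬ L < Part.wk q.1)).filter (fun q => S.Abs x W q.2.1),
        nwt X F q.1 * ((wk q.1 : ℝ) + 1) ≤
        ((L : ℝ) + 1) * ∑ q ∈ (Q.filter (fun q => ¬ L < Part.wk q.1)).filter (fun q => S.Abs x W q.2.1),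
          nwt X F q.1 := by
      rw [Finset.mul_sum]
      refine Finset.sum_le_sum fun q hq => ?_
      have h4 := (Finset.mem_filter.1 (Finset.mem_filter.1 hq).1).2
      have h5 : (wk q.1 : ℝ) + 1 ≤ (L : ℝ) + 1 := by
        have h6 : (wk q.1 : ℝ) ≤ (L : ℝ) := by exact_mod_cast not_lt.1 h4
        linarith
      rw [mul_comm]
      exact mul_le_mul_of_nonneg_right h5 (nwt_nonneg hX _ _)
    have h4 : ((L : ℝ) + 1) * ∑ q ∈ (Q.filter (fun q => ¬ L < Part.wk q.1)).filter (fun q => S.Abs x W q.2.1),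
        nwt X F q.1 ≤ ((L : ℝ) + 1) * ((2 ^ (R₀ + 2) + 2 * N) * (C * Real.exp (-(c * W))) + δ) :=
      mul_le_mul_of_nonneg_left hmass (by positivity)
    rw [mul_add] at h4
    linarith
  have h3 : ∑ q ∈ (Q.filter (fun q => ¬ L < Part.wk q.1)).filter (fun q => ¬ S.Abs x W q.2.1),
      nwt X F q.1 * ((wk q.1 : ℝ) + 1) ≤ ε / 4 := by
    refine (end_tail hX hA hS (v := v₀ + v₂) (b := nx S x) _ fun q hq => ?_).trans (hexp _ (by omega))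
    obtain ⟨h4, h5⟩ := Finset.mem_filter.1 hq
    obtain ⟨h6, -⟩ := Finset.mem_filter.1 h4
    obtain ⟨h7, h8⟩ := hQ q h6
    have h9 := lbr_of_br hS (by omega) (fun Z d hZ hd => hB.bok.gate S x hx Z d hZ hd) h7.1 h5
    have h10 : ¬ wvol q.1 ≤ v' := fun h11 => h8 ⟨h9, h11⟩
    exact ⟨h7, hlen q h6, by omega⟩
  linarith

end SYS.NS
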