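import Pool.Agent.SYS.NS.ParA

/-!
# SYS-NS-ParC: the window for the tails of the ends

`L = ⌈(A (KK + 1) + |log (4 / ε)|) / a⌉₊` gives the first inequality; `L + 1 ≤ b * KK` with a constant `b`, and the left side of the
second one is at most `b' * (2 ^ R0) ^ 2 * exp (-(c W)) ≤ b' * exp (2 R0 - c W)` with `b' = 198 b C`; the window is
`W = ⌈(|log (4 b' / ε)| + 2 R0) / c⌉₊`, and `R0 Λ μ Q ≤ (2 Λ / μ + 1) (Q + 1)`.
-/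

namespace SYS.NS

open Classical SST SYS.Num SYS.Part

private lemma parc_R {μ : ℝ} (hμ : 0 < μ) (Λ Q : ℕ) :
    (R0 Λ μ Q : ℝ) ≤ (2 * Λ / μ + 1) * (Q + 1) := by
  have h1 : (Ar Λ μ Q : ℝ) ≤ 2 * ((Λ * Q : ℕ) : ℝ) / μ + 1 := by
    unfold Ar
    exact (Nat.ceil_lt_add_one (by positivity)).le
  have h2 : (R0 Λ μ Q : ℝ) = (Ar Λ μ Q : ℝ) + Q := by
    unfold R0
    push_cast
    rfl
  have h3 : (0 : ℝ) ≤ 2 * Λ / μ := by positivity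
  have h4 : 2 * ((Λ * Q : ℕ) : ℝ) / μ = 2 * Λ / μ * Q := by
    push_cast
    ring
  rw [h2]
  rw [h4] at h1
  nlinarith

private lemma parc_pow (R : ℕ) : ((2 : ℝ) ^ R) ^ 2 ≤ Real.exp (2 * R) := by
  have h1 : (2 : ℝ) ≤ Real.exp 1 := by
    have := Real.add_one_le_exp (1 : ℝ)
    linarith
  have h2 : (2 : ℝ) ^ R ≤ Real.exp R := by
    have h3 : Real.exp R = Real.exp 1 ^ R := by
      rw [← Real.exp_nat_mul, mul_one]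
    rw [h3]
    exact pow_le_pow_left₀ (by norm_num) h1 R
  have h4 : Real.exp (2 * R) = Real.exp R ^ 2 := by
    rw [← Real.exp_nat_mul]
    norm_num
  rw [h4]
  exact pow_le_pow_left₀ (by positivity) h2 2

theorem par_L {μ c C a A ε : ℝ} (hμ : 0 < μ) (hc : 0 < c) (hC : 0 < C) (ha : 0 < a) (hA : 0 < A) (hε : 0 < ε) (Λ : ℕ) :
    ∃ c₁ : ℝ, 0 < c₁ ∧ ∀ Q : ℕ, ∃ W L : ℕ, (W : ℝ) ≤ c₁ * (Q + 1) ∧
      Real.exp (A * (KK Λ μ Q + 1) - a * L) ≤ ε / 4 ∧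
      ((L : ℝ) + 1) * ((2 ^ (R0 Λ μ Q + 2) + 2 * KK Λ μ Q) * (C * Real.exp (-(c * W)))) ≤ ε / 4 := by
  obtain ⟨ell, hell⟩ : ∃ ell : ℝ, ell = |Real.log (4 / ε)| := ⟨_, rfl⟩
  have hell0 : 0 ≤ ell := hell ▸ abs_nonneg _
  have hell1 : Real.exp (-ell) ≤ ε / 4 := by
    have h1 : -ell ≤ -Real.log (4 / ε) := by
      rw [hell]
      exact neg_le_neg (le_abs_self _)
    have h2 : Real.exp (-Real.log (4 / ε)) = ε / 4 := by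
      rw [Real.exp_neg, Real.exp_log (by positivity)]
      rw [inv_div]
    calc Real.exp (-ell) ≤ Real.exp (-Real.log (4 / ε)) := Real.exp_le_exp.2 h1
      _ = ε / 4 := h2
  obtain ⟨b, hb⟩ : ∃ b : ℝ, b = (2 * A + ell) / a + 2 := ⟨_, rfl⟩
  have hb0 : 0 < b := by rw [hb]; positivity
  obtain ⟨b', hb'⟩ : ∃ b' : ℝ, b' = 198 * b * C := ⟨_, rfl⟩
  have hb'0 : 0 < b' := by rw [hb']; positivity
  obtain ⟨el, hel⟩ : ∃ el : ℝ, el = |Real.log (4 * b' / ε)| := ⟨_, rfl⟩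
  have hel0 : 0 ≤ el := hel ▸ abs_nonneg _
  have hel1 : b' * Real.exp (-el) ≤ ε / 4 := by
    have h1 : -el ≤ -Real.log (4 * b' / ε) := by
      rw [hel]
      exact neg_le_neg (le_abs_self _)
    have h2 : Real.exp (-Real.log (4 * b' / ε)) = ε / (4 * b') := by
      rw [Real.exp_neg, Real.exp_log (by positivity)]
      rw [inv_div]
    calc b' * Real.exp (-el) ≤ b' * (ε / (4 * b')) := by
          rw [← h2]
          exact mul_le_mul_of_nonneg_left (Real.exp_le_exp.2 h1) hb'0.le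
      _ = ε / 4 := by field_simp
  refine ⟨(el + 2 * (2 * Λ / μ + 1)) / c + 1, by positivity, fun Q => ?_⟩
  have hR := parc_R hμ Λ Q
  have hP := parc_pow (R0 Λ μ Q)
  have hKK : (KK Λ μ Q : ℝ) = 9 * 2 ^ R0 Λ μ Q := by
    unfold KK
    push_cast
    rfl
  have hρ1 : (1 : ℝ) ≤ 2 ^ R0 Λ μ Q := one_le_pow₀ (by norm_num)
  have hK1 : (1 : ℝ) ≤ (KK Λ μ Q : ℝ) := by
    rw [hKK]
    linarith
  refine ⟨⌈(el + 2 * (R0 Λ μ Q : ℝ)) / c⌉₊, ⌈(A * ((KK Λ μ Q : ℝ) + 1) + ell) / a⌉₊, ?_, ?_, ?_⟩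
  · have h1 : ((⌈(el + 2 * (R0 Λ μ Q : ℝ)) / c⌉₊ : ℕ) : ℝ) ≤ (el + 2 * (R0 Λ μ Q : ℝ)) / c + 1 :=
      (Nat.ceil_lt_add_one (by positivity)).le
    refine h1.trans ?_
    have hQ : (0 : ℝ) ≤ (Q : ℝ) := Nat.cast_nonneg Q
    have h2 : (el + 2 * (R0 Λ μ Q : ℝ)) ≤ (el + 2 * (2 * Λ / μ + 1)) * (Q + 1) := by
      nlinarith [mul_nonneg hel0 hQ]
    have h3 : (el + 2 * (R0 Λ μ Q : ℝ)) / c ≤ (el + 2 * (2 * Λ / μ + 1)) / c * (Q + 1) := by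
      rw [div_mul_eq_mul_div]
      exact div_le_div_of_nonneg_right h2 hc.le
    calc (el + 2 * (R0 Λ μ Q : ℝ)) / c + 1 ≤ (el + 2 * (2 * Λ / μ + 1)) / c * (Q + 1) + (Q + 1) := by linarith
      _ = ((el + 2 * (2 * Λ / μ + 1)) / c + 1) * (Q + 1) := by ring
  · refine le_trans (Real.exp_le_exp.2 ?_) hell1
    have h1 : (A * ((KK Λ μ Q : ℝ) + 1) + ell) / a ≤ ((⌈(A * ((KK Λ μ Q : ℝ) + 1) + ell) / a⌉₊ : ℕ) : ℝ) := Nat.le_ceil _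
    rw [div_le_iff₀ ha] at h1
    nlinarith
  · have hL : ((⌈(A * ((KK Λ μ Q : ℝ) + 1) + ell) / a⌉₊ : ℕ) : ℝ) ≤ (A * ((KK Λ μ Q : ℝ) + 1) + ell) / a + 1 :=
      (Nat.ceil_lt_add_one (by positivity)).le
    have hL1 : ((⌈(A * ((KK Λ μ Q : ℝ) + 1) + ell) / a⌉₊ : ℕ) : ℝ) + 1 ≤ b * (KK Λ μ Q : ℝ) := by
      have h1 : (A * ((KK Λ μ Q : ℝ) + 1) + ell) ≤ (2 * A + ell) * (KK Λ μ Q : ℝ) := by
        nlinarith [mul_le_mul_of_nonneg_left hK1 hA.le, mul_le_mul_of_nonneg_left hK1 hell0]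
      have h2 : (A * ((KK Λ μ Q : ℝ) + 1) + ell) / a ≤ (2 * A + ell) / a * (KK Λ μ Q : ℝ) := by
        rw [div_mul_eq_mul_div]
        exact div_le_div_of_nonneg_right h1 ha.le
      rw [hb]
      nlinarith
    have hW : (el + 2 * (R0 Λ μ Q : ℝ)) / c ≤ ((⌈(el + 2 * (R0 Λ μ Q : ℝ)) / c⌉₊ : ℕ) : ℝ) := Nat.le_ceil _
    rw [div_le_iff₀ hc] at hW
    obtain ⟨W, hWd⟩ : ∃ W : ℝ, W = ((⌈(el + 2 * (R0 Λ μ Q : ℝ)) / c⌉₊ : ℕ) : ℝ) := ⟨_, rfl⟩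
    obtain ⟨L, hLd⟩ : ∃ L : ℝ, L = ((⌈(A * ((KK Λ μ Q : ℝ) + 1) + ell) / a⌉₊ : ℕ) : ℝ) := ⟨_, rfl⟩
    rw [← hWd] at hW ⊢
    rw [← hLd] at hL1 ⊢
    have hE : Real.exp (-(c * W)) ≤ Real.exp (-el) * Real.exp (-(2 * (R0 Λ μ Q : ℝ))) := by
      rw [← Real.exp_add]
      exact Real.exp_le_exp.2 (by linarith [mul_comm c W])
    have hE0 : 0 ≤ Real.exp (-(c * W)) := (Real.exp_pos _).le
    have hS : (2 : ℝ) ^ (R0 Λ μ Q + 2) + 2 * (KK Λ μ Q : ℝ) = 22 * 2 ^ R0 Λ μ Q := by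
      rw [hKK, pow_add]
      ring
    rw [hS]
    have h5 : (L + 1) * (22 * 2 ^ R0 Λ μ Q * (C * Real.exp (-(c * W)))) ≤
        b * (9 * 2 ^ R0 Λ μ Q) * (22 * 2 ^ R0 Λ μ Q * (C * Real.exp (-(c * W)))) := by
      rw [← hKK]
      exact mul_le_mul_of_nonneg_right hL1 (by positivity)
    have h6 : b * (9 * 2 ^ R0 Λ μ Q) * (22 * 2 ^ R0 Λ μ Q * (C * Real.exp (-(c * W)))) =
        b' * Real.exp (-(c * W)) * ((2 : ℝ) ^ R0 Λ μ Q) ^ 2 := by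
      rw [hb']
      ring
    have h7 : Real.exp (-(2 * (R0 Λ μ Q : ℝ))) * Real.exp (2 * (R0 Λ μ Q : ℝ)) = 1 := by
      rw [← Real.exp_add, neg_add_cancel, Real.exp_zero]
    calc (L + 1) * (22 * 2 ^ R0 Λ μ Q * (C * Real.exp (-(c * W)))) ≤
        b' * Real.exp (-(c * W)) * ((2 : ℝ) ^ R0 Λ μ Q) ^ 2 := h5.trans h6.le
      _ ≤ b' * (Real.exp (-el) * Real.exp (-(2 * (R0 Λ μ Q : ℝ)))) * Real.exp (2 * (R0 Λ μ Q : ℝ)) := by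
          refine mul_le_mul (mul_le_mul_of_nonneg_left hE hb'0.le) hP (by positivity) (by positivity)
      _ = b' * Real.exp (-el) * (Real.exp (-(2 * (R0 Λ μ Q : ℝ))) * Real.exp (2 * (R0 Λ μ Q : ℝ))) := by ring
      _ = b' * Real.exp (-el) := by rw [h7, mul_one]
      _ ≤ ε / 4 := hel1

end SYS.NS
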