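import Pool.Agent.SYS.NS.PrmQ
import Pool.Agent.SYS.NS.ParC
import Pool.Agent.SYS.NS.Low

/-!
# SYS-NS-Grw: input for GRW, with a window of order `Q`

PLAN.  `exists_tl`: `c, C`; `exists_wt`: `a, A`; `par_W` for `ε / 4`: `c₁'`, `par_L` for `ε₁`: `c₁''`; `c₁ = max`.  For `Q` let `W` be the maximum of the two windows (both inequalities remain true for a larger `W`: `exp (-(c W))` is decreasing).  `low` and `tail_e` with `prmQ_bh`; `v` = maximum.  (`low`: enlarge `v`: `wvol ≤ v`.)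
-/

namespace SYS.NS

open Classical SST SYS.Num SYS.Part

private theorem grw_mono {c C m B : ℝ} (hc : 0 < c) (hC : 0 < C) (hm : 0 ≤ m) (hB : 0 ≤ B) {W W' : ℕ} (h : W ≤ W')
    {ε : ℝ} (he : m * (B * (C * Real.exp (-(c * W)))) ≤ ε) : m * (B * (C * Real.exp (-(c * W')))) ≤ ε := by
  refine le_trans ?_ he
  refine mul_le_mul_of_nonneg_left (mul_le_mul_of_nonneg_left (mul_le_mul_of_nonneg_left ?_ hC.le) hB) hm
  apply Real.exp_le_exp.2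
  have h1 : (W : ℝ) ≤ W' := by exact_mod_cast h
  nlinarith

theorem ns_grw {X μ ε ε₁ : ℝ} (hX : 0 < X) (hμ : 0 < μ) (hμ1 : μ ≤ 1) (hε : 0 < ε) (hε₁ : 0 < ε₁) {Λ : ℕ} (hΛ : 96 ≤ Λ) :
    ∃ c₁ : ℝ, 0 < c₁ ∧ ∀ Q : ℕ, 2 ≤ Q → ∃ W v : ℕ, (W : ℝ) ≤ c₁ * (Q + 1) ∧
      ∀ {n : ℕ} {S : Part (Fin (6 * n))} {x : Fin (6 * n)} {l : List (Fin (6 * n))} {p : ℕ} {P : List ℕ} {F κ : ℕ},
      S.Typ (x :: l) (p :: P) F κ → 4 * (W + 1) ≤ p → v + l.length ≤ F →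
      (∃ U : Finset (List Stp × Part (Fin (6 * n)) × Fin (6 * n)),
        (∀ q ∈ U, LBR (BK.nxt (prmQ Λ μ Q) S x) S x (W + 1) S x q.1 q.2.1 q.2.2 ∧ BK.nxt (prmQ Λ μ Q) S x q.2.1 = none ∧
          wvol q.1 ≤ v) ∧
        gQ X Λ μ Q - ε ≤ ∑ q ∈ U, nwt X F q.1 * (exn S q.2.1 : ℝ)) ∧
      ∀ U : Finset (List Stp × Part (Fin (6 * n)) × Fin (6 * n)), (∀ q ∈ U, BEnd (BK.nxt (prmQ Λ μ Q) S x) S x q ∧
        ¬ (LBR (BK.nxt (prmQ Λ μ Q) S x) S x (W + 1) S x q.1 q.2.1 q.2.2 ∧ wvol q.1 ≤ v)) →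
        ∑ q ∈ U, nwt X F q.1 * ((wk q.1 : ℝ) + 1) ≤ ε₁ := by
  obtain ⟨c, C, hc, hC, hT⟩ := exists_tl hX
  obtain ⟨a, A, ha, hA, hWt⟩ := exists_wt hX
  obtain ⟨c1, hc1, h1⟩ := par_W (ε := ε / 4) hμ hc hC (by linarith) Λ
  obtain ⟨c2, hc2, h2⟩ := par_L hμ hc hC ha hA hε₁ Λ
  refine ⟨max c1 c2, lt_max_of_lt_left hc1, ?_⟩
  intro Q hQ
  obtain ⟨W1, hW1, hw1⟩ := h1 Q
  obtain ⟨W2, L, hW2, hL, hw2⟩ := h2 Q
  have hB := prmQ_bh hμ hμ1 hΛ hQ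
  have hQ0 : (0 : ℝ) ≤ (Q : ℝ) + 1 := by positivity
  obtain ⟨v1, hv1⟩ := low hX hT hc hC hB hε (W := max W1 W2)
    (grw_mono hc hC (by positivity) (by positivity) (le_max_left W1 W2) hw1)
  obtain ⟨v2, hv2⟩ := tail_e hX hT hc hC hWt ha hB hε₁ (W := max W1 W2) (L := L) hL
    (grw_mono hc hC (by positivity) (by positivity) (le_max_right W1 W2) hw2)
  refine ⟨max W1 W2, max v1 v2, ?_, ?_⟩
  · rw [Nat.cast_max]
    refine max_le ?_ ?_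
    · exact hW1.trans (mul_le_mul_of_nonneg_right (le_max_left _ _) hQ0)
    · exact hW2.trans (mul_le_mul_of_nonneg_right (le_max_right _ _) hQ0)
  · intro n S x l p P F κ hS hp hF
    have hv1F : v1 ≤ F := by
      have := le_max_left v1 v2
      omega
    have hv2F : v2 + l.length ≤ F := by
      have := le_max_right v1 v2
      omega
    refine ⟨?_, ?_⟩
    · obtain ⟨U, hU, hU2⟩ := hv1 hS (by omega) hv1F
      refine ⟨U, fun q hq => ?_, hU2⟩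
      obtain ⟨h3, h4, h5⟩ := hU q hq
      exact ⟨h3, h4, h5.trans (le_max_left _ _)⟩
    · intro U hU
      exact hv2 (max v1 v2) (le_max_right _ _) hS hp hv2F U hU

end SYS.NS
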