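import Mathlib

/-!
# SYS-NS-ParD: choice of the constants for the pair (lower bound, growth), Mathlib only

PLAN.  Put `δ' = min (δ / 16) (1 / 16)`.  `Λ`: `96 ≤ Λ` and `(Λ + 1) ≤ (1 + δ') (Λ - 17)` (e.g. `Λ = 96 + ⌈18 (1 + 1 / δ')⌉₊`-type).  Let `u = κ₀ (Λ Q - 2)`, so `log g ≥ u` and `u → ∞` with `Q`, `u ≥ (κ₀ / 2) Λ Q` for `Q ≥ 1`.  `G := log g`.
For large `Q`: `log (8 (W + 1)) ≤ log (8 (c₁ (Q + 1) + 1)) ≤ δ' u ≤ δ' G` (`Real.isLittleO_log_id_atTop`, or `log t ≤ 2 sqrt t`), `log (5 / 4) ≤ δ' u ≤ δ' G`, `17 Q ≥ 16 (Q + 2)` (`32 ≤ Q`).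
Then `b = g / (8 (W + 1))`, `log b = G - log (8 (W + 1)) ≥ (1 - δ') G > 0`, so `1 < b`, and `2 ≤ b` (`log b ≥ 1`), i.e. `16 (W + 1) ≤ g`.  `(Λ + 1) Q / log b ≤ (Λ + 1) Q / ((1 - δ') (κ₀ (Λ Q - 2))) ≤ 4 / κ₀` for large `Q` (`Λ ≥ 96`, `δ' ≤ 1 / 16`).
Last inequality: `log (5 / 4 g) ≤ (1 + δ') G`, `Λ Q - 16 (Q + 2) ≥ (Λ - 17) Q > 0`: the product is at most `(1 + δ') G / ((Λ - 17) Q) * ((Λ + 1) Q / ((1 - δ') G)) = (1 + δ') / (1 - δ') * (Λ + 1) / (Λ - 17) ≤ (1 + δ') ^ 2 / (1 - δ') ≤ 1 + 8 δ' ≤ 1 + δ / 2`.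
-/

namespace SYS.NS

theorem par_D {κ₀ δ : ℝ} (hκ : 0 < κ₀) (hδ : 0 < δ) : ∃ Λ : ℕ, 96 ≤ Λ ∧ ∀ c₁ : ℝ, 0 < c₁ → ∃ Q₀ : ℕ, 2 ≤ Q₀ ∧
    ∀ (Q W : ℕ) (g : ℝ), Q₀ ≤ Q → (W : ℝ) ≤ c₁ * (Q + 1) → Real.exp (κ₀ * ((Λ * Q : ℕ) - 2)) ≤ g →
      16 * ((W : ℝ) + 1) ≤ g ∧ 1 < g / (8 * ((W : ℝ) + 1)) ∧
      ((Λ * Q + Q : ℕ) : ℝ) / Real.log (g / (8 * ((W : ℝ) + 1))) ≤ 4 / κ₀ ∧
      Real.log ((1 + 2 * (1 / 8)) * g) / ((Λ * Q : ℕ) - 16 * ((Q : ℝ) + 2)) *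
        (((Λ * Q + Q : ℕ) : ℝ) / Real.log (g / (8 * ((W : ℝ) + 1)))) ≤ 1 + δ / 2 := by
  obtain ⟨d, hd⟩ : ∃ d : ℝ, d = min (δ / 16) (1 / 16) := ⟨_, rfl⟩
  have hd0 : 0 < d := by rw [hd]; exact lt_min (by positivity) (by norm_num)
  have hd1 : d ≤ δ / 16 := by rw [hd]; exact min_le_left _ _
  have hd2 : d ≤ 1 / 16 := by rw [hd]; exact min_le_right _ _
  obtain ⟨L0, hL0⟩ := exists_nat_ge (17 + 18 / d)
  obtain ⟨Λ, hΛ⟩ : ∃ Λ : ℕ, Λ = max 96 L0 := ⟨_, rfl⟩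
  have hΛ96 : 96 ≤ Λ := by rw [hΛ]; exact le_max_left _ _
  have hΛ96' : (96 : ℝ) ≤ Λ := by exact_mod_cast hΛ96
  have hΛL : 17 + 18 / d ≤ (Λ : ℝ) := by
    refine hL0.trans ?_
    rw [hΛ]
    exact_mod_cast le_max_right 96 L0
  have hΛ1 : (Λ : ℝ) + 1 ≤ (1 + d) * (Λ - 17) := by
    have h1 : 18 / d ≤ (Λ : ℝ) - 17 := by linarith
    have h2 : 18 ≤ d * ((Λ : ℝ) - 17) := by
      rw [div_le_iff₀ hd0] at h1
      linarith
    linarith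
  refine ⟨Λ, hΛ96, fun c₁ hc => ?_⟩
  obtain ⟨A, hA⟩ : ∃ A : ℝ, A = κ₀ * Λ := ⟨_, rfl⟩
  have hA0 : 0 < A := by rw [hA]; positivity
  obtain ⟨η, hη⟩ : ∃ η : ℝ, η = d * A / 4 := ⟨_, rfl⟩
  have hη0 : 0 < η := by rw [hη]; positivity
  obtain ⟨ε, hε⟩ : ∃ ε : ℝ, ε = η / (16 * (c₁ + 1)) := ⟨_, rfl⟩
  have hε0 : 0 < ε := by rw [hε]; positivity
  obtain ⟨K, hK⟩ : ∃ K : ℝ, K = -1 - Real.log ε := ⟨_, rfl⟩
  obtain ⟨q1, hq1⟩ := exists_nat_ge (K / η)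
  obtain ⟨q2, hq2⟩ := exists_nat_ge (2 / (d * A))
  obtain ⟨q3, hq3⟩ := exists_nat_ge (4 / A)
  refine ⟨32 + q1 + q2 + q3, by omega, fun Q W g hQ hW hg => ?_⟩
  have hQ32 : (32 : ℝ) ≤ Q := by exact_mod_cast (by omega : 32 ≤ Q)
  have hQq1 : K / η ≤ (Q : ℝ) := hq1.trans (by exact_mod_cast (by omega : q1 ≤ Q))
  have hQq2 : 2 / (d * A) ≤ (Q : ℝ) := hq2.trans (by exact_mod_cast (by omega : q2 ≤ Q))
  have hQq3 : 4 / A ≤ (Q : ℝ) := hq3.trans (by exact_mod_cast (by omega : q3 ≤ Q))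
  rw [div_le_iff₀ hη0] at hQq1
  rw [div_le_iff₀ (by positivity)] at hQq2
  rw [div_le_iff₀ hA0] at hQq3
  push_cast at hg ⊢
  obtain ⟨u, hu⟩ : ∃ u : ℝ, u = κ₀ * (Λ * Q - 2) := ⟨_, rfl⟩
  rw [← hu] at hg
  have hΛQ : 96 * (Q : ℝ) ≤ Λ * Q := mul_le_mul_of_nonneg_right hΛ96' (by linarith)
  have hu1 : A * Q / 2 ≤ u := by
    rw [hu, hA]
    have : (Λ : ℝ) * Q / 2 ≤ Λ * Q - 2 := by linarith
    calc κ₀ * Λ * Q / 2 = κ₀ * (Λ * Q / 2) := by ring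
      _ ≤ _ := mul_le_mul_of_nonneg_left this hκ.le
  have hg0 : 0 < g := (Real.exp_pos u).trans_le hg
  obtain ⟨G, hG⟩ : ∃ G : ℝ, G = Real.log g := ⟨_, rfl⟩
  have huG : u ≤ G := by
    rw [hG, Real.le_log_iff_exp_le hg0]
    exact hg
  have hG2 : 2 ≤ G := by linarith
  have hW0 : (0 : ℝ) ≤ W := Nat.cast_nonneg W
  have hW8 : 0 < 8 * ((W : ℝ) + 1) := by positivity
  have hlogW : Real.log (8 * ((W : ℝ) + 1)) ≤ d * G := by
    have h1 : Real.log (8 * ((W : ℝ) + 1)) ≤ ε * (8 * ((W : ℝ) + 1)) + K := by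
      have h2 := Real.log_le_sub_one_of_pos (mul_pos hε0 hW8)
      rw [Real.log_mul hε0.ne' hW8.ne'] at h2
      rw [hK]
      linarith
    have h3 : 8 * ((W : ℝ) + 1) ≤ 16 * (c₁ + 1) * Q := by
      have h4 : (W : ℝ) + 1 ≤ (c₁ + 1) * (Q + 1) := by nlinarith
      have h5 : (c₁ + 1) * ((Q : ℝ) + 1) ≤ (c₁ + 1) * (2 * Q) :=
        mul_le_mul_of_nonneg_left (by linarith) (by linarith)
      linarith
    have h6 : ε * (8 * ((W : ℝ) + 1)) ≤ η * Q := by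
      calc ε * (8 * ((W : ℝ) + 1)) ≤ ε * (16 * (c₁ + 1) * Q) :=
            mul_le_mul_of_nonneg_left h3 hε0.le
        _ = η * Q := by
            rw [hε]
            field_simp
    have h7 : 2 * (η * Q) = d * (A * Q / 2) := by rw [hη]; ring
    have h8 : d * (A * Q / 2) ≤ d * G := mul_le_mul_of_nonneg_left (hu1.trans huG) hd0.le
    linarith
  have hlog5 : Real.log (5 / 4) ≤ d * G := by
    have h1 : Real.log (5 / 4) ≤ 5 / 4 - 1 := Real.log_le_sub_one_of_pos (by norm_num)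
    have h8 : d * (A * Q / 2) ≤ d * G := mul_le_mul_of_nonneg_left (hu1.trans huG) hd0.le
    have h9 : d * (A * Q / 2) = Q * (d * A) / 2 := by ring
    linarith
  obtain ⟨b, hb⟩ : ∃ b : ℝ, b = g / (8 * ((W : ℝ) + 1)) := ⟨_, rfl⟩
  have hb0 : 0 < b := by rw [hb]; positivity
  have hlogb : Real.log b = G - Real.log (8 * ((W : ℝ) + 1)) := by
    rw [hb, Real.log_div hg0.ne' hW8.ne', hG]
  have hlb : (1 - d) * G ≤ Real.log b := by rw [hlogb]; linarith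
  have hlb1 : 1 ≤ Real.log b := by
    have : (15 / 16 : ℝ) * 2 ≤ (1 - d) * G :=
      mul_le_mul (by linarith) hG2 (by norm_num) (by linarith)
    linarith
  have hb2 : 2 ≤ b := by
    have h1 : Real.exp 1 ≤ b := (Real.le_log_iff_exp_le hb0).1 hlb1
    have h2 := Real.add_one_le_exp (1 : ℝ)
    linarith
  rw [← hb]
  refine ⟨?_, by linarith, ?_, ?_⟩
  · have h1 : b * (8 * ((W : ℝ) + 1)) = g := by rw [hb]; field_simp
    have h2 : 2 * (8 * ((W : ℝ) + 1)) ≤ b * (8 * ((W : ℝ) + 1)) :=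
      mul_le_mul_of_nonneg_right hb2 hW8.le
    linarith
  · rw [div_le_div_iff₀ (by linarith) hκ]
    have h1 : (15 / 16 : ℝ) * u ≤ Real.log b := by
      have hu0 : 0 ≤ u := by
        have : 0 ≤ A * Q / 2 := by positivity
        linarith
      calc (15 / 16 : ℝ) * u ≤ (1 - d) * G :=
            mul_le_mul (by linarith) huG hu0 (by linarith)
        _ ≤ _ := hlb
    have h2 : ((Λ : ℝ) * Q + Q) * κ₀ ≤ 4 * (15 / 16 * u) := by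
      rw [hu]
      have h3 : (Λ : ℝ) * Q + Q ≤ 15 / 4 * (Λ * Q - 2) := by linarith
      calc ((Λ : ℝ) * Q + Q) * κ₀ ≤ (15 / 4 * (Λ * Q - 2)) * κ₀ :=
            mul_le_mul_of_nonneg_right h3 hκ.le
        _ = _ := by ring
    linarith
  · have hQ0 : (0 : ℝ) < Q := by linarith
    have h17 : (0 : ℝ) < (Λ - 17) := by linarith
    have hden : ((Λ : ℝ) - 17) * Q ≤ Λ * Q - 16 * ((Q : ℝ) + 2) := by linarith
    have hden0 : 0 < ((Λ : ℝ) - 17) * Q := mul_pos h17 hQ0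
    have hG0 : 0 < G := by linarith
    have hnum : Real.log ((1 + 2 * (1 / 8)) * g) ≤ (1 + d) * G := by
      rw [Real.log_mul (by norm_num) hg0.ne', ← hG]
      have : Real.log (1 + 2 * (1 / 8)) = Real.log (5 / 4) := by norm_num
      rw [this]
      linarith
    have hX : Real.log ((1 + 2 * (1 / 8)) * g) / (Λ * Q - 16 * ((Q : ℝ) + 2)) ≤
        (1 + d) * G / ((Λ - 17) * Q) :=
      div_le_div₀ (by positivity) hnum hden0 hden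
    have hY : ((Λ : ℝ) * Q + Q) / Real.log b ≤ ((Λ + 1) * Q) / ((1 - d) * G) := by
      apply div_le_div₀ (by positivity) (by linarith) _ hlb
      exact mul_pos (by linarith) hG0
    have hX0 : 0 ≤ (1 + d) * G / ((Λ - 17) * Q) := by positivity
    have hY0 : 0 ≤ ((Λ : ℝ) * Q + Q) / Real.log b := by positivity
    have h1d : 0 < 1 - d := by linarith
    calc Real.log ((1 + 2 * (1 / 8)) * g) / (Λ * Q - 16 * ((Q : ℝ) + 2)) *
        (((Λ : ℝ) * Q + Q) / Real.log b) ≤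
        ((1 + d) * G / ((Λ - 17) * Q)) * (((Λ + 1) * Q) / ((1 - d) * G)) :=
          mul_le_mul hX hY hY0 hX0
      _ = (1 + d) * (Λ + 1) / ((Λ - 17) * (1 - d)) := by
          field_simp
      _ ≤ 1 + δ / 2 := by
          rw [div_le_iff₀ (mul_pos h17 h1d)]
          have e1 : (1 + d) * ((Λ : ℝ) + 1) ≤ (1 + d) * ((1 + d) * (Λ - 17)) :=
            mul_le_mul_of_nonneg_left hΛ1 (by linarith)
          have e2 : (1 + d) * (1 + d) ≤ (1 + δ / 2) * (1 - d) := by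
            have e3 : (1 + 8 * d) * (1 - d) ≤ (1 + δ / 2) * (1 - d) :=
              mul_le_mul_of_nonneg_right (by linarith) h1d.le
            nlinarith
          calc (1 + d) * ((Λ : ℝ) + 1) ≤ (1 + d) * ((1 + d) * (Λ - 17)) := e1
            _ = ((1 + d) * (1 + d)) * (Λ - 17) := by ring
            _ ≤ ((1 + δ / 2) * (1 - d)) * (Λ - 17) :=
                mul_le_mul_of_nonneg_right e2 h17.le
            _ = _ := by ring

end SYS.NS
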