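import Pool.Agent.SYS.NS.Cst
import Pool.Agent.SYS.NS.Grw
import Pool.Agent.SYS.NS.ParD

/-!
# SYS-NS-Pair: from the one-step inequality and GRW to `CF.Pair`
-/

namespace SYS.NS

open Classical SST SYS.Num SYS.Part Filter

/-- Input of GRW for the block `prmQ Λ μ Q`: window `W + 1`, volume `v`. -/
def LT (X : ℝ) (Λ : ℕ) (μ : ℝ) (Q W v : ℕ) (ε ε₁ : ℝ) : Prop :=
  ∀ {n : ℕ} {S : Part (Fin (6 * n))} {x : Fin (6 * n)} {l : List (Fin (6 * n))} {p : ℕ} {P : List ℕ} {F κ : ℕ},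
    S.Typ (x :: l) (p :: P) F κ → 4 * (W + 1) ≤ p → v + l.length ≤ F →
    (∃ U : Finset (List Stp × Part (Fin (6 * n)) × Fin (6 * n)),
      (∀ q ∈ U, LBR (BK.nxt (prmQ Λ μ Q) S x) S x (W + 1) S x q.1 q.2.1 q.2.2 ∧ BK.nxt (prmQ Λ μ Q) S x q.2.1 = none ∧
        wvol q.1 ≤ v) ∧
      gQ X Λ μ Q - ε ≤ ∑ q ∈ U, nwt X F q.1 * (exn S q.2.1 : ℝ)) ∧
    ∀ U : Finset (List Stp × Part (Fin (6 * n)) × Fin (6 * n)), (∀ q ∈ U, BEnd (BK.nxt (prmQ Λ μ Q) S x) S x q ∧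
      ¬ (LBR (BK.nxt (prmQ Λ μ Q) S x) S x (W + 1) S x q.1 q.2.1 q.2.2 ∧ wvol q.1 ≤ v)) →
      ∑ q ∈ U, nwt X F q.1 * ((wk q.1 : ℝ) + 1) ≤ ε₁

/-- What GRW delivers. -/
def GrwB (θ x ε ε₁ : ℝ) : Prop := ∀ (μ : ℝ) (Λ Q W v : ℕ) (β : ℝ), 0 < μ → μ ≤ 1 → 96 ≤ Λ → 2 ≤ Q → LT x Λ μ Q W v ε ε₁ →
  64 * ((W : ℝ) + 1) ≤ gQ x Λ μ Q → ((Λ * Q + Q : ℕ) : ℝ) / Real.log (gQ x Λ μ Q / (32 * ((W : ℝ) + 1))) < β →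
  ∃ C : ℝ, ∀ e : ℝ, 0 < e → e < 1 / 2 → US.Grw θ β C e

theorem pair_of {θ x ε ε₁ : ℝ} (h : Num.Par θ x) (hε : 0 < ε) (hε₁ : 0 < ε₁) (hG : GrwB θ x ε ε₁) : CF.Pair θ x := by
  have hX : 0 < x := h.2.2.1
  obtain ⟨κ₀, hκ₀⟩ : ∃ κ₀, κ₀ = Real.log (lam x) := ⟨_, rfl⟩
  have hκ : 0 < κ₀ := by rw [hκ₀]; exact Real.log_pos (lam_one hX)
  refine ⟨5 / κ₀, by positivity, fun μ δ hμ hμ1 hδ => ?_⟩
  obtain ⟨Λ, hΛ, hD⟩ := par_D hκ hδ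
  obtain ⟨c₁, hc₁, hW⟩ := ns_grw (X := x) hX hμ hμ1 hε hε₁ hΛ
  obtain ⟨Q₀, hQ₀2, hQ₀⟩ := hD (4 * c₁ + 3) (by positivity)
  obtain ⟨Q₁, hQ₁⟩ := cst_ex h hμ hμ1 (ε := 1 / 8) (by norm_num) hΛ
  obtain ⟨Q, hQ⟩ : ∃ Q, Q = max Q₀ Q₁ := ⟨_, rfl⟩
  have hQa : Q₀ ≤ Q := by rw [hQ]; exact le_max_left _ _
  have hQb : Q₁ ≤ Q := by rw [hQ]; exact le_max_right _ _
  have hQ2 : 2 ≤ Q := hQ₀2.trans hQa
  obtain ⟨-, V1, dl, B, M, Qf, A, V, hC⟩ := hQ₁ Q hQb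
  obtain ⟨W, v, hWc, hLT⟩ := hW Q hQ2
  obtain ⟨h1, h2, h3, h4⟩ := hQ₀ Q (4 * W + 3) (gQ x Λ μ Q) hQa (by
    push_cast
    have hQr : (0 : ℝ) ≤ (Q : ℝ) := Nat.cast_nonneg _
    nlinarith) (by
    rw [hκ₀]
    exact gQ_exp hX hμ hμ1 hΛ hQ2)
  have hW8 : 8 * (((4 * W + 3 : ℕ) : ℝ) + 1) = 32 * ((W : ℝ) + 1) := by
    push_cast
    ring
  have hW16 : 16 * (((4 * W + 3 : ℕ) : ℝ) + 1) = 64 * ((W : ℝ) + 1) := by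
    push_cast
    ring
  rw [hW8] at h2 h3 h4
  rw [hW16] at h1
  obtain ⟨κ, hκd⟩ : ∃ κ, κ = kap x (1 / 8) Λ μ Q := ⟨_, rfl⟩
  have hκ0 : 0 ≤ κ := by
    rw [hκd]
    exact kap_nonneg hX hμ hμ1 (by norm_num) hΛ hQ2
  obtain ⟨β₀, hβ₀⟩ : ∃ β₀, β₀ = ((Λ * Q + Q : ℕ) : ℝ) / Real.log (gQ x Λ μ Q / (32 * ((W : ℝ) + 1))) := ⟨_, rfl⟩
  obtain ⟨t, ht⟩ : ∃ t, t = min (1 / κ₀) (δ / 2 / (κ + 1)) := ⟨_, rfl⟩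
  have ht0 : 0 < t := by
    rw [ht]
    exact lt_min (by positivity) (by positivity)
  have hβ0 : 0 ≤ β₀ := by
    rw [hβ₀]
    exact div_nonneg (Nat.cast_nonneg _) (Real.log_nonneg h2.le)
  obtain ⟨C, hCG⟩ := hG μ Λ Q W v (β₀ + t) hμ hμ1 hΛ hQ2 (fun hS hp hv => hLT hS hp hv) h1 (by rw [hβ₀] at *; linarith)
  refine ⟨κ, V1, dl, β₀ + t, C, B, M, Qf, A, V, by rw [hκd]; exact hC, by linarith, ?_, ?_, hCG⟩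
  · have h5 : t ≤ 1 / κ₀ := by rw [ht]; exact min_le_left _ _
    rw [← hβ₀] at h3
    have h6 : 4 / κ₀ + 1 / κ₀ = 5 / κ₀ := by rw [← add_div]; norm_num
    linarith
  · have h5 : t ≤ δ / 2 / (κ + 1) := by rw [ht]; exact min_le_right _ _
    have h6 : κ * t ≤ δ / 2 := by
      have h7 : κ * t ≤ (κ + 1) * (δ / 2 / (κ + 1)) := by
        calc κ * t ≤ κ * (δ / 2 / (κ + 1)) := mul_le_mul_of_nonneg_left h5 hκ0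
          _ ≤ (κ + 1) * (δ / 2 / (κ + 1)) := mul_le_mul_of_nonneg_right (by linarith) (by positivity)
      have h8 : (κ + 1) * (δ / 2 / (κ + 1)) = δ / 2 := by
        have : κ + 1 ≠ 0 := by positivity
        field_simp
      linarith
    have h9 : κ * β₀ ≤ 1 + δ / 2 := by
      rw [hκd, hβ₀]
      exact h4
    rw [mul_add]
    linarith

end SYS.NS
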