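import Pool.Agent.SYS.NS.Ends

/-!
# SYS-NS-EL: mean number of exits at a large hole
-/

namespace SYS.NS

open Classical SST SYS.Num SYS.Part

variable {nx : ∀ {D : Type} [Finite D], Part D → D → Part D → Option D} {R₀ N : ℕ} {X c C : ℝ}

private theorem el_exn {n : ℕ} {S : Part (Fin (6 * n))} {x : Fin (6 * n)} (hB : BH nx R₀ N) (hx : x ∈ S.B)
    {q : List Stp × Part (Fin (6 * n)) × Fin (6 * n)} (hq : BEnd (nx S x) S x q) : (exn S q.2.1 : ℝ) ≤ 2 * N := by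
  have h6 := exn_len hx hq.1
  have h7 := hB.bok.len S x q hx hq
  have h8 : exn S q.2.1 ≤ 2 * N := by omega
  exact_mod_cast h8

theorem abs_mass (hX : 0 < X) (hT : Tl X c C) (hc : 0 < c) (hC : 0 < C) (hB : BH nx R₀ N) {δ : ℝ} (hδ : 0 < δ) :
    ∃ v₀ : ℕ, ∀ {n : ℕ} {S : Part (Fin (6 * n))} {x : Fin (6 * n)} {l : List (Fin (6 * n))} {p : ℕ} {P : List ℕ} {F κ W : ℕ},
    S.Typ (x :: l) (p :: P) F κ → 4 * (W + 1) ≤ p → v₀ + l.length ≤ F →
    ∀ Q : Finset (List Stp × Part (Fin (6 * n)) × Fin (6 * n)), (∀ q ∈ Q, BEnd (nx S x) S x q ∧ S.Abs x W q.2.1) →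
    ∑ q ∈ Q, nwt X F q.1 ≤ (2 ^ (R₀ + 2) + 2 * N) * (C * Real.exp (-(c * W))) + δ := by
  obtain ⟨a, A, ha, hA, hW⟩ := exists_wt hX
  obtain ⟨v₀, hv₀⟩ := exists_nat_ge ((A * (N + 1) - Real.log δ) / a)
  refine ⟨v₀, ?_⟩
  intro n S x l p P F κ W hS hp hF Q hQ
  have hx : x ∈ S.B := hS.hl.1 _ List.mem_cons_self
  rw [← Finset.sum_filter_add_sum_filter_not Q fun q => wvol q.1 + l.length + 1 ≤ F]
  refine add_le_add ?_ ?_
  · refine (abs_le hX hS (hB.mon S x hx) (hB.path S x hx) (by omega) _ (N := N) (fun q hq => ?_)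
      (t := C * Real.exp (-(c * W))) (t' := C * Real.exp (-(c * W))) (fun G hG => hT W G hG)
      (fun G hG => hT W G fun t ht => ?_)).trans (le_of_eq (by ring))
    · obtain ⟨h1, h2⟩ := Finset.mem_filter.1 hq
      exact ⟨(hQ q h1).1, (hQ q h1).2, hB.bok.len S x q hx (hQ q h1).1, h2⟩
    · have := hG t ht
      omega
  · have h1 := end_tail hX hW (N := N) (v := v₀) hS
      (Q.filter fun q => ¬ wvol q.1 + l.length + 1 ≤ F) (b := nx S x) (fun q hq => by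
        obtain ⟨h1, h2⟩ := Finset.mem_filter.1 hq
        exact ⟨(hQ q h1).1, hB.bok.len S x q hx (hQ q h1).1, by omega⟩)
    refine (Finset.sum_le_sum fun q _ => ?_).trans (h1.trans ?_)
    · exact le_mul_of_one_le_right (nwt_nonneg hX _ _) (by
        have := Nat.cast_nonneg (α := ℝ) (wk q.1)
        linarith)
    · rw [← Real.le_log_iff_exp_le hδ]
      rw [div_le_iff₀ ha] at hv₀
      linarith

theorem e_large (hX : 0 < X) (hT : Tl X c C) (hc : 0 < c) (hC : 0 < C) (hB : BH nx R₀ N) {δ : ℝ} (hδ : 0 < δ) :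
    ∃ v₀ : ℕ, ∀ {n : ℕ} {S : Part (Fin (6 * n))} {x : Fin (6 * n)} {l : List (Fin (6 * n))} {p : ℕ} {P : List ℕ} {F κ W : ℕ},
    S.Typ (x :: l) (p :: P) F κ → 4 * (W + 1) ≤ p → v₀ + l.length ≤ F →
    ∀ Q : Finset (List Stp × Part (Fin (6 * n)) × Fin (6 * n)), (∀ q ∈ Q, BEnd (nx S x) S x q) →
    ∑ q ∈ Q, nwt X F q.1 * (exn S q.2.1 : ℝ) ≤
      gB nx X + 2 * N * ((2 ^ (R₀ + 2) + 2 * N) * (C * Real.exp (-(c * W))) + δ) := by
  obtain ⟨v₀, hv₀⟩ := abs_mass (C := C) (c := c) hX hT hc hC hB hδ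
  refine ⟨v₀, ?_⟩
  intro n S x l p P F κ W hS hp hF Q hQ
  have hx : x ∈ S.B := hS.hl.1 _ List.mem_cons_self
  rw [← Finset.sum_filter_add_sum_filter_not Q fun q => ¬ S.Abs x W q.2.1]
  refine add_le_add ?_ ?_
  · exact gB_up hX hB.bok hS (by omega) _ fun q hq =>
      ⟨hQ q (Finset.mem_filter.1 hq).1, (Finset.mem_filter.1 hq).2⟩
  · have h1 := hv₀ hS hp hF (Q.filter fun q => ¬ ¬ S.Abs x W q.2.1) (fun q hq =>
      ⟨hQ q (Finset.mem_filter.1 hq).1, not_not.1 (Finset.mem_filter.1 hq).2⟩)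
    refine le_trans ?_ (mul_le_mul_of_nonneg_left h1 (by positivity))
    rw [Finset.mul_sum]
    refine Finset.sum_le_sum fun q hq => ?_
    rw [mul_comm]
    exact mul_le_mul_of_nonneg_right (el_exn hB hx (hQ q (Finset.mem_filter.1 hq).1)) (nwt_nonneg hX _ _)

theorem e_small (hX : 0 < X) (hB : BH nx R₀ N) {n : ℕ} {S : Part (Fin (6 * n))} {x : Fin (6 * n)} {l : List (Fin (6 * n))}
    {p : ℕ} {P : List ℕ} {F κ : ℕ} (hS : S.Typ (x :: l) (p :: P) F κ)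
    (Q : Finset (List Stp × Part (Fin (6 * n)) × Fin (6 * n))) (hQ : ∀ q ∈ Q, BEnd (nx S x) S x q) :
    ∑ q ∈ Q, nwt X F q.1 * (exn S q.2.1 : ℝ) ≤ 2 * N := by
  have hx : x ∈ S.B := hS.hl.1 _ List.mem_cons_self
  calc ∑ q ∈ Q, nwt X F q.1 * (exn S q.2.1 : ℝ) ≤ ∑ q ∈ Q, nwt X F q.1 * (2 * N : ℝ) :=
        Finset.sum_le_sum fun q hq => mul_le_mul_of_nonneg_left (el_exn hB hx (hQ q hq)) (nwt_nonneg hX _ _)
    _ = (∑ q ∈ Q, nwt X F q.1) * (2 * N : ℝ) := by rw [Finset.sum_mul]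
    _ ≤ 1 * (2 * N : ℝ) := mul_le_mul_of_nonneg_right (end_mass hX hS Q hQ) (by positivity)
    _ = 2 * N := one_mul _

end SYS.NS
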