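import Pool.Agent.SYS.NS.ParA

/-! # SYS-NS-ParB: choice of the constants -/

namespace SYS.NS

open Classical SST SYS.Num SYS.Part

private theorem par_lin (a b : ℝ) {s : ℝ} (hs : 0 < s) :
    ∃ Q₀ : ℕ, ∀ Q : ℕ, Q₀ ≤ Q → a * Q + b ≤ Real.exp (s * Q) := by
  refine ⟨⌈2 * (|a| + |b|) / s ^ 2⌉₊ + 1, fun Q hQ => ?_⟩
  have h1 : (1 : ℝ) ≤ Q := by exact_mod_cast (by omega : 1 ≤ Q)
  have h2 : 2 * (|a| + |b|) / s ^ 2 ≤ Q :=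
    (Nat.le_ceil _).trans (by exact_mod_cast (by omega : ⌈2 * (|a| + |b|) / s ^ 2⌉₊ ≤ Q))
  have h3 : |a| + |b| ≤ s ^ 2 / 2 * Q := by
    rw [div_le_iff₀ (by positivity)] at h2
    linarith
  have h4 := Real.quadratic_le_exp_of_nonneg (x := s * Q) (by positivity)
  have h5 : a * Q + b ≤ (|a| + |b|) * Q := by
    have ha := mul_le_mul_of_nonneg_right (le_abs_self a) (le_trans zero_le_one h1)
    have hb := mul_le_mul_of_nonneg_left h1 (abs_nonneg b)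
    have hb' := le_abs_self b
    linarith
  have h6 : (|a| + |b|) * Q ≤ s ^ 2 / 2 * Q * Q := by gcongr
  have h7 : 0 < s * Q := by positivity
  have h8 : s ^ 2 / 2 * Q * Q = (s * Q) ^ 2 / 2 := by ring
  linarith

theorem par {c C L μ ε : ℝ} (hc : 0 < c) (hC : 0 < C) (hL : 0 < L) (hμ : 0 < μ) (hε : 0 < ε) {Λ : ℕ} (hΛ : 96 ≤ Λ)
    (Q₁ : ℕ) : ∃ Q₀ : ℕ, ∀ Q : ℕ, Q₀ ≤ Q → Q₁ ≤ Q ∧ ∃ (Q₂ W : ℕ) (δ : ℝ), Q₁ ≤ Q₂ ∧ 0 < δ ∧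
      ∀ g : ℝ, Real.exp (L * ((Λ * Q : ℕ) - 2)) ≤ g →
      g + 2 * KK Λ μ Q * ((2 ^ (R0 Λ μ Q + 2) + 2 * KK Λ μ Q) * (C * Real.exp (-(c * W))) + δ) +
          (4 * (W + 1) : ℕ) * (2 * KK Λ μ Q₂) ≤ (1 + 2 * ε) * g ∧
      2 * KK Λ μ Q₂ + (4 * (W + 1) : ℕ) * (2 * KK Λ μ Q₂) ≤
        2 * KK Λ μ Q₂ * Real.exp (Real.log ((1 + 2 * ε) * g) / ((Λ * Q : ℕ) - 16 * ((Q : ℝ) + 2)) *
          ((Λ * Q₂ : ℕ) - 16 * ((Q₂ : ℝ) + 2))) := by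
  obtain ⟨c₂, hc₂, hK⟩ := par_K hμ Λ
  obtain ⟨c₁, hc₁, hW⟩ := par_W hμ hc hC (half_pos hε) Λ
  have hΛ' : (96 : ℝ) ≤ Λ := by exact_mod_cast hΛ
  obtain ⟨η, hη, hη1, hη2⟩ : ∃ η : ℝ, 0 < η ∧ η ≤ 1 ∧ c₂ * η ≤ L * Λ / 4 := by
    refine ⟨min 1 (L * Λ / (4 * c₂)), lt_min one_pos (by positivity), min_le_left _ _, ?_⟩
    calc c₂ * min 1 (L * Λ / (4 * c₂)) ≤ c₂ * (L * Λ / (4 * c₂)) :=
          mul_le_mul_of_nonneg_left (min_le_right _ _) hc₂.le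
      _ = L * Λ / 4 := by field_simp
  obtain ⟨q1, hq1⟩ := par_lin (8 * c₁ * Real.exp (c₂ + 2 * L) / ε) (8 * (c₁ + 1) * Real.exp (c₂ + 2 * L) / ε)
    (s := 3 * L * Λ / 4) (by positivity)
  obtain ⟨q2, hq2⟩ := par_lin (4 * c₁ * Real.exp (L * Λ / 4)) ((5 + 4 * c₁) * Real.exp (L * Λ / 4))
    (s := L * Λ / 4 * η) (by positivity)
  refine ⟨q1 + q2 + Q₁ + 1 + ⌈((Q₁ : ℝ) + 1) / η⌉₊, fun Q hQ => ⟨by omega, ?_⟩⟩
  have h1 := hq1 Q (by omega)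
  have h2 := hq2 Q (by omega)
  obtain ⟨W, hW1, hW2⟩ := hW Q
  have hQ1 : (1 : ℝ) ≤ Q := by exact_mod_cast (by omega : 1 ≤ Q)
  have hΛQ : 96 * (Q : ℝ) ≤ Λ * Q := by gcongr
  have hηQ : (Q₁ : ℝ) + 1 ≤ η * Q := by
    have h3 : ((Q₁ : ℝ) + 1) / η ≤ Q :=
      (Nat.le_ceil _).trans (by exact_mod_cast (by omega : ⌈((Q₁ : ℝ) + 1) / η⌉₊ ≤ Q))
    rw [div_le_iff₀ hη] at h3
    linarith
  obtain ⟨Q₂, hQ₂⟩ : ∃ Q₂, Q₂ = ⌊η * (Q : ℝ)⌋₊ := ⟨_, rfl⟩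
  have hQ₂le : (Q₂ : ℝ) ≤ η * Q := by
    rw [hQ₂]
    exact Nat.floor_le (by positivity)
  have hQ₂ge : η * Q - 1 ≤ Q₂ := by
    rw [hQ₂]
    linarith [Nat.lt_floor_add_one (η * (Q : ℝ))]
  have hQ₂1 : Q₁ + 1 ≤ Q₂ := by
    rw [hQ₂]
    refine Nat.le_floor ?_
    push_cast
    exact hηQ
  have hQ₂r : (1 : ℝ) ≤ Q₂ := by exact_mod_cast (by omega : 1 ≤ Q₂)
  have hK0 : ∀ q : ℕ, (0 : ℝ) < KK Λ μ q := by
    intro q
    unfold KK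
    positivity
  have hKQ := hK0 Q
  refine ⟨Q₂, W, ε / (4 * KK Λ μ Q), by omega, by positivity, fun g hg => ?_⟩
  push_cast at hg ⊢
  have hW4 : 4 * ((W : ℝ) + 1) ≤ 4 * (c₁ * (Q + 1) + 1) := by linarith
  have hg1 : 1 ≤ g := by
    refine (Real.one_le_exp ?_).trans hg
    have h3 : 0 ≤ (Λ : ℝ) * Q - 2 := by linarith
    positivity
  constructor
  · have e1 : 2 * (KK Λ μ Q : ℝ) * ((2 ^ (R0 Λ μ Q + 2) + 2 * KK Λ μ Q) * (C * Real.exp (-(c * W))) +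
        ε / (4 * KK Λ μ Q)) =
        2 * KK Λ μ Q * ((2 ^ (R0 Λ μ Q + 2) + 2 * KK Λ μ Q) * (C * Real.exp (-(c * W)))) + ε / 2 := by
      field_simp
      ring
    have e2 : 4 * ((W : ℝ) + 1) * (2 * KK Λ μ Q₂) ≤ ε * g := by
      have hx : c₂ * ((Q₂ : ℝ) + 1) ≤ L * Λ / 4 * Q + c₂ := by
        have h3 : c₂ * (Q₂ : ℝ) ≤ c₂ * (η * Q) := by gcongr
        have h4 : c₂ * η * Q ≤ L * Λ / 4 * Q := by gcongr
        linarith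
      have hy : Real.exp (L * Λ / 4 * Q + c₂) =
          Real.exp (c₂ + 2 * L) * Real.exp (L * Λ / 4 * Q - 2 * L) := by
        rw [← Real.exp_add]
        congr 1
        ring
      calc 4 * ((W : ℝ) + 1) * (2 * KK Λ μ Q₂) ≤ 4 * (c₁ * (Q + 1) + 1) * (2 * Real.exp (L * Λ / 4 * Q + c₂)) := by
            refine mul_le_mul hW4 ?_ (by positivity) (by positivity)
            have h3 := (hK Q₂).trans (Real.exp_le_exp.2 hx)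
            linarith
        _ = ε * (8 * c₁ * Real.exp (c₂ + 2 * L) / ε * Q + 8 * (c₁ + 1) * Real.exp (c₂ + 2 * L) / ε) *
              Real.exp (L * Λ / 4 * Q - 2 * L) := by
            rw [hy]
            field_simp
            ring
        _ ≤ ε * Real.exp (3 * L * Λ / 4 * Q) * Real.exp (L * Λ / 4 * Q - 2 * L) := by gcongr
        _ = ε * Real.exp (L * (Λ * Q - 2)) := by
            rw [mul_assoc, ← Real.exp_add]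
            congr 2
            ring
        _ ≤ ε * g := by gcongr
    rw [e1]
    have e3 : ε ≤ ε * g := by
      have := mul_le_mul_of_nonneg_left hg1 hε.le
      linarith
    linarith
  · have hG : L * ((Λ : ℝ) * Q - 2) ≤ Real.log ((1 + 2 * ε) * g) := by
      rw [Real.le_log_iff_exp_le (by positivity)]
      refine hg.trans ?_
      have := mul_pos hε (lt_of_lt_of_le one_pos hg1)
      linarith
    have hd : 0 < (Λ : ℝ) * Q - 16 * ((Q : ℝ) + 2) := by linarith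
    have hκ : L / 2 ≤ Real.log ((1 + 2 * ε) * g) / ((Λ : ℝ) * Q - 16 * ((Q : ℝ) + 2)) := by
      rw [le_div_iff₀ hd]
      refine le_trans ?_ hG
      have h3 : ((Λ : ℝ) * Q - 16 * ((Q : ℝ) + 2)) / 2 ≤ (Λ : ℝ) * Q - 2 := by linarith
      have h4 := mul_le_mul_of_nonneg_left h3 hL.le
      linarith
    have hΛQ₂ : 96 * (Q₂ : ℝ) ≤ Λ * Q₂ := by gcongr
    have he : (Λ : ℝ) * Q₂ / 2 ≤ (Λ : ℝ) * Q₂ - 16 * ((Q₂ : ℝ) + 2) := by linarith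
    have hx : L * Λ / 4 * η * Q - L * Λ / 4 ≤ Real.log ((1 + 2 * ε) * g) / ((Λ : ℝ) * Q - 16 * ((Q : ℝ) + 2)) *
        ((Λ : ℝ) * Q₂ - 16 * ((Q₂ : ℝ) + 2)) := by
      calc L * Λ / 4 * η * Q - L * Λ / 4 = L * Λ / 4 * (η * Q - 1) := by ring
        _ ≤ L * Λ / 4 * Q₂ := by gcongr
        _ = L / 2 * ((Λ : ℝ) * Q₂ / 2) := by ring
        _ ≤ _ := mul_le_mul hκ he (by positivity) (le_trans (by positivity) hκ)
    have hy : 1 + 4 * ((W : ℝ) + 1) ≤ Real.exp (Real.log ((1 + 2 * ε) * g) / ((Λ : ℝ) * Q - 16 * ((Q : ℝ) + 2)) *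
        ((Λ : ℝ) * Q₂ - 16 * ((Q₂ : ℝ) + 2))) := by
      refine le_trans ?_ (Real.exp_le_exp.2 hx)
      rw [Real.exp_sub, le_div_iff₀ (Real.exp_pos _)]
      refine le_trans ?_ h2
      have h3 : 1 + 4 * ((W : ℝ) + 1) ≤ 4 * c₁ * Q + (5 + 4 * c₁) := by linarith
      have h4 := mul_le_mul_of_nonneg_right h3 (Real.exp_pos (L * Λ / 4)).le
      linarith
    have h5 := mul_le_mul_of_nonneg_left hy (by have := hK0 Q₂; positivity : (0 : ℝ) ≤ 2 * KK Λ μ Q₂)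
    linarith

end SYS.NS
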