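import Pool.Agent.SYS.NS.PrmQ
import Pool.Agent.SYS.NS.ParB
import Pool.Agent.SYS.NS.EL
import Pool.Agent.SYS.CE.Bri

/-!
# SYS-NS-Main: the one-step inequality of the chains of blocks (field `ex` of `CH.Inp`)
-/

namespace SYS.NS

open Classical SST SYS.Num SYS.Part

/-- The value of a hole. -/
noncomputable def Vf (p₀ : ℕ) (V₁ : ℝ) (k : ℕ) : ℝ := if p₀ ≤ k then 1 else V₁

/-- The progress. -/
noncomputable def prQ (Λ : ℕ) (μ : ℝ) (p₀ Q Q₂ : ℕ) : ℕ → ℝ :=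
  CE.prg (fun p => (CE.prm p₀ (prmQ Λ μ Q) (prmQ Λ μ Q₂) p).M) (fun p => (CE.prm p₀ (prmQ Λ μ Q) (prmQ Λ μ Q₂) p).q + 1)

/-- The price of a unit of progress. -/
noncomputable def kap (X ε : ℝ) (Λ : ℕ) (μ : ℝ) (Q : ℕ) : ℝ :=
  Real.log ((1 + 2 * ε) * gQ X Λ μ Q) / ((Λ * Q : ℕ) - 16 * ((Q : ℝ) + 2))

private theorem prg_val (M q : ℕ → ℕ) (p Λ Q : ℕ) (hM : M p = Λ * Q) (hq : q p = Q) :
    CE.prg M q p = ((Λ * Q : ℕ) : ℝ) - 16 * ((Q : ℝ) + 2) := by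
  unfold CE.prg
  rw [hM, hq]

theorem ns_ex {X μ ε : ℝ} (hX : 0 < X) (hμ : 0 < μ) (hμ1 : μ ≤ 1) (hε : 0 < ε) {Λ : ℕ} (hΛ : 96 ≤ Λ) (Q₁ : ℕ) :
    ∃ Q₀ : ℕ, ∀ Q : ℕ, Q₀ ≤ Q → Q₁ ≤ Q ∧ 2 ≤ Q ∧ ∃ (Q₂ p₀ v₀ : ℕ) (V₁ : ℝ), Q₁ ≤ Q₂ ∧ 2 ≤ Q₂ ∧ 1 ≤ V₁ ∧
      ∀ (n Vm Pm : ℕ), v₀ + Vm + Pm ≤ 2 * n →
      ∀ (S : Part (Fin (6 * n))) (f : Fin (6 * n)) (l : List (Fin (6 * n))) (p : ℕ) (P : List ℕ) (F c : ℕ),
      S.Typ (f :: l) (p :: P) F c → 2 * n ≤ F + Vm → p + P.sum ≤ Pm →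
      ∀ U : Finset (List Stp × Part (Fin (6 * n)) × Fin (6 * n)),
      (∀ q ∈ U, CH.Cpl (CE.bk2 p₀ (prmQ Λ μ Q) (prmQ Λ μ Q₂)) S f q) →
      ∑ q ∈ U, nwt X F q.1 * ∑ e : Fin (6 * n), (if e ∈ q.2.1.B ∧ e ∉ S.B then Vf p₀ V₁ (q.2.1.per e) else 0) ≤
        Real.exp (kap X ε Λ μ Q * prQ Λ μ p₀ Q Q₂ p) * Vf p₀ V₁ p := by
  obtain ⟨c, C, hc, hC, hT⟩ := exists_tl hX
  have hL : 0 < Real.log (lam X) := Real.log_pos (lam_one hX)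
  obtain ⟨Q₀, hQ₀⟩ := par hc hC hL hμ hε hΛ (max 2 Q₁)
  refine ⟨Q₀, fun Q hQ => ?_⟩
  obtain ⟨hQ1, Q₂, W, δ, hQ₂, hδ, hg⟩ := hQ₀ Q hQ
  have h2Q : 2 ≤ Q := (le_max_left _ _).trans hQ1
  have h2Q₂ : 2 ≤ Q₂ := (le_max_left _ _).trans hQ₂
  obtain ⟨v₀, hv₀⟩ := e_large hX hT hc hC (prmQ_bh hμ hμ1 hΛ h2Q) hδ
  have hKK : (1 : ℝ) ≤ (KK Λ μ Q₂ : ℝ) := by
    have h1 : 1 ≤ KK Λ μ Q₂ := by
      unfold KK
      have := Nat.one_le_two_pow (n := R0 Λ μ Q₂)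
      omega
    exact_mod_cast h1
  have hgQ := gQ_exp hX hμ hμ1 hΛ h2Q
  obtain ⟨hg1, hg2⟩ := hg (gQ X Λ μ Q) hgQ
  have hgpos : 0 < gQ X Λ μ Q := (Real.exp_pos _).trans_le hgQ
  have hV₁ : (1 : ℝ) ≤ 2 * KK Λ μ Q₂ := by linarith
  refine ⟨(le_max_right _ _).trans hQ1, h2Q, Q₂, 4 * (W + 1), v₀, 2 * KK Λ μ Q₂,
    (le_max_right _ _).trans hQ₂, h2Q₂, hV₁, ?_⟩
  intro n Vm Pm hn S f l p P F c' hS hF hP U hU
  have hper := hS.per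
  rw [List.map_cons, List.cons.injEq] at hper
  obtain ⟨hper1, hper2⟩ := hper
  have hlen : l.length ≤ P.sum := by
    rw [← hper2]
    have h1 : (l.map S.per).length ≤ (l.map S.per).sum := by
      apply List.length_le_sum_of_one_le
      intro i hi
      obtain ⟨e, he, rfl⟩ := List.mem_map.1 hi
      exact S.per_pos (hS.hl.1 e (List.mem_cons_of_mem _ he))
    rwa [List.length_map] at h1
  have hvF : v₀ + l.length ≤ F := by omega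
  have hVf0 : ∀ k, 0 ≤ Vf (4 * (W + 1)) (2 * KK Λ μ Q₂) k := by
    intro k
    unfold Vf
    split_ifs
    · exact zero_le_one
    · linarith
  have hVf1 : ∀ k, Vf (4 * (W + 1)) (2 * KK Λ μ Q₂) k ≤ 2 * KK Λ μ Q₂ := by
    intro k
    unfold Vf
    split_ifs
    · exact hV₁
    · exact le_rfl
  have hVf2 : ∀ k, 4 * (W + 1) ≤ k → Vf (4 * (W + 1)) (2 * KK Λ μ Q₂) k ≤ 1 := by
    intro k hk
    unfold Vf
    rw [if_pos hk]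
  have hsum := v_sum hX hS U hU hVf0 hVf1 hVf2
  refine hsum.trans ?_
  by_cases hp : 4 * (W + 1) ≤ p
  · -- large holes
    have hprm : CE.prm (4 * (W + 1)) (prmQ Λ μ Q) (prmQ Λ μ Q₂) (S.per f) = prmQ Λ μ Q := by
      unfold CE.prm
      rw [hper1, if_pos hp]
    have hU' : ∀ q ∈ U, BEnd (BK.nxt (prmQ Λ μ Q) S f) S f q := by
      intro q hq
      have h1 := hU q hq
      unfold CH.Cpl CE.bk2 at h1
      simp only [] at h1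
      rw [hprm] at h1
      exact h1
    have h1 := hv₀ hS hp hvF U hU'
    have h2 : prQ Λ μ (4 * (W + 1)) Q Q₂ p = ((Λ * Q : ℕ) : ℝ) - 16 * ((Q : ℝ) + 2) := by
      unfold prQ
      apply prg_val
      · unfold CE.prm
        rw [if_pos hp]
        rfl
      · unfold CE.prm
        rw [if_pos hp]
        show Q - 1 + 1 = Q
        omega
    have h3 : (0 : ℝ) < ((Λ * Q : ℕ) : ℝ) - 16 * ((Q : ℝ) + 2) := by
      have h4 : (96 : ℝ) ≤ Λ := by exact_mod_cast hΛ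
      have h5 : (2 : ℝ) ≤ Q := by exact_mod_cast h2Q
      push_cast
      nlinarith
    have h4 : kap X ε Λ μ Q * (((Λ * Q : ℕ) : ℝ) - 16 * ((Q : ℝ) + 2)) =
        Real.log ((1 + 2 * ε) * gQ X Λ μ Q) := by
      unfold kap
      exact div_mul_cancel₀ _ h3.ne'
    have h5 : Vf (4 * (W + 1)) (2 * KK Λ μ Q₂) p = 1 := by
      unfold Vf
      rw [if_pos hp]
    rw [h2, h4, h5, mul_one, Real.exp_log (by positivity)]
    refine le_trans ?_ hg1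
    have h6 : gQ X Λ μ Q = gB (fun S f => BK.nxt (prmQ Λ μ Q) S f) X := rfl
    rw [h6]
    linarith
  · -- small holes
    have hprm : CE.prm (4 * (W + 1)) (prmQ Λ μ Q) (prmQ Λ μ Q₂) (S.per f) = prmQ Λ μ Q₂ := by
      unfold CE.prm
      rw [hper1, if_neg hp]
    have hU' : ∀ q ∈ U, BEnd (BK.nxt (prmQ Λ μ Q₂) S f) S f q := by
      intro q hq
      have h1 := hU q hq
      unfold CH.Cpl CE.bk2 at h1
      simp only [] at h1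
      rw [hprm] at h1
      exact h1
    have h1 := e_small hX (prmQ_bh hμ hμ1 hΛ h2Q₂) hS U hU'
    have h2 : prQ Λ μ (4 * (W + 1)) Q Q₂ p = ((Λ * Q₂ : ℕ) : ℝ) - 16 * ((Q₂ : ℝ) + 2) := by
      unfold prQ
      apply prg_val
      · unfold CE.prm
        rw [if_neg hp]
        rfl
      · unfold CE.prm
        rw [if_neg hp]
        show Q₂ - 1 + 1 = Q₂
        omega
    have h5 : Vf (4 * (W + 1)) (2 * KK Λ μ Q₂) p = 2 * KK Λ μ Q₂ := by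
      unfold Vf
      rw [if_neg hp]
    rw [h2, h5]
    have h6 : 2 * (KK Λ μ Q₂ : ℝ) * Real.exp (Real.log ((1 + 2 * ε) * gQ X Λ μ Q) /
        ((Λ * Q : ℕ) - 16 * ((Q : ℝ) + 2)) * ((Λ * Q₂ : ℕ) - 16 * ((Q₂ : ℝ) + 2))) =
        Real.exp (kap X ε Λ μ Q * (((Λ * Q₂ : ℕ) : ℝ) - 16 * ((Q₂ : ℝ) + 2))) * (2 * KK Λ μ Q₂) := by
      unfold kap
      ring
    rw [← h6]
    refine le_trans ?_ hg2
    linarith

end SYS.NS
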