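import Pool.Agent.SYS.NS.Defs
import Pool.Agent.SYS.BK.Mon
import Pool.Agent.SYS.BK.Out

/-!
# SYS-NS-Blk: the block `BK.nxt P` satisfies `BH`

All fields are facts of `BK/Out`, `BK/RunB`, `BK/Mon`.
-/

namespace SYS.NS

open Classical SST SYS.Num SYS.Part SYS.BK

theorem bh_blk {P : Prm} (hP : P.Ok) : BH (fun X f => BK.nxt P X f) P.R0 P.K :=
  ⟨nxt_bok hP, fun _ _ hx => nxt_self hx, fun _ _ _ _ _ _ hx h hd => (node_gate hx h hd).2.1,
    fun _ _ _ _ _ _ hx h _ => node_len hP hx h, fun _ _ hx => nxt_mon P hx,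
    fun _ _ hx => nxt_pathP hP hx⟩

end SYS.NS
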