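import Pool.Agent.SYS.NS.Defs
import Pool.Agent.SYS.BK.FroB

/-!
# SYS-NS-BlkL: the level function of the block `BK.nxt P`

PLAN.
* `blv`: `root`: `front_zero` (`e ∉ S.B`, `e ∈ Z.B` implies `e ∉ S.R`: otherwise `S.a e = e` because `Z.a e = e`, `Sub`): `e ∈ bal S Z x 0`.  `T`: if `d ∈ bal S Z x j`, `j ≤ J`: the new face behind `d`: `Z'.a d ∈ bal (j + 1)` (`bal_adj`: `Z'.a (Z'.a d) = d ∈ bal S Z' x j` by `bal_mono`), and `e` is in this face (`bal_fs`): compare the private lemmas `st_new`, `chd`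
  of `BK/Fro.lean`; `Nat.find_min'`; if there is no such `j` the value is `J + 1` on the right.  `mono`: `bal_mono`.  `min`: `nxt_mem`: `Z.a x ≠ x` (`node_glued`) so `d ∈ tgt P S Z x`; if `e ∈ bal S Z x j`, `j ≤ J`, then `tgt = Z.B ∩ bal (Nat.find _)` and `Nat.find _ ≤ j`.  `fin`: `nxt_none`: `tgt = ∅`, so no boundary dart is in `bal j`, `j ≤ J`.
-/

namespace SYS.NS

open Classical SST SYS.Num SYS.Part SYS.BK

/-- Level = distance from the face behind the gate, at most `J + 1`. -/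
noncomputable def blv (P : Prm) {D : Type} [Finite D] (S : Part D) (x : D) (Z : Part D) (e : D) : ℕ :=
  if h : ∃ j, j ≤ P.J ∧ e ∈ bal S Z x j then Nat.find h else P.J + 1

private theorem bl_le_j {P : Prm} {D : Type} [Finite D] {S Z : Part D} {x e : D} {j : ℕ} (h : e ∈ bal S Z x j) :
    blv P S x Z e ≤ j := by
  unfold blv
  split_ifs with h1
  · by_cases hj : j ≤ P.J
    · exact Nat.find_min' h1 ⟨hj, h⟩
    · exact (Nat.find_spec h1).1.trans (by omega)
  · by_contra hc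
    exact h1 ⟨j, by omega, h⟩

private theorem bl_le_J {P : Prm} {D : Type} [Finite D] (S Z : Part D) (x e : D) : blv P S x Z e ≤ P.J + 1 := by
  unfold blv
  split_ifs with h1
  · exact (Nat.find_spec h1).1.trans (by omega)
  · exact le_refl _

private theorem bl_cases (P : Prm) {D : Type} [Finite D] (S Z : Part D) (x e : D) :
    (P.J + 1 ≤ blv P S x Z e) ∨ (blv P S x Z e ≤ P.J ∧ e ∈ bal S Z x (blv P S x Z e)) := by
  unfold blv
  split_ifs with h1
  · exact Or.inr (Nat.find_spec h1)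
  · exact Or.inl (le_refl _)

private theorem bl_sub_B {D : Type} {S₁ S₂ : Part D} {e : D} (h : S₁.Sub S₂) (he : e ∈ S₂.B) (he' : e ∉ S₁.B) : e ∉ S₁.R := by
  intro hc
  apply he'
  refine ⟨hc, ?_⟩
  by_contra hn
  have h1 := h.2 e hn
  exact hn (h1.symm.trans he.2)

private theorem bl_sub_R {D : Type} {S₁ S₂ : Part D} {e : D} (h : S₁.Sub S₂) (he : e ∈ S₁.R) : e ∈ S₂.R := by
  show S₂.f e ≠ e
  rw [h.1 e he]
  exact he

private theorem bl_new {D : Type} [Finite D] {S₁ S₂ : Part D} {d z e : D} (hst : S₁.St d .T S₂ z) (he : e ∈ S₂.B) (he' : e ∉ S₁.R) :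
    e ∈ fc S₂.f (S₂.a d) ∧ S₂.a d ∉ S₁.R := by
  obtain ⟨t0, t1, t2, hx, h0, h1, h2, h01, h12, h20, rfl, hz⟩ := hst
  have ha : (S₁.face d t0 t1 t2 hx h0 h1 h2 h01 h12 h20).a d = t0 := by
    have hf : S₁.f t0 = t0 := not_not.1 h0
    have ha : S₁.a t0 = t0 := S₁.af t0 hf
    show (S₁.a * Equiv.swap d t0) d = t0
    rw [Equiv.Perm.mul_apply, Equiv.swap_apply_left, ha]
  have hf0 : (S₁.face d t0 t1 t2 hx h0 h1 h2 h01 h12 h20).f t0 = t1 := by
    have hf : S₁.f t1 = t1 := not_not.1 h1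
    show (S₁.f * cyc3 t0 t1 t2) t0 = t1
    rw [Equiv.Perm.mul_apply, cyc3, Equiv.Perm.mul_apply, Equiv.swap_apply_of_ne_of_ne h01 h20.symm, Equiv.swap_apply_left, hf]
  have hf1 : (S₁.face d t0 t1 t2 hx h0 h1 h2 h01 h12 h20).f t1 = t2 := by
    have hf : S₁.f t2 = t2 := not_not.1 h2
    show (S₁.f * cyc3 t0 t1 t2) t1 = t2
    rw [Equiv.Perm.mul_apply, cyc3, Equiv.Perm.mul_apply, Equiv.swap_apply_left, Equiv.swap_apply_of_ne_of_ne h20 h12.symm, hf]
  rw [ha]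
  refine ⟨?_, h0⟩
  unfold fc
  rw [hf0, hf1]
  rw [face_B] at he
  rcases he with he | he
  · exact absurd (S₁.B_sub_R he.1) he'
  · exact Or.inr he

private theorem bl_T {D : Type} [Finite D] {S S₁ S₂ : Part D} {x d z e : D} {i : ℕ} (hS : S.Sub S₁) (hx : x ∈ S.B)
    (hd : d ∈ bal S S₁ x i) (hst : S₁.St d .T S₂ z) (he : e ∈ S₂.B) (he' : e ∉ S₁.B) : e ∈ bal S S₂ x (i + 1) := by
  have hU := (st_sub hst).1
  obtain ⟨h1, h2⟩ := bl_new hst he (bl_sub_B hU he he')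
  have hdR : d ∈ S₂.R := bl_sub_R hU (Part.B_sub_R S₁ (st_sub hst).2.1)
  have h3 : S₂.a d ∈ nw S S₂ := ⟨(mem_R_a S₂ d).2 hdR, fun hc => h2 (bl_sub_R hS hc)⟩
  have h4 : S₂.a d ∈ bal S S₂ x (i + 1) := by
    apply bal_adj h3
    rw [S₂.aa]
    exact bal_mono hS hU hx _ hd
  have hSU : S.Sub S₂ := sub_trans hS hU
  have h5 : S₂.f (S₂.a d) ∈ bal S S₂ x (i + 1) := (bal_fs hSU _ _).2 h4
  have h6 : S₂.f (S₂.f (S₂.a d)) ∈ bal S S₂ x (i + 1) := (bal_fs hSU _ _).2 h5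
  rcases h1 with h1 | h1 | h1
  · rw [h1]
    exact h4
  · rw [h1]
    exact h5
  · rw [Set.mem_singleton_iff] at h1
    rw [h1]
    exact h6

private theorem bl_tgt {P : Prm} {D : Type} [Finite D] {S Z : Part D} {x e : D} {j : ℕ} (hj : j ≤ P.J)
    (he : e ∈ Z.B) (hb : e ∈ bal S Z x j) : ∃ i ≤ j, tgt P S Z x = Z.B ∩ bal S Z x i ∧ (tgt P S Z x).Nonempty := by
  have h : ∃ j, j ≤ P.J ∧ (Z.B ∩ bal S Z x j).Nonempty := ⟨j, hj, ⟨e, he, hb⟩⟩
  refine ⟨Nat.find h, Nat.find_min' h ⟨hj, ⟨e, he, hb⟩⟩, ?_⟩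
  have h1 : tgt P S Z x = Z.B ∩ bal S Z x (Nat.find h) := by
    unfold tgt
    rw [dif_pos h]
  refine ⟨h1, ?_⟩
  rw [h1]
  exact (Nat.find_spec h).2

theorem lv_blk {P : Prm} (hP : P.Ok) : Lv (fun X f => BK.nxt P X f) (P.J + 1) (blv P) where
  root := by
    intro D _ S x Z z e hx h he hn
    have hsub := (st_sub h).1
    have h1 := front_zero hx h ⟨he, bl_sub_B hsub he hn⟩
    have h2 : blv P S x Z e ≤ 0 := bl_le_j h1
    omega
  T := by
    intro D _ S x w Z z d Z' z' e hx hBR hw hd hst he hn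
    rcases bl_cases P S Z x d with h | ⟨h1, h2⟩
    · have h3 := bl_le_J (P := P) S Z' x e
      omega
    · exact bl_le_j (bl_T (br_sub hBR) hx h2 hst he hn)
  mono := by
    intro D _ S x w Z z d s Z' z' e hx hBR hw hd hst he' he hn
    rcases bl_cases P S Z x e with h | ⟨h1, h2⟩
    · exact (bl_le_J S Z' x e).trans h
    · exact bl_le_j (bal_mono (br_sub hBR) (st_sub hst).1 hx _ h2)
  min := by
    intro D _ S x w Z z d e hx hBR hw hd he hn
    rcases bl_cases P S Z x e with h | ⟨h1, h2⟩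
    · exact Or.inr h
    · left
      obtain ⟨i, hi, ht, -⟩ := bl_tgt h1 he h2
      have h3 := node_glued hx hBR hw
      have h4 : d ∈ tgt P S Z x := (nxt_mem (br_sub hBR) hx hd).2.elim (fun h => absurd h.1 h3) (fun h => h.2)
      rw [ht] at h4
      exact (bl_le_j h4.2).trans hi
  fin := by
    intro D _ S x w Z z e hx hBR hw hd he hn
    rcases bl_cases P S Z x e with h | ⟨h1, h2⟩
    · exact h
    · exfalso
      obtain ⟨i, hi, ht, hne⟩ := bl_tgt h1 he h2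
      rw [((nxt_none (br_sub hBR)).1 hd).2] at hne
      exact Set.not_nonempty_empty hne

end SYS.NS
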