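import Pool.Agent.SYS.NS.Main
import Pool.Agent.SYS.CF.Defs
import Pool.Agent.SYS.PG.Gw

/-!
# SYS-NS-Cst: the structure `CF.Cst` for the two-size block
-/

namespace SYS.NS

open Classical SST SYS.Num SYS.Part Filter

private theorem cs_pm {μ : ℝ} (hμ : 0 < μ) (hμ1 : μ ≤ 1) {Λ : ℕ} (hΛ : 96 ≤ Λ) {Q : ℕ} (hQ : 2 ≤ Q)
    (hP : ∀ M A : ℕ, 3 ≤ M → (M : ℝ) ≤ (Λ : ℝ) * Q → 8 * ((2 : ℕ) : ℝ) * (Q + 2) < M → 2 * (M : ℝ) ≤ μ * A →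
      PG.Pm μ 2 M Q A) : PG.Pm μ 2 (prmQ Λ μ Q).M ((prmQ Λ μ Q).q + 1) (prmQ Λ μ Q).A := by
  have h1 : (prmQ Λ μ Q).q + 1 = Q := by
    show Q - 1 + 1 = Q
    omega
  have h2 : (prmQ Λ μ Q).M = Λ * Q := rfl
  have h3 : 96 * Q ≤ Λ * Q := Nat.mul_le_mul_right _ hΛ
  rw [h1]
  refine hP _ _ ?_ ?_ ?_ (prmQ_ok hμ hμ1 hΛ hQ).2.2.2
  · rw [h2]
    omega
  · rw [h2]
    push_cast
    exact le_refl _
  · rw [h2]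
    have h4 : 8 * 2 * (Q + 2) < Λ * Q := by omega
    exact_mod_cast h4

private theorem cs_pr {μ : ℝ} {Λ : ℕ} (hΛ : 96 ≤ Λ) {Q : ℕ} (hQ : 2 ≤ Q) :
    (1 : ℝ) ≤ ((prmQ Λ μ Q).M : ℝ) - 16 * ((((prmQ Λ μ Q).q + 1 : ℕ) : ℝ) + 2) := by
  have h1 : (prmQ Λ μ Q).q + 1 = Q := by
    show Q - 1 + 1 = Q
    omega
  have h2 : (prmQ Λ μ Q).M = Λ * Q := rfl
  have h3 : 96 * Q ≤ Λ * Q := Nat.mul_le_mul_right _ hΛ
  rw [h1, h2]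
  have h4 : (1 + 16 * (Q + 2) : ℕ) ≤ Λ * Q := by omega
  have h5 : ((1 + 16 * (Q + 2) : ℕ) : ℝ) ≤ ((Λ * Q : ℕ) : ℝ) := by exact_mod_cast h4
  push_cast at h5 ⊢
  linarith

theorem kap_nonneg {X μ ε : ℝ} (hX : 0 < X) (hμ : 0 < μ) (hμ1 : μ ≤ 1) (hε : 0 < ε) {Λ : ℕ} (hΛ : 96 ≤ Λ) {Q : ℕ}
    (hQ : 2 ≤ Q) : 0 ≤ kap X ε Λ μ Q := by
  have h3 : 96 * Q ≤ Λ * Q := Nat.mul_le_mul_right _ hΛ
  have h1 := gQ_exp hX hμ hμ1 hΛ hQ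
  have h5 : ((2 + 16 * (Q + 2) : ℕ) : ℝ) ≤ ((Λ * Q : ℕ) : ℝ) := by
    have h4 : (2 + 16 * (Q + 2) : ℕ) ≤ Λ * Q := by omega
    exact_mod_cast h4
  push_cast at h5
  have h2 : (1 : ℝ) ≤ gQ X Λ μ Q := by
    refine le_trans ?_ h1
    rw [← Real.exp_zero]
    apply Real.exp_le_exp.2
    have h6 : 0 < Real.log (lam X) := Real.log_pos (lam_one hX)
    push_cast
    exact mul_nonneg h6.le (by nlinarith)
  unfold kap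
  refine div_nonneg (Real.log_nonneg ?_) ?_
  · nlinarith
  · push_cast
    linarith

theorem cst_ex {θ x : ℝ} (h : Num.Par θ x) {μ ε : ℝ} (hμ : 0 < μ) (hμ1 : μ ≤ 1) (hε : 0 < ε) {Λ : ℕ} (hΛ : 96 ≤ Λ) :
    ∃ Q₀ : ℕ, ∀ Q : ℕ, Q₀ ≤ Q → 2 ≤ Q ∧ ∃ (V1 dl : ℝ) (B : CH.Blk) (M Qf A : ℕ → ℕ) (V : ℕ → ℝ),
      CF.Cst θ x μ (kap x ε Λ μ Q) V1 dl B M Qf A V := by
  have hX : 0 < x := h.2.2.1
  obtain ⟨Q1, hQ1⟩ := PG.exists_pm hμ hμ1 2 (Λ : ℝ)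
  obtain ⟨Q₀, hQ₀⟩ := ns_ex hX hμ hμ1 hε hΛ Q1
  refine ⟨Q₀, fun Q hQ => ?_⟩
  obtain ⟨hQa, hQ2, Q₂, p₀, v₀, V₁, hQb, hQ2', hV1, hex⟩ := hQ₀ Q hQ
  have hok := (prmQ_ok hμ hμ1 hΛ hQ2).1
  have hok' := (prmQ_ok hμ hμ1 hΛ hQ2').1
  refine ⟨hQ2, V₁, 1, CE.bk2 p₀ (prmQ Λ μ Q) (prmQ Λ μ Q₂), fun p => (CE.prm p₀ (prmQ Λ μ Q) (prmQ Λ μ Q₂) p).M,
    fun p => (CE.prm p₀ (prmQ Λ μ Q) (prmQ Λ μ Q₂) p).q + 1, fun p => (CE.prm p₀ (prmQ Λ μ Q) (prmQ Λ μ Q₂) p).A,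
    Vf p₀ V₁, ?_⟩
  refine ⟨CE.bk2_ok hok hok', CE.bk2_in hok hok', fun p => ?_, one_pos, fun p => ?_, kap_nonneg hX hμ hμ1 hε hΛ hQ2,
    fun p => ?_, fun a => ?_⟩
  · show PG.Pm μ 2 (CE.prm p₀ (prmQ Λ μ Q) (prmQ Λ μ Q₂) p).M ((CE.prm p₀ (prmQ Λ μ Q) (prmQ Λ μ Q₂) p).q + 1)
      (CE.prm p₀ (prmQ Λ μ Q) (prmQ Λ μ Q₂) p).A
    unfold CE.prm
    split_ifs
    · exact cs_pm hμ hμ1 hΛ hQ2 (hQ1 Q hQa)
    · exact cs_pm hμ hμ1 hΛ hQ2' (hQ1 Q₂ hQb)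
  · show (1 : ℝ) ≤ ((CE.prm p₀ (prmQ Λ μ Q) (prmQ Λ μ Q₂) p).M : ℝ) -
      16 * ((((CE.prm p₀ (prmQ Λ μ Q) (prmQ Λ μ Q₂) p).q + 1 : ℕ) : ℝ) + 2)
    unfold CE.prm
    split_ifs
    · exact cs_pr hΛ hQ2
    · exact cs_pr hΛ hQ2'
  · unfold Vf
    split_ifs
    · exact ⟨le_refl _, hV1⟩
    · exact ⟨hV1, le_refl _⟩
  · have hlim : Tendsto (fun n : ℕ => Real.log (n : ℝ) / n) atTop (nhds 0) := by
      have h1 := Real.isLittleO_log_id_atTop.tendsto_div_nhds_zero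
      exact h1.comp tendsto_natCast_atTop_atTop
    have hev : ∀ᶠ n : ℕ in atTop, (v₀ : ℝ) + 2 * (a * Real.log n) ≤ 2 * n := by
      have h1 : ∀ᶠ n : ℕ in atTop, Real.log (n : ℝ) / n < 1 / (2 * (|a| + 1)) :=
        hlim.eventually (gt_mem_nhds (by positivity))
      filter_upwards [h1, eventually_ge_atTop (v₀ + 1)] with n h2 h3
      have h4 : (v₀ : ℝ) + 1 ≤ n := by exact_mod_cast h3
      have h5 : (0 : ℝ) < n := by linarith [(Nat.cast_nonneg v₀ : (0 : ℝ) ≤ v₀)]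
      have h6 : 0 ≤ Real.log (n : ℝ) := Real.log_nonneg (by linarith [(Nat.cast_nonneg v₀ : (0 : ℝ) ≤ v₀)])
      have h7 : Real.log (n : ℝ) < 1 / (2 * (|a| + 1)) * n := (div_lt_iff₀ h5).1 h2
      have h8 : a * Real.log n ≤ (|a| + 1) * Real.log n :=
        mul_le_mul_of_nonneg_right (by linarith [le_abs_self a]) h6
      have h9 : (|a| + 1) * Real.log n ≤ (|a| + 1) * (1 / (2 * (|a| + 1)) * n) :=
        mul_le_mul_of_nonneg_left h7.le (by positivity)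
      have h10 : (|a| + 1) * (1 / (2 * (|a| + 1)) * n) = n / 2 := by
        have : |a| + 1 ≠ 0 := by positivity
        field_simp
      linarith
    have hfst : Tendsto (fun q : ℕ × ℕ => q.1) (Num.Fth θ) atTop := tendsto_comap.mono_left inf_le_left
    filter_upwards [hfst.eventually hev] with q hq X f l p P F c hT hF hP U hU
    have ha : 0 ≤ a * Real.log q.1 := le_trans (Nat.cast_nonneg _) hP
    have hfl := Nat.floor_le ha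
    refine hex q.1 ⌊a * Real.log q.1⌋₊ ⌊a * Real.log q.1⌋₊ ?_ X f l p P F c hT ?_ ?_ U hU
    · have h1 : (v₀ : ℝ) + (⌊a * Real.log q.1⌋₊ : ℝ) + (⌊a * Real.log q.1⌋₊ : ℝ) ≤ 2 * q.1 := by linarith
      exact_mod_cast h1
    · by_cases h1 : F ≤ 2 * q.1
      · have h2 : ((2 * q.1 - F : ℕ) : ℝ) ≤ a * Real.log q.1 := by
          rw [Nat.cast_sub h1]
          push_cast
          linarith
        have h3 := Nat.le_floor h2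
        omega
      · omega
    · exact Nat.le_floor hP

end SYS.NS
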