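import Pool.Agent.SYS.PX.GM
import Pool.Agent.SYS.PX.AbsF
import Pool.Agent.SYS.PX.Ex

/-!
# Project SYS (MP_650813_pr, S*), block NS: numerical analysis of a block (definitions).  DO NOT CHANGE.

`nx S x Z` = rule of the block with base `S`, gate `x` at the region `Z` (form of `PX/Defs`, `CH/Defs`).
* `BH nx R₀ N`: the gates are in the hole of the run, at most `N` steps, and the hypotheses of `PX/GM`, `PX/AbsF`.
* `Lv nx R lv`: a level function; the rule peels darts of smallest level as long as there are new boundary darts of level `< R`.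
* `Gv v`: the steps with discs of perimeter and volume at most `v`.
* `lam X`: growth per level.  `Val a R lv S Z`: value of the new boundary darts of `Z`.
* `KK Λ μ Q`, `R0 Λ μ Q`: bounds of the block with thickness `Q`, perimeter `Λ Q`, area `⌈2 Λ Q / μ⌉`.
-/

namespace SYS.NS

open Classical SST SYS.Num SYS.Part

/-- Assumptions on a block. -/
structure BH (nx : ∀ {D : Type} [Finite D], Part D → D → Part D → Option D) (R₀ N : ℕ) : Prop where
  bok : Bok nx N
  st : ∀ {D : Type} [Finite D] (S : Part D) (x : D), x ∈ S.B → nx S x S = some x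
  hole : ∀ {D : Type} [Finite D] (S : Part D) (x : D) (w : List Stp) (Z : Part D) (z d : D), x ∈ S.B →
    BR (nx S x) S x w Z z → nx S x Z = some d → Z.s.SameCycle z d
  act : ∀ {D : Type} [Finite D] (S : Part D) (x : D) (w : List Stp) (Z : Part D) (z d : D), x ∈ S.B →
    BR (nx S x) S x w Z z → nx S x Z = some d → w.length < N
  mon : ∀ {D : Type} [Finite D] (S : Part D) (x : D), x ∈ S.B → Mon (nx S x) S
  path : ∀ {D : Type} [Finite D] (S : Part D) (x : D), x ∈ S.B → PathP (nx S x) S x R₀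

/-- Level function. -/
structure Lv (nx : ∀ {D : Type} [Finite D], Part D → D → Part D → Option D) (R : ℕ)
    (lv : ∀ {D : Type} [Finite D], Part D → D → Part D → D → ℕ) : Prop where
  root : ∀ {D : Type} [Finite D] (S : Part D) (x : D) (Z : Part D) (z e : D), x ∈ S.B → S.St x .T Z z →
    e ∈ Z.B → e ∉ S.B → lv S x Z e = 0
  T : ∀ {D : Type} [Finite D] (S : Part D) (x : D) (w : List Stp) (Z : Part D) (z d : D) (Z' : Part D) (z' e : D),
    x ∈ S.B → BR (nx S x) S x w Z z → w ≠ [] → nx S x Z = some d → Z.St d .T Z' z' → e ∈ Z'.B → e ∉ Z.B →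
    lv S x Z' e ≤ lv S x Z d + 1
  mono : ∀ {D : Type} [Finite D] (S : Part D) (x : D) (w : List Stp) (Z : Part D) (z d : D) (s : Stp) (Z' : Part D)
    (z' e : D), x ∈ S.B → BR (nx S x) S x w Z z → w ≠ [] → nx S x Z = some d → Z.St d s Z' z' → e ∈ Z'.B →
    e ∈ Z.B → e ∉ S.B → lv S x Z' e ≤ lv S x Z e
  min : ∀ {D : Type} [Finite D] (S : Part D) (x : D) (w : List Stp) (Z : Part D) (z d e : D),
    x ∈ S.B → BR (nx S x) S x w Z z → w ≠ [] → nx S x Z = some d → e ∈ Z.B → e ∉ S.B →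
    lv S x Z d ≤ lv S x Z e ∨ R ≤ lv S x Z e
  fin : ∀ {D : Type} [Finite D] (S : Part D) (x : D) (w : List Stp) (Z : Part D) (z e : D),
    x ∈ S.B → BR (nx S x) S x w Z z → w ≠ [] → nx S x Z = none → e ∈ Z.B → e ∉ S.B → R ≤ lv S x Z e

/-- Small steps. -/
def Gv (v : ℕ) : Finset Stp :=
  {Stp.T} ∪ ((Finset.range (v + 1) ×ˢ Finset.range (v + 1)).image (fun z => Stp.L z.1 z.2) ∪
    (Finset.range (v + 1) ×ˢ Finset.range (v + 1)).image (fun z => Stp.R z.1 z.2))

/-- Growth per level. -/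
noncomputable def lam (X : ℝ) : ℝ := 2 * AA X / (2 * AA X - dr X)

/-- Value of the new boundary darts. -/
noncomputable def Val {D : Type} [Finite D] (a : ℝ) (R : ℕ) (lv : D → ℕ) (S Z : Part D) : ℝ :=
  ∑ᶠ e ∈ {e | e ∈ Z.B ∧ e ∉ S.B}, a ^ (R - lv e)

/-- Area of the block with thickness `Q`. -/
noncomputable def Ar (Λ : ℕ) (μ : ℝ) (Q : ℕ) : ℕ := ⌈2 * ((Λ * Q : ℕ) : ℝ) / μ⌉₊

/-- Radius of the block with thickness `Q`. -/
noncomputable def R0 (Λ : ℕ) (μ : ℝ) (Q : ℕ) : ℕ := Ar Λ μ Q + Q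

/-- Bound of the number of steps of the block with thickness `Q`. -/
noncomputable def KK (Λ : ℕ) (μ : ℝ) (Q : ℕ) : ℕ := 9 * 2 ^ R0 Λ μ Q

end SYS.NS
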