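import Pool.Agent.SYS.PL.LawB
import Pool.Agent.SYS.PL.RwA
import Pool.Agent.SYS.Reg.LSt

/-!
# SYS-NS-Num1: tails of the steps and of the words (exponential moments of the steps)
-/

namespace SYS.NS

open Classical SST SYS.Num SYS.Part

variable {X : ℝ}

/-- Exponential tail of the perimeters of the swallowed discs. -/
def Tl (X c C : ℝ) : Prop := ∀ (K : ℕ) (G : Finset (ℕ × ℕ)), (∀ t ∈ G, K ≤ t.1) → ∑ t ∈ G, qq X t.1 t.2 ≤ C * Real.exp (-(c * K))

theorem exists_tl (hX : 0 < X) : ∃ c C : ℝ, 0 < c ∧ 0 < C ∧ Tl X c C := by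
  obtain ⟨δ, hδ, hs⟩ := expm hX
  have hnn : ∀ t : ℕ × ℕ, 0 ≤ qq X t.1 t.2 * Real.exp (δ * (t.1 + t.2)) := fun t =>
    mul_nonneg (qq_nonneg X _ _) (Real.exp_pos _).le
  have hT : 0 ≤ ∑' t : ℕ × ℕ, qq X t.1 t.2 * Real.exp (δ * (t.1 + t.2)) := tsum_nonneg hnn
  refine ⟨δ, 1 + ∑' t : ℕ × ℕ, qq X t.1 t.2 * Real.exp (δ * (t.1 + t.2)), hδ, by linarith, ?_⟩
  intro K G hG
  have hE : 0 < Real.exp (-(δ * K)) := Real.exp_pos _
  calc ∑ t ∈ G, qq X t.1 t.2 ≤ ∑ t ∈ G, Real.exp (-(δ * K)) * (qq X t.1 t.2 * Real.exp (δ * (t.1 + t.2))) := by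
        refine Finset.sum_le_sum fun t ht => ?_
        have h1 : (K : ℝ) ≤ t.1 := by exact_mod_cast hG t ht
        have h2 : 1 ≤ Real.exp (-(δ * K)) * Real.exp (δ * (t.1 + t.2)) := by
          rw [← Real.exp_add]
          refine Real.one_le_exp ?_
          have h3 : 0 ≤ δ * (t.2 : ℝ) := by positivity
          have h4 : δ * (K : ℝ) ≤ δ * t.1 := mul_le_mul_of_nonneg_left h1 hδ.le
          linarith
        have h5 := mul_le_mul_of_nonneg_left h2 (qq_nonneg X t.1 t.2)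
        calc qq X t.1 t.2 = qq X t.1 t.2 * 1 := (mul_one _).symm
          _ ≤ _ := h5
          _ = _ := by ring
    _ = Real.exp (-(δ * K)) * ∑ t ∈ G, (qq X t.1 t.2 * Real.exp (δ * (t.1 + t.2))) := by rw [Finset.mul_sum]
    _ ≤ Real.exp (-(δ * K)) * ∑' t : ℕ × ℕ, qq X t.1 t.2 * Real.exp (δ * (t.1 + t.2)) :=
        mul_le_mul_of_nonneg_left (hs.sum_le_tsum G fun t _ => hnn t) hE.le
    _ ≤ (1 + ∑' t : ℕ × ℕ, qq X t.1 t.2 * Real.exp (δ * (t.1 + t.2))) * Real.exp (-(δ * K)) := by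
        rw [mul_comm]
        exact mul_le_mul_of_nonneg_right (by linarith) hE.le

/-- Exponential tail of the sizes of the words. -/
def Wt (X a A : ℝ) : Prop := ∀ (N v : ℕ) (Q : Finset (List Stp)), (∀ w ∈ Q, w.length ≤ N ∧ v ≤ wvol w + wk w) →
  ∑ w ∈ Q, PRW X w * ((wk w : ℝ) + 1) ≤ Real.exp (A * (N + 1) - a * v)

/-- the weight of a step -/
private noncomputable def n1f (X e : ℝ) (s : Stp) : ℝ :=
  s.wt (AA X) (qq X) * Real.exp (e / 2 * ((s.vol : ℝ) + (SYS.Part.wk [s] : ℝ)))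

private theorem n1_A (X : ℝ) : 0 ≤ AA X := by
  have := AA_gt X
  linarith

private theorem n1_nn (X e : ℝ) (s : Stp) : 0 ≤ n1f X e s :=
  mul_nonneg (s.wt_nonneg (n1_A X) (qq_nonneg X)) (Real.exp_pos _).le

private theorem n1_wk (s : Stp) (w : List Stp) : SYS.Part.wk (s :: w) = SYS.Part.wk [s] + SYS.Part.wk w := by
  simp [SYS.Part.wk]

private theorem n1_prod (X e : ℝ) (w : List Stp) : (w.map (n1f X e)).prod =
    PRW X w * Real.exp (e / 2 * ((wvol w : ℝ) + (SYS.Part.wk w : ℝ))) := by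
  induction w with
  | nil =>
    unfold PRW
    rw [wwt_nil, wvol_nil]
    simp [SYS.Part.wk]
  | cons s w ih =>
    have h5 : PRW X (s :: w) = s.wt (AA X) (qq X) * PRW X w := wwt_cons _ _ _ _
    rw [List.map_cons, List.prod_cons, ih, h5, wvol_cons, n1_wk]
    unfold n1f
    have h6 : e / 2 * (((s.vol + wvol w : ℕ) : ℝ) + ((SYS.Part.wk [s] + SYS.Part.wk w : ℕ) : ℝ)) =
        e / 2 * ((s.vol : ℝ) + (SYS.Part.wk [s] : ℝ)) + e / 2 * ((wvol w : ℝ) + (SYS.Part.wk w : ℝ)) := by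
      push_cast
      ring
    rw [h6, Real.exp_add]
    ring

private theorem n1_tot (hX : 0 < X) {e : ℝ} (he : 0 < e)
    (hs : Summable fun t : ℕ × ℕ => qq X t.1 t.2 * Real.exp (e * (t.1 + t.2))) :
    ∃ R : ℝ, 1 ≤ R ∧ Tot (n1f X e) R := by
  have _ := hX
  have hβ : Summable fun t : ℕ × ℕ => qq X t.1 t.2 * Real.exp (e / 2 * ((t.2 : ℝ) + ((t.1 + 2 : ℕ) : ℝ))) := by
    refine Summable.of_nonneg_of_le (fun t => mul_nonneg (qq_nonneg X _ _) (Real.exp_pos _).le) ?_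
      (hs.mul_left (Real.exp e))
    intro t
    have h1 : Real.exp (e / 2 * ((t.2 : ℝ) + ((t.1 + 2 : ℕ) : ℝ))) ≤ Real.exp e * Real.exp (e * (t.1 + t.2)) := by
      rw [← Real.exp_add]
      refine Real.exp_le_exp.2 ?_
      push_cast
      have h2 : 0 ≤ e * (t.1 : ℝ) := by positivity
      have h3 : 0 ≤ e * (t.2 : ℝ) := by positivity
      nlinarith
    calc qq X t.1 t.2 * Real.exp (e / 2 * ((t.2 : ℝ) + ((t.1 + 2 : ℕ) : ℝ)))
        ≤ qq X t.1 t.2 * (Real.exp e * Real.exp (e * (t.1 + t.2))) := mul_le_mul_of_nonneg_left h1 (qq_nonneg X _ _)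
      _ = Real.exp e * (qq X t.1 t.2 * Real.exp (e * (t.1 + t.2))) := by ring
  have hT : 0 ≤ ∑' t : ℕ × ℕ, qq X t.1 t.2 * Real.exp (e / 2 * ((t.2 : ℝ) + ((t.1 + 2 : ℕ) : ℝ))) :=
    tsum_nonneg fun t => mul_nonneg (qq_nonneg X _ _) (Real.exp_pos _).le
  have hα : 0 ≤ n1f X e .T := n1_nn X e .T
  refine ⟨1 + n1f X e .T + ∑' t : ℕ × ℕ, qq X t.1 t.2 * Real.exp (e / 2 * ((t.2 : ℝ) + ((t.1 + 2 : ℕ) : ℝ))) +
    ∑' t : ℕ × ℕ, qq X t.1 t.2 * Real.exp (e / 2 * ((t.2 : ℝ) + ((t.1 + 2 : ℕ) : ℝ))), by linarith, ?_⟩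
  refine tot_of (α := n1f X e .T) rfl ?_ ?_ (n1_nn X e) hβ hβ (by linarith)
  · intro k a
    simp [n1f, Stp.wt, Stp.vol, SYS.Part.wk]
  · intro k a
    simp [n1f, Stp.wt, Stp.vol, SYS.Part.wk]

private theorem n1_sum {R : ℝ} (hR : 1 ≤ R) {f : Stp → ℝ} (hf : Tot f R) (N : ℕ) (Q : Finset (List Stp))
    (hQ : ∀ w ∈ Q, w.length ≤ N) : ∑ w ∈ Q, (w.map f).prod ≤ (N + 1) * R ^ N := by
  rw [← Finset.sum_fiberwise_of_maps_to (t := Finset.range (N + 1)) (g := List.length)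
    (fun w hw => Finset.mem_range.2 (Nat.lt_succ_of_le (hQ w hw)))]
  calc ∑ n ∈ Finset.range (N + 1), ∑ w ∈ Q.filter (fun w => w.length = n), (w.map f).prod
      ≤ ∑ n ∈ Finset.range (N + 1), R ^ N := by
        refine Finset.sum_le_sum fun n hn => ?_
        refine (prod_len hf n _ fun w hw => (Finset.mem_filter.1 hw).2).trans ?_
        exact pow_le_pow_right₀ hR (Nat.lt_succ_iff.1 (Finset.mem_range.1 hn))
    _ = (N + 1) * R ^ N := by
        rw [Finset.sum_const, Finset.card_range, nsmul_eq_mul]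
        push_cast
        ring

theorem exists_wt (hX : 0 < X) : ∃ a A : ℝ, 0 < a ∧ 0 < A ∧ Wt X a A := by
  obtain ⟨e, he, hs⟩ := expm hX
  obtain ⟨R, hR, hf⟩ := n1_tot hX he hs
  have hlog : 0 ≤ Real.log R := Real.log_nonneg hR
  have hR0 : 0 < R := by linarith
  have h4e : 0 < 4 / e := by positivity
  refine ⟨e / 4, 1 + Real.log R + 4 / e, by positivity, by positivity, ?_⟩
  intro N v Q hQ
  have hterm : ∀ w ∈ Q, PRW X w * ((SYS.Part.wk w : ℝ) + 1) ≤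
      (1 + 4 / e) * Real.exp (-(e / 4 * v)) * (w.map (n1f X e)).prod := by
    intro w hw
    have hp : 0 ≤ PRW X w := wwt_nonneg (n1_A X) (qq_nonneg X) w
    rw [n1_prod]
    obtain ⟨z, hz⟩ : ∃ z : ℝ, z = (wvol w : ℝ) + (SYS.Part.wk w : ℝ) := ⟨_, rfl⟩
    have hz1 : (SYS.Part.wk w : ℝ) ≤ z := by
      rw [hz]
      have : (0 : ℝ) ≤ wvol w := Nat.cast_nonneg _
      linarith
    have hz0 : 0 ≤ z := le_trans (Nat.cast_nonneg _) hz1
    have hzv : (v : ℝ) ≤ z := by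
      rw [hz]
      exact_mod_cast (hQ w hw).2
    rw [← hz]
    have h1 : e / 4 * z ≤ Real.exp (e / 4 * z) := by
      have := Real.add_one_le_exp (e / 4 * z)
      linarith
    have h2 : z ≤ 4 / e * Real.exp (e / 4 * z) := by
      have h3 : z = 4 / e * (e / 4 * z) := by field_simp
      calc z = 4 / e * (e / 4 * z) := h3
        _ ≤ 4 / e * Real.exp (e / 4 * z) := mul_le_mul_of_nonneg_left h1 h4e.le
    have h3 : 1 ≤ Real.exp (e / 4 * z) := Real.one_le_exp (by positivity)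
    have h4 : (SYS.Part.wk w : ℝ) + 1 ≤ (1 + 4 / e) * Real.exp (e / 4 * z) := by
      rw [add_mul, one_mul]
      linarith
    have h5 : Real.exp (e / 4 * z) ≤ Real.exp (-(e / 4 * v)) * Real.exp (e / 2 * z) := by
      rw [← Real.exp_add]
      refine Real.exp_le_exp.2 ?_
      have h6 : e / 4 * (v : ℝ) ≤ e / 4 * z := mul_le_mul_of_nonneg_left hzv (by positivity)
      linarith
    calc PRW X w * ((SYS.Part.wk w : ℝ) + 1) ≤ PRW X w * ((1 + 4 / e) * (Real.exp (-(e / 4 * v)) * Real.exp (e / 2 * z))) :=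
          mul_le_mul_of_nonneg_left (h4.trans (mul_le_mul_of_nonneg_left h5 (by positivity))) hp
      _ = (1 + 4 / e) * Real.exp (-(e / 4 * v)) * (PRW X w * Real.exp (e / 2 * z)) := by ring
  have h1 : 1 + 4 / e ≤ Real.exp (4 / e * (N + 1)) := by
    have h2 := Real.add_one_le_exp (4 / e)
    have h3 : Real.exp (4 / e) ≤ Real.exp (4 / e * (N + 1)) := by
      refine Real.exp_le_exp.2 ?_
      have : 0 ≤ 4 / e * (N : ℝ) := by positivity
      linarith
    linarith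
  have h2 : (N : ℝ) + 1 ≤ Real.exp (N + 1) := by
    have := Real.add_one_le_exp ((N : ℝ) + 1)
    linarith
  have h3 : R ^ N ≤ Real.exp (Real.log R * (N + 1)) := by
    have h4 : R ^ N = Real.exp (Real.log R * N) := by
      rw [mul_comm, Real.exp_nat_mul, Real.exp_log hR0]
    rw [h4]
    exact Real.exp_le_exp.2 (by linarith)
  calc ∑ w ∈ Q, PRW X w * ((SYS.Part.wk w : ℝ) + 1)
      ≤ ∑ w ∈ Q, (1 + 4 / e) * Real.exp (-(e / 4 * v)) * (w.map (n1f X e)).prod := Finset.sum_le_sum hterm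
    _ = (1 + 4 / e) * Real.exp (-(e / 4 * v)) * ∑ w ∈ Q, (w.map (n1f X e)).prod := by rw [Finset.mul_sum]
    _ ≤ (1 + 4 / e) * Real.exp (-(e / 4 * v)) * ((N + 1) * R ^ N) :=
        mul_le_mul_of_nonneg_left (n1_sum hR hf N Q fun w hw => (hQ w hw).1) (by positivity)
    _ ≤ Real.exp (4 / e * (N + 1)) * Real.exp (-(e / 4 * v)) * (Real.exp (N + 1) * Real.exp (Real.log R * (N + 1))) := by
        refine mul_le_mul (mul_le_mul_of_nonneg_right h1 (Real.exp_pos _).le) (mul_le_mul h2 h3 (by positivity)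
          (Real.exp_pos _).le) (by positivity) (by positivity)
    _ = Real.exp ((1 + Real.log R + 4 / e) * (N + 1) - e / 4 * v) := by
        rw [← Real.exp_add, ← Real.exp_add, ← Real.exp_add]
        congr 1
        ring

end SYS.NS
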