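import Pool.Agent.SYS.NS.Defs
import Pool.Agent.SYS.NS.Num1

/-!
# SYS-NS-Ends: sums over the ends of a block

PLAN.
* `end_mass`: as the private `g_le` of `PX/GM`: `end_pf`, `rb_rul`, `typ_repl`, `tree_mass`.  (`x ∈ S.B`: `hS.hl.1 _ List.mem_cons_self`.)
* `end_words`: group `Q` by the word (`Finset.sum_fiberwise_of_maps_to`).  For a word `w` of `Q`: the `q ∈ Q` with `q.1 = w` inject (by `q ↦ q.2`) into `{r | RchG (rb b) [] S (rb b [] S x) w r.1 r.2}` (`end_pf`, first part), whose number times `nwt X F w` is `PRW X w`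
  (`nwt_word` with `S.Typ (rb b [] S x :: l) ..`, `typ_repl`; `WOk p w`, `wvol w ≤ F` from `rchg_typ`).
* `end_tail`: `end_words` with `φ w = wk w + 1`, `hW`.
* `v_sum`: let `q ∈ Q`, `w = q.1`.  All `e ∈ q.2.1.B`, `e ∉ S.B` are in the hole of `q.2.2` (`ex_hole`), so `q.2.1.per e = q.2.1.per q.2.2 = wend p w` (`per_same`; `br_typ`, `Typ.per`).  So the inner sum is `exn S q.2.1 * V (wend p w)` (`exn` = `ncard` of the set of these `e`; `Finset.sum_ite`, `Set.ncard_eq_toFinset_card'`).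
  If `p₀ ≤ wend p w` this is at most `exn`; otherwise `exn ≤ wend p w < p₀` (`exn_le`) and it is at most `p₀ * V₁`.  `end_mass`.
-/

namespace SYS.NS

open Classical SST SYS.Num SYS.Part

section
variable {D : Type} [Finite D] {b : Part D → Option D} {S : Part D} {x : D} {l : List D} {p : ℕ} {P : List ℕ} {F κ : ℕ} {X : ℝ}

theorem end_mass (hX : 0 < X) (hS : S.Typ (x :: l) (p :: P) F κ) (Q : Finset (List Stp × Part D × D))
    (hQ : ∀ q ∈ Q, BEnd b S x q) : ∑ q ∈ Q, nwt X F q.1 ≤ 1 := by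
  have hx : x ∈ S.B := hS.hl.1 x List.mem_cons_self
  obtain ⟨h1, h2⟩ := end_pf hx Q hQ
  obtain ⟨h3, h4⟩ := rb_rul b [] S x hx
  exact tree_mass hX (rb_rul b) (typ_repl hS h3 h4) Q h1 h2

theorem end_words (hX : 0 < X) (hS : S.Typ (x :: l) (p :: P) F κ) (Q : Finset (List Stp × Part D × D))
    (hQ : ∀ q ∈ Q, BEnd b S x q) (φ : List Stp → ℝ) (hφ : ∀ w, 0 ≤ φ w) :
    ∑ q ∈ Q, nwt X F q.1 * φ q.1 ≤ ∑ w ∈ Q.image Prod.fst, PRW X w * φ w := by
  have hx : x ∈ S.B := hS.hl.1 x List.mem_cons_self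
  obtain ⟨h1, -⟩ := end_pf hx Q hQ
  obtain ⟨h3, h4⟩ := rb_rul b [] S x hx
  have hT := typ_repl hS h3 h4
  rw [← Finset.sum_fiberwise_of_maps_to (g := Prod.fst) (t := Q.image Prod.fst)
    (fun q hq => Finset.mem_image_of_mem _ hq)]
  refine Finset.sum_le_sum fun w hw => ?_
  obtain ⟨q0, hq0, rfl⟩ := Finset.mem_image.1 hw
  obtain ⟨hok, F', hF', -⟩ := rchg_typ (rb_rul b) hT (h1 q0 hq0)
  have h5 := nwt_word (h := []) X (rb_rul b) hT hok (by omega : wvol q0.1 ≤ F)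
  rw [← h5]
  have h6 : ∑ q ∈ Q.filter (fun q => q.1 = q0.1), nwt X F q.1 * φ q.1 =
      ((Q.filter (fun q => q.1 = q0.1)).card : ℝ) * (nwt X F q0.1 * φ q0.1) := by
    rw [Finset.sum_congr rfl (fun q hq => by rw [(Finset.mem_filter.1 hq).2]), Finset.sum_const, nsmul_eq_mul]
  rw [h6, mul_assoc]
  refine mul_le_mul_of_nonneg_right ?_ (mul_nonneg (nwt_nonneg hX _ _) (hφ _))
  have h7 : (Q.filter (fun q => q.1 = q0.1)).card ≤
      {q : Part D × D | RchG (rb b) [] S (rb b [] S x) q0.1 q.1 q.2}.ncard := by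
    have h8 : (Q.filter (fun q => q.1 = q0.1)).card = ((Q.filter (fun q => q.1 = q0.1)).image Prod.snd).card := by
      rw [Finset.card_image_of_injOn]
      intro a ha c hc hac
      have ha' := (Finset.mem_filter.1 (Finset.mem_coe.1 ha)).2
      have hc' := (Finset.mem_filter.1 (Finset.mem_coe.1 hc)).2
      exact Prod.ext (ha'.trans hc'.symm) hac
    rw [h8, ← Set.ncard_coe_finset]
    refine Set.ncard_le_ncard ?_ (Set.toFinite _)
    intro r hr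
    obtain ⟨q, hq, rfl⟩ := Finset.mem_image.1 (Finset.mem_coe.1 hr)
    obtain ⟨hq1, hq2⟩ := Finset.mem_filter.1 hq
    show RchG (rb b) [] S (rb b [] S x) q0.1 q.2.1 q.2.2
    rw [← hq2]
    exact h1 q hq1
  exact_mod_cast h7

end

theorem end_tail {X a A : ℝ} (hX : 0 < X) (hW : Wt X a A) {N v : ℕ} {D : Type} [Finite D] {b : Part D → Option D}
    {S : Part D} {x : D} {l : List D} {p : ℕ} {P : List ℕ} {F κ : ℕ} (hS : S.Typ (x :: l) (p :: P) F κ)
    (Q : Finset (List Stp × Part D × D)) (hQ : ∀ q ∈ Q, BEnd b S x q ∧ q.1.length ≤ N ∧ v ≤ wvol q.1 + wk q.1) :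
    ∑ q ∈ Q, nwt X F q.1 * ((wk q.1 : ℝ) + 1) ≤ Real.exp (A * (N + 1) - a * v) := by
  refine (end_words hX hS Q (fun q hq => (hQ q hq).1) (fun w => (wk w : ℝ) + 1) (fun w => by positivity)).trans ?_
  refine hW N v _ fun w hw => ?_
  obtain ⟨q, hq, rfl⟩ := Finset.mem_image.1 hw
  exact (hQ q hq).2

theorem v_sum {X : ℝ} (hX : 0 < X) {m : ℕ} {b : Part (Fin m) → Option (Fin m)} {S : Part (Fin m)} {x : Fin m} {l : List (Fin m)}
    {p : ℕ} {P : List ℕ} {F κ : ℕ} (hS : S.Typ (x :: l) (p :: P) F κ) (Q : Finset (List Stp × Part (Fin m) × Fin m))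
    (hQ : ∀ q ∈ Q, BEnd b S x q) {V : ℕ → ℝ} {V₁ : ℝ} {p₀ : ℕ} (h0 : ∀ k, 0 ≤ V k) (h1 : ∀ k, V k ≤ V₁)
    (h2 : ∀ k, p₀ ≤ k → V k ≤ 1) :
    ∑ q ∈ Q, nwt X F q.1 * ∑ e : Fin m, (if e ∈ q.2.1.B ∧ e ∉ S.B then V (q.2.1.per e) else 0) ≤
      ∑ q ∈ Q, nwt X F q.1 * (exn S q.2.1 : ℝ) + p₀ * V₁ := by
  have hV₁ : 0 ≤ V₁ := (h0 0).trans (h1 0)
  have key : ∀ q ∈ Q, ∑ e : Fin m, (if e ∈ q.2.1.B ∧ e ∉ S.B then V (q.2.1.per e) else 0) ≤
      (exn S q.2.1 : ℝ) + p₀ * V₁ := by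
    intro q hq
    obtain ⟨hr, -⟩ := hQ q hq
    obtain ⟨-, F', -, hT⟩ := br_typ hS hr
    have hper : q.2.1.per q.2.2 = wend p q.1 := by
      have := hT.per
      rw [List.map_cons, List.cons.injEq] at this
      exact this.1
    have e1 : ∑ e : Fin m, (if e ∈ q.2.1.B ∧ e ∉ S.B then V (q.2.1.per e) else 0) =
        (exn S q.2.1 : ℝ) * V (wend p q.1) := by
      have e2 : ∀ e : Fin m, (if e ∈ q.2.1.B ∧ e ∉ S.B then V (q.2.1.per e) else 0) =
          if e ∈ q.2.1.B ∧ e ∉ S.B then V (wend p q.1) else 0 := by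
        intro e
        split_ifs with h
        · rw [← per_same q.2.1 (ex_hole hS hr h.1 (Or.inl h.2)), hper]
        · rfl
      rw [Finset.sum_congr rfl (fun e _ => e2 e), ← Finset.sum_filter, Finset.sum_const, nsmul_eq_mul]
      congr 2
      unfold exn
      rw [← Set.ncard_coe_finset]
      congr 1
      ext e
      rw [Finset.mem_coe, Finset.mem_filter]
      exact ⟨fun h => h.2, fun h => ⟨Finset.mem_univ _, h⟩⟩
    rw [e1]
    by_cases hp : p₀ ≤ wend p q.1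
    · have h3 : (exn S q.2.1 : ℝ) * V (wend p q.1) ≤ (exn S q.2.1 : ℝ) * 1 :=
        mul_le_mul_of_nonneg_left (h2 _ hp) (Nat.cast_nonneg _)
      have h4 : 0 ≤ (p₀ : ℝ) * V₁ := mul_nonneg (Nat.cast_nonneg _) hV₁
      linarith
    · have h3 : exn S q.2.1 ≤ p₀ := (exn_le hS hr).trans (by omega)
      have h4 : (exn S q.2.1 : ℝ) * V (wend p q.1) ≤ p₀ * V₁ :=
        mul_le_mul (by exact_mod_cast h3) (h1 _) (h0 _) (Nat.cast_nonneg _)
      have h5 : (0 : ℝ) ≤ (exn S q.2.1 : ℝ) := Nat.cast_nonneg _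
      linarith
  calc _ ≤ ∑ q ∈ Q, nwt X F q.1 * ((exn S q.2.1 : ℝ) + p₀ * V₁) :=
        Finset.sum_le_sum fun q hq => mul_le_mul_of_nonneg_left (key q hq) (nwt_nonneg hX _ _)
    _ = ∑ q ∈ Q, nwt X F q.1 * (exn S q.2.1 : ℝ) + (∑ q ∈ Q, nwt X F q.1) * (p₀ * V₁) := by
        rw [Finset.sum_mul, ← Finset.sum_add_distrib]
        exact Finset.sum_congr rfl fun q _ => by ring
    _ ≤ ∑ q ∈ Q, nwt X F q.1 * (exn S q.2.1 : ℝ) + 1 * (p₀ * V₁) := by
        have h3 := mul_le_mul_of_nonneg_right (end_mass hX hS Q hQ) (mul_nonneg (Nat.cast_nonneg p₀) hV₁)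
        linarith
    _ = _ := by rw [one_mul]

end SYS.NS
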