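import Pool.Agent.SYS.NS.Defs
import Pool.Agent.SYS.Reg.Loc

/-!
# SYS-NS-SmA: small words do not absorb far darts

PLAN.
* `small_abs`: `σ h Z' z' := if nx S x Z' = some d with d ∈ Z'.B, Z'.s.SameCycle z' d and d ∉ S.R then d else z'` (`Rul`, and `hg` of `Reg/Loc.loc_run`).  A run `BR (nx S x) S x w X' x'` is a run `RchG σ [] S x w X' g`, `g` = `σ`-value at the end (induction; the first gate is `x` (`hB.st`), later gates are not `x` (`x` is glued) so they are new by `hB.bok.gate`).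
  `loc_run` (`wk w ≤ W`, `2 W + 1 < S.per x`) gives `LRch`, hence the run is local: `LBR (nx S x) S x W S x w X' x'` (induction again, same steps), and `br_of_lbr` (`PX/LocB`) gives `¬ Abs`.
-/

namespace SYS.NS

open Classical SST SYS.Num SYS.Part

/-- the rule of the block restricted to new gates -/
private noncomputable def sma_rule {D : Type} [Finite D] (b : Part D → Option D) (S : Part D) (_ : List Stp) (Z : Part D)
    (z : D) : D :=
  if h : ∃ d, b Z = some d ∧ d ∈ Z.B ∧ Z.s.SameCycle z d ∧ d ∉ S.R then h.choose else z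

private theorem sma_of {D : Type} [Finite D] {b : Part D → Option D} {S Z : Part D} {h : List Stp} {z d : D}
    (hb : b Z = some d) (hd : d ∈ Z.B) (hz : Z.s.SameCycle z d) (hn : d ∉ S.R) : sma_rule b S h Z z = d := by
  have h1 : ∃ d, b Z = some d ∧ d ∈ Z.B ∧ Z.s.SameCycle z d ∧ d ∉ S.R := ⟨d, hb, hd, hz, hn⟩
  unfold sma_rule
  rw [dif_pos h1]
  exact (Option.some.inj (hb.symm.trans h1.choose_spec.1)).symm

private theorem sma_rul {D : Type} [Finite D] (b : Part D → Option D) (S : Part D) : Rul (sma_rule b S) := by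
  intro h Z z hz
  unfold sma_rule
  by_cases h1 : ∃ d, b Z = some d ∧ d ∈ Z.B ∧ Z.s.SameCycle z d ∧ d ∉ S.R
  · rw [dif_pos h1]
    exact ⟨h1.choose_spec.2.1, h1.choose_spec.2.2.1⟩
  · rw [dif_neg h1]
    exact ⟨hz, Equiv.Perm.SameCycle.refl _ _⟩

private theorem sma_new {D : Type} [Finite D] (b : Part D → Option D) (S : Part D) (h : List Stp) (Z : Part D) (z : D) :
    sma_rule b S h Z z = z ∨ sma_rule b S h Z z ∈ Z.R \ S.R := by
  unfold sma_rule
  by_cases h1 : ∃ d, b Z = some d ∧ d ∈ Z.B ∧ Z.s.SameCycle z d ∧ d ∉ S.R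
  · rw [dif_pos h1]
    exact Or.inr ⟨h1.choose_spec.2.1.1, h1.choose_spec.2.2.2⟩
  · rw [dif_neg h1]
    exact Or.inl rfl

private theorem sma_run {D : Type} [Finite D] {b : Part D → Option D} {S X' : Part D} {x x' : D}
    (hg : ∀ Z d, S.Sub Z → b Z = some d → d ∈ Z.B ∧ (d = x ∨ d ∈ Z.R \ S.R)) (w : List Stp) :
    ∀ (h : List Stp) (Z : Part D) (z : D), S.Sub Z → Z.a x ≠ x → BR b Z z w X' x' →
      RchG (sma_rule b S) h Z (sma_rule b S h Z z) w X' (sma_rule b S (h ++ w) X' x') := by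
  induction w with
  | nil =>
    rintro h Z z _ _ ⟨rfl, rfl⟩
    exact ⟨rfl, rfl⟩
  | cons s w ih =>
    rintro h Z z hs hx ⟨d, Z₁, z₁, hb, hd, hz, hst, hr⟩
    have hn : d ∉ S.R := by
      rcases (hg Z d hs hb).2 with h1 | h1
      · rw [h1] at hd
        exact absurd hd.2 hx
      · exact h1.2
    rw [sma_of hb hd hz hn]
    have hsub := (st_sub hst).1
    have h2 := ih (h ++ [s]) Z₁ z₁ (sub_trans hs hsub) (by rw [hsub.2 x hx]; exact hx) hr
    rw [List.append_assoc, List.singleton_append] at h2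
    exact ⟨Z₁, z₁, hst, h2⟩

private theorem sma_lbr {D : Type} [Finite D] {b : Part D → Option D} {S X' : Part D} {x x' g : D} {W : ℕ}
    (hg : ∀ Z d, S.Sub Z → b Z = some d → d ∈ Z.B ∧ (d = x ∨ d ∈ Z.R \ S.R)) (w : List Stp) :
    ∀ (h : List Stp) (Z : Part D) (z : D), S.Sub Z → Z.a x ≠ x → BR b Z z w X' x' →
      LRch (sma_rule b S) S x W h Z (sma_rule b S h Z z) w X' g → LBR b S x W Z z w X' x' := by
  induction w with
  | nil =>
    intro h Z z _ _ hr _
    exact hr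
  | cons s w ih =>
    rintro h Z z hs hx ⟨d, Z₁, z₁, hb, hd, hz, hst, hr⟩ ⟨Z₂, z₂, ⟨hst', hloc⟩, hl⟩
    have hn : d ∉ S.R := by
      rcases (hg Z d hs hb).2 with h1 | h1
      · rw [h1] at hd
        exact absurd hd.2 hx
      · exact h1.2
    rw [sma_of hb hd hz hn] at hst' hloc
    obtain ⟨rfl, rfl⟩ := st_unique hst hst' (br_sub hr) (rchg_sub (lrch_rchg hl))
    have hsub := (st_sub hst).1
    exact ⟨d, Z₁, z₁, hb, ⟨hst, hloc⟩,
      ih (h ++ [s]) Z₁ z₁ (sub_trans hs hsub) (by rw [hsub.2 x hx]; exact hx) hr hl⟩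

private theorem sma_per {D : Type} [Finite D] {S : Part D} {x : D} {l : List D} {p : ℕ} {P : List ℕ} {F κ : ℕ}
    (hS : S.Typ (x :: l) (p :: P) F κ) : S.per x = p := by
  have h := hS.per
  rw [List.map_cons] at h
  exact (List.cons_eq_cons.1 h).1

theorem small_abs {nx : ∀ {D : Type} [Finite D], Part D → D → Part D → Option D} {R₀ N : ℕ} (hB : BH nx R₀ N)
    {D : Type} [Finite D] {S X' : Part D} {x x' : D} {l : List D} {p : ℕ} {P : List ℕ} {F κ W : ℕ} {w : List Stp}
    (hS : S.Typ (x :: l) (p :: P) F κ) (hr : BR (nx S x) S x w X' x') (hw : wk w ≤ W) (hp : 2 * W + 1 < p) :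
    ¬ S.Abs x W X' := by
  have hx : x ∈ S.B := hS.hl.1 x List.mem_cons_self
  have hg : ∀ Z d, S.Sub Z → nx S x Z = some d → d ∈ Z.B ∧ (d = x ∨ d ∈ Z.R \ S.R) := hB.bok.gate S x hx
  have hl : LBR (nx S x) S x W S x w X' x' := by
    cases w with
    | nil => exact hr
    | cons s w =>
      obtain ⟨d, Z₁, z₁, hb, hd, hz, hst, hr⟩ := hr
      have hdx : d = x := by
        have h1 := hB.st S x hx
        rw [hb] at h1
        exact Option.some.inj h1
      subst hdx
      have hst1 := (st_strict hst).2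
      have hsub := (st_sub hst).1
      have h2 := sma_run hg w [s] Z₁ z₁ hsub hst1 hr
      have h3 : RchG (sma_rule (nx S d) S) [] S d (s :: w) X' (sma_rule (nx S d) S ([s] ++ w) X' x') :=
        ⟨Z₁, z₁, hst, h2⟩
      have h4 := loc_run (sma_rul (nx S d) S) (fun h S₁ z _ _ => sma_new (nx S d) S h S₁ z) hx hw
        (by rw [sma_per hS]; exact hp) h3
      obtain ⟨Z₂, z₂, ⟨hst', hloc⟩, hl⟩ := h4
      obtain ⟨rfl, rfl⟩ := st_unique hst hst' (br_sub hr) (rchg_sub (lrch_rchg hl))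
      exact ⟨d, Z₁, z₁, hb, ⟨hst, hloc⟩, sma_lbr hg w [s] Z₁ z₁ hsub hst1 hr hl⟩
  exact (br_of_lbr hS hp hg hl).2

end SYS.NS
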