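import Pool.Agent.SYS.NS.Defs

/-!
# SYS-NS-TreeGe: submartingales on the tree of a block

From every node `(w, Z, z)` there is a finite set `Q` of ends, reached by steps in `G`, with `ρ ^ (N - |w|) Φ Z ≤ ∑ nwt Φ`.
-/

namespace SYS.NS

open Classical SST SYS.Num SYS.Part

variable {D : Type} [Finite D] {b : Part D → Option D} {S : Part D} {x : D} {l : List D} {p : ℕ} {P : List ℕ} {F κ N : ℕ} {X ρ : ℝ}

private theorem tg_nil (X : ℝ) (F : ℕ) : nwt X F [] = 1 := by
  unfold nwt
  rw [wwt_nil, wvol_nil, Nat.mul_zero, Nat.descFactorial_zero, Nat.cast_one, div_one]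

private theorem tg_vol (s : Stp) : wvol [s] = s.vol := by
  rw [wvol_cons, wvol_nil, Nat.add_zero]

theorem tree_ge (hX : 0 < X) (hS : S.Typ (x :: l) (p :: P) F κ) (h0 : 0 ≤ ρ) (h1 : ρ ≤ 1) (Φ : Part D → ℝ) (hΦ : ∀ Z, 0 ≤ Φ Z)
    (G : Finset Stp)
    (hgate : ∀ (w : List Stp) (Z : Part D) (z d : D), BR b S x w Z z → b Z = some d → d ∈ Z.B ∧ Z.s.SameCycle z d)
    (hlen : ∀ (w : List Stp) (Z : Part D) (z d : D), BR b S x w Z z → b Z = some d → w.length < N)
    (hstep : ∀ (w : List Stp) (Z : Part D) (z d : D), BR b S x w Z z → (∀ s ∈ w, s ∈ G) → w ≠ [] → b Z = some d →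
      ∃ C : Finset (Stp × Part D × D), (∀ c ∈ C, Z.St d c.1 c.2.1 c.2.2 ∧ c.1 ∈ G) ∧
        ρ * Φ Z ≤ ∑ c ∈ C, nwt X (F - wvol w) [c.1] * Φ c.2.1)
    (w : List Stp) (Z : Part D) (z : D) (hr : BR b S x w Z z) (hw : ∀ s ∈ w, s ∈ G) (hw' : w ≠ []) :
    ∃ Q : Finset (List Stp × Part D × D), (∀ q ∈ Q, BR b Z z q.1 q.2.1 q.2.2 ∧ b q.2.1 = none ∧ ∀ s ∈ q.1, s ∈ G) ∧
      ρ ^ (N - w.length) * Φ Z ≤ ∑ q ∈ Q, nwt X (F - wvol w) q.1 * Φ q.2.1 := by
  obtain ⟨m, hm⟩ : ∃ m, N - w.length = m := ⟨_, rfl⟩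
  rw [hm]
  induction m generalizing w Z z with
  | zero =>
    cases hb : b Z with
    | none =>
      refine ⟨{([], Z, z)}, ?_, ?_⟩
      · intro q hq
        rw [Finset.mem_singleton] at hq
        subst hq
        exact ⟨⟨rfl, rfl⟩, hb, fun s hs => absurd hs List.not_mem_nil⟩
      · rw [Finset.sum_singleton, tg_nil, pow_zero]
    | some d =>
      exfalso
      have := hlen w Z z d hr hb
      omega
  | succ m ih =>
    cases hb : b Z with
    | none =>
      refine ⟨{([], Z, z)}, ?_, ?_⟩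
      · intro q hq
        rw [Finset.mem_singleton] at hq
        subst hq
        exact ⟨⟨rfl, rfl⟩, hb, fun s hs => absurd hs List.not_mem_nil⟩
      · rw [Finset.sum_singleton, tg_nil, one_mul]
        exact mul_le_of_le_one_left (hΦ Z) (pow_le_one₀ h0 h1)
    | some d =>
      obtain ⟨hd, hz⟩ := hgate w Z z d hr hb
      obtain ⟨C, hC, hCs⟩ := hstep w Z z d hr hw hw' hb
      have hnode : ∀ c ∈ C, BR b S x (w ++ [c.1]) c.2.1 c.2.2 := fun c hc =>
        br_append.2 ⟨Z, z, hr, d, c.2.1, c.2.2, hb, hd, hz, (hC c hc).1, rfl, rfl⟩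
      have key : ∀ c : Stp × Part D × D, ∃ Q : Finset (List Stp × Part D × D), c ∈ C →
          (∀ q ∈ Q, BR b c.2.1 c.2.2 q.1 q.2.1 q.2.2 ∧ b q.2.1 = none ∧ ∀ s ∈ q.1, s ∈ G) ∧
          ρ ^ m * Φ c.2.1 ≤ ∑ q ∈ Q, nwt X (F - wvol (w ++ [c.1])) q.1 * Φ q.2.1 := by
        intro c
        by_cases hc : c ∈ C
        · obtain ⟨Q, hQ⟩ := ih (w ++ [c.1]) c.2.1 c.2.2 (hnode c hc) (by
            intro s hs
            rcases List.mem_append.1 hs with h | h
            · exact hw s h
            · rw [List.mem_singleton] at h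
              rw [h]
              exact (hC c hc).2) (by simp) (by
            rw [List.length_append, List.length_singleton]
            omega)
          exact ⟨Q, fun _ => hQ⟩
        · exact ⟨∅, fun h => absurd h hc⟩
      choose Qc hQc using key
      obtain ⟨hokw, F', hF', hT⟩ := br_typ hS hr
      have hT' := typ_repl hT hd hz
      have hvol : ∀ c ∈ C, wvol [c.1] ≤ F - wvol w := by
        intro c hc
        obtain ⟨-, F'', hF'', -⟩ := st_typ hT' (hC c hc).1
        rw [tg_vol]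
        omega
      have hinj : ∀ c : Stp × Part D × D, Function.Injective
          (fun q : List Stp × Part D × D => ((c.1 :: q.1, q.2) : List Stp × Part D × D)) := by
        intro c q q' hqq
        have e1 : c.1 :: q.1 = c.1 :: q'.1 := (Prod.ext_iff.1 hqq).1
        have e2 : q.2 = q'.2 := (Prod.ext_iff.1 hqq).2
        exact Prod.ext (List.cons_eq_cons.1 e1).2 e2
      have hdis : (C : Set (Stp × Part D × D)).PairwiseDisjoint
          (fun c => (Qc c).image (fun q : List Stp × Part D × D =>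
            ((c.1 :: q.1, q.2) : List Stp × Part D × D))) := by
        intro c hc c' hc' hne
        rw [Function.onFun, Finset.disjoint_left]
        intro q hq hq'
        obtain ⟨q1, hq1, rfl⟩ := Finset.mem_image.1 hq
        obtain ⟨q2, hq2, hqq⟩ := Finset.mem_image.1 hq'
        have e1 : c'.1 :: q2.1 = c.1 :: q1.1 := (Prod.ext_iff.1 hqq).1
        have e2 : q2.2 = q1.2 := (Prod.ext_iff.1 hqq).2
        have e3 : c'.1 = c.1 := (List.cons_eq_cons.1 e1).1
        have g1 := br_sub ((hQc c hc).1 q1 hq1).1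
        have g2 := br_sub ((hQc c' hc').1 q2 hq2).1
        rw [e2] at g2
        have g3 := (hC c hc).1
        have g4 := (hC c' hc').1
        rw [e3] at g4
        obtain ⟨g5, g6⟩ := st_unique g3 g4 g1 g2
        exact hne (Prod.ext e3.symm (Prod.ext g5 g6))
      refine ⟨C.biUnion fun c => (Qc c).image (fun q : List Stp × Part D × D =>
            ((c.1 :: q.1, q.2) : List Stp × Part D × D)), ?_, ?_⟩
      · intro q hq
        obtain ⟨c, hc, hq⟩ := Finset.mem_biUnion.1 hq
        obtain ⟨q1, hq1, rfl⟩ := Finset.mem_image.1 hq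
        obtain ⟨g1, g2, g3⟩ := (hQc c hc).1 q1 hq1
        refine ⟨⟨d, c.2.1, c.2.2, hb, hd, hz, (hC c hc).1, g1⟩, g2, ?_⟩
        intro s hs
        rcases List.mem_cons.1 hs with h | h
        · rw [h]
          exact (hC c hc).2
        · exact g3 s h
      · rw [Finset.sum_biUnion hdis]
        have e1 : ∀ c ∈ C, ∑ q ∈ (Qc c).image (fun q : List Stp × Part D × D =>
            ((c.1 :: q.1, q.2) : List Stp × Part D × D)), nwt X (F - wvol w) q.1 * Φ q.2.1 =
            nwt X (F - wvol w) [c.1] * ∑ q ∈ Qc c, nwt X (F - wvol (w ++ [c.1])) q.1 * Φ q.2.1 := by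
          intro c hc
          rw [Finset.sum_image fun q _ q' _ h => hinj c h, Finset.mul_sum]
          refine Finset.sum_congr rfl fun q _ => ?_
          have e2 := nwt_append X (F - wvol w) [c.1] q.1 (hvol c hc)
          have e3 : F - wvol (w ++ [c.1]) = F - wvol w - wvol [c.1] := by
            rw [wvol_append]
            omega
          rw [e3, ← mul_assoc, ← e2]
          rfl
        rw [Finset.sum_congr rfl e1]
        calc ρ ^ (m + 1) * Φ Z = ρ ^ m * (ρ * Φ Z) := by ring
          _ ≤ ρ ^ m * ∑ c ∈ C, nwt X (F - wvol w) [c.1] * Φ c.2.1 :=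
            mul_le_mul_of_nonneg_left hCs (pow_nonneg h0 m)
          _ = ∑ c ∈ C, nwt X (F - wvol w) [c.1] * (ρ ^ m * Φ c.2.1) := by
            rw [Finset.mul_sum]
            exact Finset.sum_congr rfl fun c _ => by ring
          _ ≤ _ := Finset.sum_le_sum fun c hc =>
            mul_le_mul_of_nonneg_left (hQc c hc).2 (nwt_nonneg hX _ _)

end SYS.NS
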