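import Pool.Agent.SYS.NS.StepG
import Pool.Agent.SYS.NS.TreeGe
import Pool.Agent.SYS.NS.BaseX
import Pool.Agent.SYS.NS.SmA

/-!
# SYS-NS-N1: the growth number is exponentially large

PLAN.
* `n1_aux`: base of `exists_base` with `p ≥ (N + 2) * (2 * (v + 2)) + 10`, `F ≥ (N + 2) * (v + 2)` (type `[x] [p] F 0`, `l = []`).  `x ∈ S.B`.  `T` children of the root: `{q | S.St x .T q.1 q.2}`, their number times `nwt X F [.T]` is `AA X` (`stp_card`), each has `Val = 2 lam ^ R` (`val_root`).  For such a child `(Z, z)`: `BR (nx S x) S x [.T] Z z` (`hB.st`), and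
  `tree_ge` with `Φ Z = Val (lam X) R (lv S x Z) S Z` (`≥ 0`), `G = Gv v`, `ρ = max 0 (1 - 2 tau X v)` (then `ρ ≤ 1` by `tau_nonneg`; `hstep` from `step_ge`: if `1 - 2 tau < 0` take `C = ∅`; the conditions `v + 3 ≤ wend p w`, `wvol w + v + 1 ≤ F` from `hB.act`: `w.length < N`, `wk_le`, `wvol_le`, `wend_ge`), from the node `([.T], Z, z)`:
  a set `Q_Z` of ends.  The union over `Z` of the images under `q ↦ (.T :: q.1, q.2)` is disjoint (`st_unique` as in `TreeGe`) and consists of ends of the block over `S, x` with at most `N` steps in `Gv v`, so `¬ Abs x W` with `W = N * (v + 2)` (`small_abs`, `wk_le`; `hB.bok.len`).  `nwt X F (.T :: q.1) = nwt X F [.T] * nwt X (F - 1) q.1`.  At the ends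
  `Val = exn` (`val_end`).  So the value `∑ nwt * exn ∈ gSet` is at least `ρ ^ N * AA X * 2 lam ^ R ≥ ρ ^ N * lam ^ R` (`AA_gt`), `le_csSup` with `gB_bdd`.
* `n1`: `v → ∞`: `tau_lim`, `ρ ^ N → 1`, `ge_of_tendsto'`.
-/

namespace SYS.NS

open Classical SST SYS.Num SYS.Part

variable {nx : ∀ {D : Type} [Finite D], Part D → D → Part D → Option D} {R₀ N R : ℕ}
  {lv : ∀ {D : Type} [Finite D], Part D → D → Part D → D → ℕ} {X : ℝ}

private theorem n1_val_nonneg {D : Type} [Finite D] {a : ℝ} (ha : 0 ≤ a) (R : ℕ) (f : D → ℕ) (S Z : Part D) :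
    0 ≤ Val a R f S Z :=
  finsum_nonneg fun _ => finsum_nonneg fun _ => pow_nonneg ha _

/-- all small ends over one child of the root -/
private theorem n1_child (hX : 0 < X) (hB : BH nx R₀ N) (hL : Lv nx R lv) (v : ℕ) {D : Type} [Finite D] {S Z : Part D}
    {x z : D} {l : List D} {p : ℕ} {P : List ℕ} {F κ : ℕ} (hS : S.Typ (x :: l) (p :: P) F κ)
    (hp : (N + 2) * (2 * (v + 2)) + 10 ≤ p) (hF : (N + 2) * (v + 2) ≤ F) (hst : S.St x .T Z z) :
    ∃ Q : Finset (List Stp × Part D × D), (∀ q ∈ Q, BR (nx S x) Z z q.1 q.2.1 q.2.2 ∧ nx S x q.2.1 = none ∧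
        ∀ s ∈ q.1, s ∈ Gv v) ∧
      (max 0 (1 - 2 * tau X v)) ^ (N - 1) * (2 * lam X ^ R) ≤ ∑ q ∈ Q, nwt X (F - 1) q.1 * (exn S q.2.1 : ℝ) := by
  have hx : x ∈ S.B := hS.hl.1 x List.mem_cons_self
  have ha : 1 < lam X := lam_one hX
  have h0 : (0 : ℝ) ≤ max 0 (1 - 2 * tau X v) := le_max_left _ _
  have h1 : max 0 (1 - 2 * tau X v) ≤ 1 := by
    have := tau_nonneg hX v
    exact max_le zero_le_one (by linarith)
  have hT : Stp.T ∈ Gv v := mem_Gv.2 (Or.inl rfl)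
  have hr0 : BR (nx S x) S x [.T] Z z := ⟨x, Z, z, hB.st S x hx, hx, Equiv.Perm.SameCycle.refl _ _, hst, rfl, rfl⟩
  obtain ⟨Q, hQ, hsum⟩ := tree_ge (b := nx S x) (N := N) hX hS h0 h1 (fun Z => Val (lam X) R (lv S x Z) S Z)
    (fun Z => n1_val_nonneg (by linarith) _ _ _ _) (Gv v)
    (fun w Z z d hr hd => ⟨(hB.bok.gate S x hx Z d (br_sub hr) hd).1, hB.hole S x w Z z d hx hr hd⟩)
    (fun w Z z d hr hd => hB.act S x w Z z d hx hr hd)
    (by
      intro w Z z d hr hw hw' hd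
      rcases le_or_gt 0 (1 - 2 * tau X v) with h | h
      · rw [max_eq_right h]
        have hlen := hB.act S x w Z z d hx hr hd
        have hk := wk_le hw
        have hv := wvol_le hw
        have he := wend_ge (p := p) w
        have h2 : w.length * (v + 2) ≤ N * (v + 2) := Nat.mul_le_mul_right _ hlen.le
        have h3 : w.length * (v + 1) ≤ N * (v + 2) := Nat.mul_le_mul hlen.le (by omega)
        have h4 : (N + 2) * (v + 2) = N * (v + 2) + 2 * (v + 2) := by ring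
        have h5 : (N + 2) * (2 * (v + 2)) = 2 * (N * (v + 2)) + 4 * (v + 2) := by ring
        exact step_ge hX hB hL hS hr hw' hd (by omega) (by omega)
      · refine ⟨∅, fun c hc => absurd hc (Finset.notMem_empty c), ?_⟩
        rw [max_eq_left h.le, zero_mul, Finset.sum_empty])
    [.T] Z z hr0 (by
      intro s hs
      rw [List.mem_singleton.1 hs]
      exact hT) (by simp)
  refine ⟨Q, hQ, ?_⟩
  have e1 : wvol [Stp.T] = 1 := rfl
  rw [e1] at hsum
  have e2 : ([Stp.T] : List Stp).length = 1 := rfl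
  rw [e2] at hsum
  simp only [val_root hL hx hst] at hsum
  refine hsum.trans (le_of_eq (Finset.sum_congr rfl fun q hq => ?_))
  obtain ⟨h2, h3, -⟩ := hQ q hq
  have hr : BR (nx S x) S x (.T :: q.1) q.2.1 q.2.2 :=
    ⟨x, Z, z, hB.st S x hx, hx, Equiv.Perm.SameCycle.refl _ _, hst, h2⟩
  rw [val_end hL hx hr (by simp) h3]

theorem n1_aux (hX : 0 < X) (hB : BH nx R₀ N) (hL : Lv nx R lv) (v : ℕ) :
    (max 0 (1 - 2 * tau X v)) ^ N * lam X ^ R ≤ gB nx X := by
  obtain ⟨n, S, x, p, F, hS, hp, hF⟩ := exists_base ((N + 2) * (2 * (v + 2)) + 10) ((N + 2) * (v + 2))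
  have hx : x ∈ S.B := hS.hl.1 x List.mem_cons_self
  have hT : Stp.T ∈ Gv v := mem_Gv.2 (Or.inl rfl)
  have ha : 1 < lam X := lam_one hX
  have h0 : (0 : ℝ) ≤ max 0 (1 - 2 * tau X v) := le_max_left _ _
  have h1 : max 0 (1 - 2 * tau X v) ≤ 1 := by
    have := tau_nonneg hX v
    exact max_le zero_le_one (by linarith)
  have hF1 : 1 ≤ F := by
    have : (N + 2) * (v + 2) = N * (v + 2) + 2 * (v + 2) := by ring
    omega
  -- the children of the root
  obtain ⟨C, hC⟩ : ∃ C : Finset (Part (Fin (6 * n)) × Fin (6 * n)),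
      C = (Set.toFinite {q : Part (Fin (6 * n)) × Fin (6 * n) | S.St x .T q.1 q.2}).toFinset := ⟨_, rfl⟩
  have hCm : ∀ c, c ∈ C ↔ S.St x .T c.1 c.2 := by
    intro c
    rw [hC, Set.Finite.mem_toFinset]
    exact Iff.rfl
  have hCc : (C.card : ℝ) * nwt X F [.T] = AA X := by
    have h2 := stp_card (X := X) (s := .T) hS trivial (show Stp.T.vol ≤ F from hF1)
    rw [hC, ← Set.ncard_eq_toFinset_card]
    exact h2
  have hex : ∀ c ∈ C, ∃ Q : Finset (List Stp × Part (Fin (6 * n)) × Fin (6 * n)),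
      (∀ q ∈ Q, BR (nx S x) c.1 c.2 q.1 q.2.1 q.2.2 ∧ nx S x q.2.1 = none ∧ ∀ s ∈ q.1, s ∈ Gv v) ∧
      (max 0 (1 - 2 * tau X v)) ^ (N - 1) * (2 * lam X ^ R) ≤ ∑ q ∈ Q, nwt X (F - 1) q.1 * (exn S q.2.1 : ℝ) :=
    fun c hc => n1_child hX hB hL v hS hp hF ((hCm c).1 hc)
  choose! Qf hQf hsum using hex
  obtain ⟨g, hg⟩ : ∃ g : List Stp × Part (Fin (6 * n)) × Fin (6 * n) → List Stp × Part (Fin (6 * n)) × Fin (6 * n),
      g = fun q => (.T :: q.1, q.2) := ⟨_, rfl⟩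
  have hginj : Function.Injective g := by
    intro a b hab
    rw [hg] at hab
    have h2 := Prod.ext_iff.1 hab
    exact Prod.ext (List.cons.inj h2.1).2 h2.2
  have hdisj : ∀ c ∈ C, ∀ c' ∈ C, c ≠ c' → Disjoint ((Qf c).image g) ((Qf c').image g) := by
    intro c hc c' hc' hne
    rw [Finset.disjoint_left]
    intro q hq hq'
    obtain ⟨q1, hq1, rfl⟩ := Finset.mem_image.1 hq
    obtain ⟨q2, hq2, h2⟩ := Finset.mem_image.1 hq'
    have h3 := hginj h2
    subst h3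
    have h4 := br_sub (hQf c hc q2 hq1).1
    have h5 := br_sub (hQf c' hc' q2 hq2).1
    obtain ⟨h6, h7⟩ := st_unique ((hCm c).1 hc) ((hCm c').1 hc') h4 h5
    exact hne (Prod.ext h6 h7)
  obtain ⟨W, hW⟩ : ∃ W : ℕ, W = N * (v + 2) := ⟨_, rfl⟩
  have e5 : (N + 2) * (2 * (v + 2)) = 2 * W + 4 * (v + 2) := by rw [hW]; ring
  have hend : ∀ q ∈ C.biUnion (fun c => (Qf c).image g), BEnd (nx S x) S x q ∧ ¬ S.Abs x W q.2.1 := by
    intro q hq
    obtain ⟨c, hc, hq⟩ := Finset.mem_biUnion.1 hq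
    obtain ⟨q1, hq1, rfl⟩ := Finset.mem_image.1 hq
    obtain ⟨h2, h3, h4⟩ := hQf c hc q1 hq1
    rw [hg]
    have hr : BR (nx S x) S x (.T :: q1.1) q1.2.1 q1.2.2 :=
      ⟨x, c.1, c.2, hB.st S x hx, hx, Equiv.Perm.SameCycle.refl _ _, (hCm c).1 hc, h2⟩
    have he : BEnd (nx S x) S x (.T :: q1.1, q1.2) := ⟨hr, h3⟩
    refine ⟨he, ?_⟩
    have hw : ∀ s ∈ (Stp.T :: q1.1), s ∈ Gv v := by
      intro s hs
      rcases List.mem_cons.1 hs with rfl | hs
      · exact hT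
      · exact h4 s hs
    have hlen : (Stp.T :: q1.1).length ≤ N := hB.bok.len S x _ hx he
    exact small_abs hB hS hr ((wk_le hw).trans (by rw [hW]; exact Nat.mul_le_mul_right _ hlen)) (by omega)
  have hup := gB_up hX hB.bok hS (W := W) (by omega) _ hend
  refine le_trans ?_ hup
  rw [Finset.sum_biUnion hdisj]
  have hterm : ∀ c ∈ C, nwt X F [.T] * ((max 0 (1 - 2 * tau X v)) ^ (N - 1) * (2 * lam X ^ R)) ≤
      ∑ q ∈ (Qf c).image g, nwt X F q.1 * (exn S q.2.1 : ℝ) := by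
    intro c hc
    rw [Finset.sum_image fun a _ b _ hab => hginj hab]
    calc nwt X F [.T] * ((max 0 (1 - 2 * tau X v)) ^ (N - 1) * (2 * lam X ^ R)) ≤
          nwt X F [.T] * ∑ q ∈ Qf c, nwt X (F - 1) q.1 * (exn S q.2.1 : ℝ) :=
          mul_le_mul_of_nonneg_left (hsum c hc) (nwt_nonneg hX _ _)
      _ = ∑ q ∈ Qf c, nwt X F (g q).1 * (exn S (g q).2.1 : ℝ) := by
          rw [Finset.mul_sum]
          refine Finset.sum_congr rfl fun q _ => ?_
          rw [hg]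
          have h2 := nwt_append X F [.T] q.1 hF1
          have e1 : wvol [Stp.T] = 1 := rfl
          rw [e1, List.singleton_append] at h2
          show nwt X F [.T] * (nwt X (F - 1) q.1 * (exn S q.2.1 : ℝ)) = nwt X F (.T :: q.1) * (exn S q.2.1 : ℝ)
          rw [h2, mul_assoc]
  refine le_trans ?_ (Finset.sum_le_sum hterm)
  rw [Finset.sum_const, nsmul_eq_mul, ← mul_assoc, hCc]
  have hA := AA_gt X
  have hpow : (max 0 (1 - 2 * tau X v)) ^ N ≤ (max 0 (1 - 2 * tau X v)) ^ (N - 1) :=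
    pow_le_pow_of_le_one h0 h1 (Nat.sub_le N 1)
  have hl : 0 ≤ lam X ^ R := pow_nonneg (by linarith) _
  have hq : 0 ≤ (max 0 (1 - 2 * tau X v)) ^ (N - 1) * lam X ^ R := mul_nonneg (pow_nonneg h0 _) hl
  have h2 : (max 0 (1 - 2 * tau X v)) ^ N * lam X ^ R ≤ (max 0 (1 - 2 * tau X v)) ^ (N - 1) * lam X ^ R :=
    mul_le_mul_of_nonneg_right hpow hl
  nlinarith

theorem n1 (hX : 0 < X) (hB : BH nx R₀ N) (hL : Lv nx R lv) : lam X ^ R ≤ gB nx X := by
  have h1 : Filter.Tendsto (fun v : ℕ => (max 0 (1 - 2 * tau X v)) ^ N * lam X ^ R) Filter.atTop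
      (nhds ((max 0 (1 - 2 * 0)) ^ N * lam X ^ R)) := by
    refine Filter.Tendsto.mul_const _ (Filter.Tendsto.pow ?_ _)
    exact tendsto_const_nhds.max (tendsto_const_nhds.sub ((tau_lim hX).const_mul 2))
  have h2 : (max (0 : ℝ) (1 - 2 * 0)) ^ N * lam X ^ R = lam X ^ R := by
    rw [mul_zero, sub_zero, max_eq_right zero_le_one, one_pow, one_mul]
  rw [h2] at h1
  exact le_of_tendsto' h1 fun v => n1_aux hX hB hL v

end SYS.NS
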