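import Pool.Agent.SYS.NS.Defs

/-!
# SYS-NS-ParA: the sizes of the block

PLAN.  `Ar Λ μ Q ≤ 2 Λ Q / μ + 1` (`Nat.ceil_lt_add_one`), so `R0 Λ μ Q ≤ a (Q + 1)` with `a = 2 Λ / μ + 1`.
* `par_K`: `KK = 9 * 2 ^ R0 ≤ exp (3 + a (Q + 1))` (`2 ≤ exp 1`: `Real.add_one_le_exp`, `Real.exp_nat_mul`; `9 ≤ exp 3`), `c₂ = a + 3`.
* `par_W`: the left side is `2 * 9 * 2^R0 * (4 * 2^R0 + 18 * 2^R0) * C * exp (-(c W)) = 396 C (2^R0)^2 exp (-(c W)) ≤ exp (log (396 C / ε) + 2 R0 - c W) ε`; `W = ⌈(|log (396 C / ε)| + 2 R0) / c⌉₊`, `W ≤ (|log (396 C / ε)| + 2 a (Q + 1)) / c + 1`.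
-/

namespace SYS.NS

open Classical SST SYS.Num SYS.Part

private theorem pa_R {μ : ℝ} (hμ : 0 < μ) (Λ Q : ℕ) : (R0 Λ μ Q : ℝ) ≤ (2 * Λ / μ + 1) * (Q + 1) := by
  have h1 : (Ar Λ μ Q : ℝ) ≤ 2 * ((Λ * Q : ℕ) : ℝ) / μ + 1 := by
    unfold Ar
    exact (Nat.ceil_lt_add_one (by positivity)).le
  unfold R0
  push_cast at h1 ⊢
  have h2 : (2 * (Λ : ℝ) / μ + 1) * (Q + 1) = 2 * ((Λ : ℝ) * Q) / μ + 2 * Λ / μ + Q + 1 := by
    field_simp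
    ring
  have h3 : 0 ≤ 2 * (Λ : ℝ) / μ := by positivity
  rw [h2]
  linarith

private theorem pa_two (n : ℕ) : (2 : ℝ) ^ n ≤ Real.exp n := by
  have h1 : (2 : ℝ) ≤ Real.exp 1 := by
    have := Real.add_one_le_exp (1 : ℝ)
    linarith
  have h2 : Real.exp n = Real.exp 1 ^ n := by
    rw [← Real.exp_nat_mul, mul_one]
  rw [h2]
  exact pow_le_pow_left₀ (by norm_num) h1 n

theorem par_K {μ : ℝ} (hμ : 0 < μ) (Λ : ℕ) : ∃ c₂ : ℝ, 0 < c₂ ∧ ∀ Q : ℕ, (KK Λ μ Q : ℝ) ≤ Real.exp (c₂ * (Q + 1)) := by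
  have ha : 0 ≤ 2 * (Λ : ℝ) / μ := by positivity
  refine ⟨2 * Λ / μ + 1 + 4, by positivity, fun Q => ?_⟩
  have h1 := pa_two (R0 Λ μ Q)
  have h2 := pa_two 4
  have h3 := pa_R hμ Λ Q
  unfold KK
  push_cast at h2 ⊢
  have h4 : (9 : ℝ) ≤ Real.exp 4 := by linarith
  calc (9 : ℝ) * 2 ^ R0 Λ μ Q ≤ Real.exp 4 * Real.exp (R0 Λ μ Q) := mul_le_mul h4 h1 (by positivity) (Real.exp_pos _).le
    _ = Real.exp (4 + R0 Λ μ Q) := (Real.exp_add _ _).symm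
    _ ≤ Real.exp ((2 * Λ / μ + 1 + 4) * (Q + 1)) := by
      apply Real.exp_le_exp.2
      have h5 : (0 : ℝ) ≤ Q := Nat.cast_nonneg _
      have h6 : (2 * (Λ : ℝ) / μ + 1 + 4) * (Q + 1) = (2 * Λ / μ + 1) * (Q + 1) + 4 * Q + 4 := by ring
      rw [h6]
      linarith

theorem par_W {μ c C ε : ℝ} (hμ : 0 < μ) (hc : 0 < c) (hC : 0 < C) (hε : 0 < ε) (Λ : ℕ) : ∃ c₁ : ℝ, 0 < c₁ ∧ ∀ Q : ℕ,
    ∃ W : ℕ, (W : ℝ) ≤ c₁ * (Q + 1) ∧
      2 * KK Λ μ Q * ((2 ^ (R0 Λ μ Q + 2) + 2 * KK Λ μ Q) * (C * Real.exp (-(c * W)))) ≤ ε := by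
  obtain ⟨l, hl⟩ : ∃ l, l = Real.log (396 * C / ε) := ⟨_, rfl⟩
  obtain ⟨a, ha⟩ : ∃ a, a = 2 * (Λ : ℝ) / μ + 1 := ⟨_, rfl⟩
  have ha0 : 0 < a := by
    rw [ha]
    positivity
  have hl0 : 0 ≤ |l| := abs_nonneg l
  refine ⟨(|l| + 2 * a) / c + 1, by positivity, fun Q => ⟨⌈(|l| + 2 * R0 Λ μ Q) / c⌉₊, ?_, ?_⟩⟩
  · have h1 : (⌈(|l| + 2 * R0 Λ μ Q) / c⌉₊ : ℝ) ≤ (|l| + 2 * R0 Λ μ Q) / c + 1 := (Nat.ceil_lt_add_one (by positivity)).le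
    have h2 := pa_R hμ Λ Q
    rw [← ha] at h2
    have hQ : (0 : ℝ) ≤ Q := Nat.cast_nonneg _
    have h3 : (|l| + 2 * R0 Λ μ Q) / c ≤ (|l| + 2 * a) / c * (Q + 1) := by
      rw [div_mul_eq_mul_div]
      apply div_le_div_of_nonneg_right _ hc.le
      have h4 : (|l| + 2 * a) * (Q + 1) = |l| * Q + |l| + 2 * (a * (Q + 1)) := by ring
      rw [h4]
      have h5 : 0 ≤ |l| * Q := mul_nonneg hl0 hQ
      linarith
    have h6 : ((|l| + 2 * a) / c + 1) * (Q + 1) = (|l| + 2 * a) / c * (Q + 1) + Q + 1 := by ring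
    rw [h6]
    linarith
  · obtain ⟨W, hW⟩ : ∃ W, W = ⌈(|l| + 2 * R0 Λ μ Q) / c⌉₊ := ⟨_, rfl⟩
    rw [← hW]
    obtain ⟨X, hX⟩ : ∃ X : ℝ, X = 2 ^ R0 Λ μ Q := ⟨_, rfl⟩
    have hX0 : 0 ≤ X := by
      rw [hX]
      positivity
    have h1 : X ≤ Real.exp (R0 Λ μ Q) := by
      rw [hX]
      exact pa_two _
    have h2 : (|l| + 2 * R0 Λ μ Q) ≤ c * W := by
      have h3 := Nat.le_ceil ((|l| + 2 * R0 Λ μ Q) / c)
      rw [← hW, div_le_iff₀ hc] at h3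
      linarith
    have h4 : 2 * (KK Λ μ Q : ℝ) * ((2 ^ (R0 Λ μ Q + 2) + 2 * KK Λ μ Q) * (C * Real.exp (-(c * W)))) =
        396 * C * (X * X) * Real.exp (-(c * W)) := by
      unfold KK
      push_cast
      rw [pow_add, ← hX]
      ring
    rw [h4]
    have h5 : X * X ≤ Real.exp (2 * R0 Λ μ Q) := by
      have h6 : Real.exp (2 * (R0 Λ μ Q : ℝ)) = Real.exp (R0 Λ μ Q) * Real.exp (R0 Λ μ Q) := by
        rw [← Real.exp_add]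
        congr 1
        ring
      rw [h6]
      exact mul_le_mul h1 h1 hX0 (Real.exp_pos _).le
    have hpos : 0 < 396 * C / ε := by positivity
    have h7 : 396 * C = Real.exp l * ε := by
      rw [hl, Real.exp_log hpos]
      field_simp
    calc 396 * C * (X * X) * Real.exp (-(c * W)) ≤ 396 * C * Real.exp (2 * R0 Λ μ Q) * Real.exp (-(c * W)) := by
          apply mul_le_mul_of_nonneg_right _ (Real.exp_pos _).le
          exact mul_le_mul_of_nonneg_left h5 (by positivity)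
      _ = ε * Real.exp (l + 2 * R0 Λ μ Q + -(c * W)) := by
          rw [h7, Real.exp_add, Real.exp_add]
          ring
      _ ≤ ε * 1 := by
          apply mul_le_mul_of_nonneg_left _ hε.le
          rw [← Real.exp_zero]
          apply Real.exp_le_exp.2
          have := le_abs_self l
          linarith
      _ = ε := mul_one ε

end SYS.NS
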