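import Pool.Agent.SYS.NS.N1
import Pool.Agent.SYS.NS.Blk
import Pool.Agent.SYS.NS.BlkL

/-!
# SYS-NS-PrmQ: the block with thickness `Q`

`prmQ Λ μ Q`: perimeter `Λ Q`, area `⌈2 Λ Q / μ⌉`, thickness `Q`, first phase up to the radius `Λ Q - 3`.  `gQ X Λ μ Q` = its growth number.

PLAN.
* `prmQ_ok`: `q = Q - 1 ≥ 1`; `J + 3 = Λ Q ≤ M`; `J + 1 ≤ A`: `Λ Q ≤ 2 Λ Q / μ ≤ A` (`Nat.le_ceil`).  `R0`, `K`: unfold (`Prm.R0 = A + q + 1`).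
* `gQ_ge`: `n1` with `bh_blk`, `lv_blk` (`J + 1 = Λ Q - 2`).  `gQ_exp`: `lam ^ (Λ Q - 2) = exp (log lam * (Λ Q - 2))`.
-/

namespace SYS.NS

open Classical SST SYS.Num SYS.Part

/-- The block with thickness `Q`. -/
noncomputable def prmQ (Λ : ℕ) (μ : ℝ) (Q : ℕ) : BK.Prm := ⟨Λ * Q, Ar Λ μ Q, Q - 1, Λ * Q - 3⟩

/-- Its growth number. -/
noncomputable def gQ (X : ℝ) (Λ : ℕ) (μ : ℝ) (Q : ℕ) : ℝ := gB (fun S f => BK.nxt (prmQ Λ μ Q) S f) X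

variable {X μ : ℝ} {Λ Q : ℕ}

theorem prmQ_ok (hμ : 0 < μ) (hμ1 : μ ≤ 1) (hΛ : 96 ≤ Λ) (hQ : 2 ≤ Q) : (prmQ Λ μ Q).Ok ∧
    (prmQ Λ μ Q).R0 = R0 Λ μ Q ∧ (prmQ Λ μ Q).K = KK Λ μ Q ∧ 2 * ((prmQ Λ μ Q).M : ℝ) ≤ μ * (prmQ Λ μ Q).A := by
  have h192 : 192 ≤ Λ * Q := by nlinarith
  have hA : 2 * ((Λ * Q : ℕ) : ℝ) / μ ≤ Ar Λ μ Q := Nat.le_ceil _
  have hA2 : 2 * ((Λ * Q : ℕ) : ℝ) ≤ μ * Ar Λ μ Q := by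
    rw [div_le_iff₀ hμ] at hA
    linarith
  have hA3 : Λ * Q ≤ Ar Λ μ Q := by
    have h1 : (0 : ℝ) ≤ ((Λ * Q : ℕ) : ℝ) := Nat.cast_nonneg _
    have h2 : (0 : ℝ) ≤ (Ar Λ μ Q : ℝ) := Nat.cast_nonneg _
    have h3 : ((Λ * Q : ℕ) : ℝ) ≤ (Ar Λ μ Q : ℝ) := by nlinarith
    exact_mod_cast h3
  have hR : (prmQ Λ μ Q).R0 = R0 Λ μ Q := by
    show Ar Λ μ Q + (Q - 1) + 1 = Ar Λ μ Q + Q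
    omega
  refine ⟨⟨?_, ?_, ?_⟩, hR, ?_, hA2⟩
  · show 1 ≤ Q - 1
    omega
  · show Λ * Q - 3 + 3 ≤ Λ * Q
    omega
  · show Λ * Q - 3 + 1 ≤ Ar Λ μ Q
    omega
  · show 9 * 2 ^ (prmQ Λ μ Q).R0 = 9 * 2 ^ R0 Λ μ Q
    rw [hR]

theorem prmQ_bh (hμ : 0 < μ) (hμ1 : μ ≤ 1) (hΛ : 96 ≤ Λ) (hQ : 2 ≤ Q) :
    BH (fun S f => BK.nxt (prmQ Λ μ Q) S f) (R0 Λ μ Q) (KK Λ μ Q) := by
  obtain ⟨h1, h2, h3, -⟩ := prmQ_ok hμ hμ1 hΛ hQ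
  have h := bh_blk h1
  rw [h2, h3] at h
  exact h

theorem gQ_ge (hX : 0 < X) (hμ : 0 < μ) (hμ1 : μ ≤ 1) (hΛ : 96 ≤ Λ) (hQ : 2 ≤ Q) : lam X ^ (Λ * Q - 2) ≤ gQ X Λ μ Q := by
  obtain ⟨h1, -, -, -⟩ := prmQ_ok hμ hμ1 hΛ hQ
  have h192 : 192 ≤ Λ * Q := by nlinarith
  have h2 := n1 hX (bh_blk h1) (lv_blk h1)
  have h3 : (prmQ Λ μ Q).J + 1 = Λ * Q - 2 := by
    show Λ * Q - 3 + 1 = Λ * Q - 2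
    omega
  rw [h3] at h2
  exact h2

theorem gQ_exp (hX : 0 < X) (hμ : 0 < μ) (hμ1 : μ ≤ 1) (hΛ : 96 ≤ Λ) (hQ : 2 ≤ Q) :
    Real.exp (Real.log (lam X) * ((Λ * Q : ℕ) - 2)) ≤ gQ X Λ μ Q := by
  have h192 : 192 ≤ Λ * Q := by nlinarith
  have hl : 0 < lam X := lt_trans one_pos (lam_one hX)
  have h1 := gQ_ge hX hμ hμ1 hΛ hQ
  have h2 : Real.exp (Real.log (lam X) * (((Λ * Q : ℕ) : ℝ) - 2)) = lam X ^ (Λ * Q - 2) := by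
    have h3 : (((Λ * Q : ℕ) : ℝ) - 2) = ((Λ * Q - 2 : ℕ) : ℝ) := by
      rw [Nat.cast_sub (by omega)]
      norm_num
    rw [h3, mul_comm, Real.exp_nat_mul, Real.exp_log hl]
  rw [h2]
  exact h1

end SYS.NS
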