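import Pool.Agent.SYS.NS.Defs

/-!
# SYS-NS-StepN: numbers for the steps in `Gv v`
-/

namespace SYS.NS

open Classical SST SYS.Num SYS.Part

theorem gv_sum {M : Type} [AddCommMonoid M] (v : ℕ) (f : Stp → M) : ∑ s ∈ Gv v, f s =
    f .T + (∑ z ∈ Finset.range (v + 1) ×ˢ Finset.range (v + 1), f (.L z.1 z.2) +
      ∑ z ∈ Finset.range (v + 1) ×ˢ Finset.range (v + 1), f (.R z.1 z.2)) := by
  unfold Gv
  rw [Finset.sum_union, Finset.sum_union, Finset.sum_singleton, Finset.sum_image, Finset.sum_image]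
  · intro z _ z' _ h
    simp only [Stp.R.injEq] at h
    exact Prod.ext h.1 h.2
  · intro z _ z' _ h
    simp only [Stp.L.injEq] at h
    exact Prod.ext h.1 h.2
  · rw [Finset.disjoint_left]
    intro s hs hs'
    obtain ⟨z, _, rfl⟩ := Finset.mem_image.1 hs
    obtain ⟨z', _, h⟩ := Finset.mem_image.1 hs'
    exact Stp.noConfusion h
  · rw [Finset.disjoint_left]
    intro s hs hs'
    rw [Finset.mem_singleton] at hs
    subst hs
    rcases Finset.mem_union.1 hs' with h | h
    · obtain ⟨z', _, h⟩ := Finset.mem_image.1 h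
      exact Stp.noConfusion h
    · obtain ⟨z', _, h⟩ := Finset.mem_image.1 h
      exact Stp.noConfusion h

theorem mem_Gv {v : ℕ} {s : Stp} : s ∈ Gv v ↔ s = .T ∨ ∃ k a, k ≤ v ∧ a ≤ v ∧ (s = .L k a ∨ s = .R k a) := by
  unfold Gv
  simp only [Finset.mem_union, Finset.mem_singleton, Finset.mem_image, Finset.mem_product, Finset.mem_range,
    Prod.exists]
  constructor
  · rintro (h | ⟨k, a, ⟨h1, h2⟩, h3⟩ | ⟨k, a, ⟨h1, h2⟩, h3⟩)
    · exact Or.inl h
    · exact Or.inr ⟨k, a, by omega, by omega, Or.inl h3.symm⟩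
    · exact Or.inr ⟨k, a, by omega, by omega, Or.inr h3.symm⟩
  · rintro (h | ⟨k, a, h1, h2, h3 | h3⟩)
    · exact Or.inl h
    · exact Or.inr (Or.inl ⟨k, a, ⟨by omega, by omega⟩, h3.symm⟩)
    · exact Or.inr (Or.inr ⟨k, a, ⟨by omega, by omega⟩, h3.symm⟩)

/-- Missing mass. -/
noncomputable def tau (X : ℝ) (v : ℕ) : ℝ :=
  (1 - AA X) / 2 - ∑ z ∈ Finset.range (v + 1) ×ˢ Finset.range (v + 1), qq X z.1 z.2

variable {X : ℝ}

theorem tau_nonneg (hX : 0 < X) (v : ℕ) : 0 ≤ tau X v := by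
  unfold tau
  have h := sum_le_hasSum (Finset.range (v + 1) ×ˢ Finset.range (v + 1))
    (fun z _ => qq_nonneg X z.1 z.2) (mass hX)
  linarith

theorem tau_lim (hX : 0 < X) : Filter.Tendsto (tau X) Filter.atTop (nhds 0) := by
  have h1 : Filter.Tendsto (fun v : ℕ => Finset.range (v + 1) ×ˢ Finset.range (v + 1)) Filter.atTop
      Filter.atTop := by
    apply Filter.tendsto_atTop_finset_of_monotone
    · intro a b hab
      apply Finset.product_subset_product <;>
      · apply Finset.range_subset_range.2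
        omega
    · intro z
      refine ⟨max z.1 z.2, ?_⟩
      rw [Finset.mem_product, Finset.mem_range, Finset.mem_range]
      exact ⟨Nat.lt_succ_of_le (le_max_left _ _), Nat.lt_succ_of_le (le_max_right _ _)⟩
  have h2 : Filter.Tendsto (fun s : Finset (ℕ × ℕ) => ∑ z ∈ s, qq X z.1 z.2) Filter.atTop
      (nhds ((1 - AA X) / 2)) := mass hX
  have h3 := (h2.comp h1).const_sub ((1 - AA X) / 2)
  rw [sub_self] at h3
  exact h3

theorem lam_one (hX : 0 < X) : 1 < lam X := by
  have h1 := dr_pos hX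
  have h2 := dr_lt hX
  unfold lam
  rw [one_lt_div (by linarith)]
  linarith

theorem step_bal (hX : 0 < X) (v : ℕ) : 0 ≤ AA X * (2 / lam X - 1) -
    2 * ∑ z ∈ Finset.range (v + 1) ×ˢ Finset.range (v + 1), ((z.1 : ℝ) + 2) * qq X z.1 z.2 := by
  have h1 := dr_pos hX
  have h2 := dr_lt hX
  have h3 := AA_gt X
  have h4 := sum_le_hasSum (Finset.range (v + 1) ×ˢ Finset.range (v + 1))
    (fun z _ => mul_nonneg (by positivity) (qq_nonneg X z.1 z.2)) (mean hX)
  have h5 : AA X * (2 / lam X - 1) = AA X - dr X := by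
    unfold lam
    have h6 : (2 * AA X - dr X) ≠ 0 := by linarith
    have h7 : AA X ≠ 0 := by linarith
    field_simp
    ring
  rw [h5]
  linarith

theorem stp_card {D : Type} [Finite D] {S : Part D} {d : D} {l : List D} {p : ℕ} {P : List ℕ} {F κ : ℕ} {s : Stp}
    (hS : S.Typ (d :: l) (p :: P) F κ) (hs : s.Ok p) (hv : s.vol ≤ F) :
    (({q : Part D × D | S.St d s q.1 q.2}.ncard : ℕ) : ℝ) * nwt X F [s] = s.wt (AA X) (qq X) := by
  have h1 : Rul (fun (_ : List Stp) (_ : Part D) (z : D) => z) :=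
    fun _ _ _ hz => ⟨hz, Equiv.Perm.SameCycle.refl _ _⟩
  have h2 := nwt_word (h := []) X h1 hS (w := [s]) ⟨hs, trivial⟩ (by
    rw [wvol_cons, wvol_nil, Nat.add_zero]
    exact hv)
  have h3 : {q : Part D × D | RchG (fun (_ : List Stp) (_ : Part D) (z : D) => z) [] S d [s] q.1 q.2} =
      {q : Part D × D | S.St d s q.1 q.2} := by
    ext q
    constructor
    · rintro ⟨S₁, z, hst, e1, e2⟩
      show S.St d s q.1 q.2
      rw [e1, e2]
      exact hst
    · intro hst
      exact ⟨q.1, q.2, hst, rfl, rfl⟩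
  rw [h3] at h2
  rw [h2]
  unfold PRW
  rw [wwt_cons, wwt_nil, mul_one]

end SYS.NS
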