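import Pool.Agent.SYS.NS.ValT
import Pool.Agent.SYS.NS.StepN

/-!
# SYS-NS-StepG: the step of the submartingale

All children by small steps, weighted.
-/

namespace SYS.NS

open Classical SST SYS.Num SYS.Part

variable {nx : ∀ {D : Type} [Finite D], Part D → D → Part D → Option D} {R₀ N R : ℕ}
  {lv : ∀ {D : Type} [Finite D], Part D → D → Part D → D → ℕ} {D : Type} [Finite D] {S Z Z' : Part D} {x z d z' : D}
  {w : List Stp} {l : List D} {p : ℕ} {P : List ℕ} {F κ : ℕ} {X : ℝ}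

/-- The change of the value, in units of the power at the gate. -/
private noncomputable def stepDl (a : ℝ) : Stp → ℝ
  | .T => 2 / a - 1
  | .L k _ => -((k : ℝ) + 2)
  | .R k _ => -((k : ℝ) + 2)

private theorem stepG_sum {X : ℝ} (hX : 0 < X) (v : ℕ) {V E : ℝ} (hE : 0 ≤ E) :
    (1 - 2 * tau X v) * V ≤ ∑ s ∈ Gv v, s.wt (AA X) (qq X) * (V + stepDl (lam X) s * E) := by
  rw [gv_sum]
  obtain ⟨Sq, hSq⟩ : ∃ Sq, Sq = ∑ z ∈ Finset.range (v + 1) ×ˢ Finset.range (v + 1), qq X z.1 z.2 :=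
    ⟨_, rfl⟩
  obtain ⟨S2, hS2⟩ : ∃ S2, S2 = ∑ z ∈ Finset.range (v + 1) ×ˢ Finset.range (v + 1),
    ((z.1 : ℝ) + 2) * qq X z.1 z.2 := ⟨_, rfl⟩
  have h1 : ∑ z ∈ Finset.range (v + 1) ×ˢ Finset.range (v + 1),
      qq X z.1 z.2 * (V + -((z.1 : ℝ) + 2) * E) = V * Sq - E * S2 := by
    rw [hSq, hS2, Finset.mul_sum, Finset.mul_sum, ← Finset.sum_sub_distrib]
    exact Finset.sum_congr rfl fun z _ => by ring
  have h2 : ∑ z ∈ Finset.range (v + 1) ×ˢ Finset.range (v + 1),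
      (Stp.L z.1 z.2).wt (AA X) (qq X) * (V + stepDl (lam X) (Stp.L z.1 z.2) * E) =
      V * Sq - E * S2 := h1
  have h3 : ∑ z ∈ Finset.range (v + 1) ×ˢ Finset.range (v + 1),
      (Stp.R z.1 z.2).wt (AA X) (qq X) * (V + stepDl (lam X) (Stp.R z.1 z.2) * E) =
      V * Sq - E * S2 := h1
  have h4 : Stp.T.wt (AA X) (qq X) * (V + stepDl (lam X) Stp.T * E) =
      AA X * (V + (2 / lam X - 1) * E) := rfl
  rw [h2, h3, h4]
  have h5 := step_bal hX v
  rw [← hS2] at h5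
  have h6 : tau X v = (1 - AA X) / 2 - Sq := by rw [hSq]; rfl
  rw [h6]
  have h7 := mul_nonneg hE h5
  nlinarith [h7]

theorem step_ge (hX : 0 < X) (hB : BH nx R₀ N) (hL : Lv nx R lv) (hS : S.Typ (x :: l) (p :: P) F κ) {v : ℕ}
    (hr : BR (nx S x) S x w Z z) (hw : w ≠ []) (hd : nx S x Z = some d) (hp : v + 3 ≤ wend p w) (hF : wvol w + v + 1 ≤ F) :
    ∃ C : Finset (Stp × Part D × D), (∀ c ∈ C, Z.St d c.1 c.2.1 c.2.2 ∧ c.1 ∈ Gv v) ∧
      (1 - 2 * tau X v) * Val (lam X) R (lv S x Z) S Z ≤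
        ∑ c ∈ C, nwt X (F - wvol w) [c.1] * Val (lam X) R (lv S x c.2.1) S c.2.1 := by
  have hx : x ∈ S.B := hS.hl.1 _ List.mem_cons_self
  have ha : 1 ≤ lam X := (lam_one hX).le
  obtain ⟨-, F', hF', hT⟩ := br_typ hS hr
  have hdB := (hB.bok.gate S x hx Z d (br_sub hr) hd).1
  have hcyc := hB.hole S x w Z z d hx hr hd
  have hT' : Z.Typ (d :: l) (wend p w :: P) (F - wvol w) κ := by
    have h1 : F - wvol w = F' := by omega
    rw [h1]
    exact typ_repl hT hdB hcyc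
  have hfin : ∀ s : Stp, {q : Part D × D | Z.St d s q.1 q.2}.Finite := fun s => Set.toFinite _
  obtain ⟨V, hV⟩ : ∃ V, V = Val (lam X) R (lv S x Z) S Z := ⟨_, rfl⟩
  obtain ⟨E, hE⟩ : ∃ E, E = lam X ^ (R - lv S x Z d) := ⟨_, rfl⟩
  have hE0 : 0 ≤ E := by
    rw [hE]
    exact pow_nonneg (by linarith) _
  have hval : ∀ s, ∀ q : Part D × D, Z.St d s q.1 q.2 →
      V + stepDl (lam X) s * E ≤ Val (lam X) R (lv S x q.1) S q.1 := by
    intro s q hq
    rw [hV, hE]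
    cases s with
    | T => exact val_T hB hL hx ha hr hw hd hq
    | L k u =>
      have h1 := val_L hB hL hx ha hr hw hd hq
      have h2 : stepDl (lam X) (Stp.L k u) = -((k : ℝ) + 2) := rfl
      rw [h2]
      linarith
    | R k u =>
      have h1 := val_R hB hL hx ha hr hw hd hq
      have h2 : stepDl (lam X) (Stp.R k u) = -((k : ℝ) + 2) := rfl
      rw [h2]
      linarith
  have hstep : ∀ s ∈ Gv v, s.wt (AA X) (qq X) * (V + stepDl (lam X) s * E) ≤
      ∑ q ∈ (hfin s).toFinset, nwt X (F - wvol w) [s] * Val (lam X) R (lv S x q.1) S q.1 := by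
    intro s hs
    have h1 : s.Ok (wend p w) ∧ s.vol ≤ F - wvol w := by
      rcases mem_Gv.1 hs with rfl | ⟨k, u, hk, hu, rfl | rfl⟩
      · exact ⟨trivial, by show 1 ≤ F - wvol w; omega⟩
      · exact ⟨by show k + 3 ≤ wend p w; omega, by show u ≤ F - wvol w; omega⟩
      · exact ⟨by show k + 3 ≤ wend p w; omega, by show u ≤ F - wvol w; omega⟩
    have h2 := stp_card (X := X) hT' h1.1 h1.2
    rw [Set.ncard_eq_toFinset_card _ (hfin s)] at h2
    rw [← h2]
    calc (((hfin s).toFinset.card : ℕ) : ℝ) * nwt X (F - wvol w) [s] * (V + stepDl (lam X) s * E)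
        = ∑ _q ∈ (hfin s).toFinset, nwt X (F - wvol w) [s] * (V + stepDl (lam X) s * E) := by
          rw [Finset.sum_const, nsmul_eq_mul, mul_assoc]
      _ ≤ _ := Finset.sum_le_sum fun q hq => mul_le_mul_of_nonneg_left
          (hval s q ((Set.Finite.mem_toFinset (hfin s)).1 hq)) (nwt_nonneg hX _ _)
  have hfin2 : {c : Stp × Part D × D | c.1 ∈ Gv v ∧ Z.St d c.1 c.2.1 c.2.2}.Finite := by
    refine Set.Finite.subset ((Gv v).finite_toSet.prod (Set.toFinite (Set.univ : Set (Part D × D))))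
      fun c hc => ⟨Finset.mem_coe.2 hc.1, Set.mem_univ _⟩
  refine ⟨hfin2.toFinset, fun c hc => ?_, ?_⟩
  · have h1 := (Set.Finite.mem_toFinset hfin2).1 hc
    exact ⟨h1.2, h1.1⟩
  · rw [Finset.sum_finset_product hfin2.toFinset (Gv v) (fun s => (hfin s).toFinset) (by
      intro c
      rw [Set.Finite.mem_toFinset, Set.Finite.mem_toFinset]
      exact Iff.rfl), ← hV]
    exact (stepG_sum hX v hE0).trans (Finset.sum_le_sum hstep)

end SYS.NS
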