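import Pool.Agent.SYS.NS.Defs

/-!
# SYS-NS-ValT: the value after one step

PLAN.  `A = {e | e ∈ Z.B ∧ e ∉ S.B}`, `A' = {e | e ∈ Z'.B ∧ e ∉ S.B}` (finite: `Set.toFinite`).  The gate `d` is in `Z.B` (`hB.bok.gate`, `br_sub`) and not `x` (after the first step `x ∉ Z.B`: `nxt S = x`, the first step glues `x`: `st_strict`, `Sub`; or: `Mon` applied to..; simplest: `Z.a x ≠ x` because `w ≠ []`, first step at
`x` by `hB.st`, `st_strict`, `br_sub`), so `d ∈ Z.R \ S.R`, `d ∉ S.B`, `d ∈ A`.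
* `val_T`: `face_B`: `Z'.B = (Z.B \ {d}) ∪ {t1, t2}`, `t1 ≠ t2`, `t1, t2 ∉ Z.R ⊇ S.R ⊇ S.B`.  `A' = (A \ {d}) ∪ {t1, t2}`, disjoint.  On `A \ {d}` the levels do not increase (`hL.mono`), so the powers do not decrease (`1 ≤ a`, `pow_le_pow_right₀`).  The two new terms are at least `a ^ (R - (lv d + 1)) ≥ a ^ (R - lv d) / a`
  (`hL.T`; if `R ≤ lv d` both exponents are `0` and `1 ≥ 1 / a`).
* `val_LR`: `Z'.B ⊆ Z.B` and `Z.B \ Z'.B` has at most `k + 2` elements (`d`, `y` and the swallowed word: `glue_B`, `FillBy.B` / `DiscFill`; compare `step_count` in `BK/LenB` or `BK/Len`).  `A' = A \ (lost)`; the terms of the lost darts are at most `a ^ (R - lv d)` (`hL.min`: `lv d ≤ lv e` or `R ≤ lv e`, then the term is `1`).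
Both sums as `Finset` sums: `finsum_mem_eq_finite_toFinset_sum`.
-/

namespace SYS.NS

open Classical SST SYS.Num SYS.Part

variable {nx : ∀ {D : Type} [Finite D], Part D → D → Part D → Option D} {R₀ N R : ℕ}
  {lv : ∀ {D : Type} [Finite D], Part D → D → Part D → D → ℕ} {D : Type} [Finite D] {S Z Z' : Part D} {x z d z' : D}
  {w : List Stp} {a : ℝ}

private noncomputable def vt_nb (S Z : Part D) : Finset D :=
  (Set.toFinite {e | e ∈ Z.B ∧ e ∉ S.B}).toFinset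

private theorem vt_mem {S Z : Part D} {e : D} : e ∈ vt_nb S Z ↔ e ∈ Z.B ∧ e ∉ S.B := by
  unfold vt_nb
  rw [Set.Finite.mem_toFinset]
  rfl

private theorem vt_val (a : ℝ) (R : ℕ) (l : D → ℕ) (S Z : Part D) :
    Val a R l S Z = ∑ e ∈ vt_nb S Z, a ^ (R - l e) := by
  unfold Val vt_nb
  exact finsum_mem_eq_finite_toFinset_sum _ (Set.toFinite _)

omit [Finite D] in
private theorem vt_R {S Z : Part D} (h : S.Sub Z) {e : D} (he : e ∈ S.R) : e ∈ Z.R := by
  have h1 : S.f e ≠ e := he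
  have h2 := h.1 e h1
  show Z.f e ≠ e
  rw [h2]
  exact h1

private theorem vt_gate (hB : BH nx R₀ N) (hx : x ∈ S.B) (hr : BR (nx S x) S x w Z z) (hw : w ≠ [])
    (hd : nx S x Z = some d) : d ∈ vt_nb S Z := by
  have hsub : S.Sub Z := br_sub hr
  obtain ⟨h1, h2⟩ := hB.bok.gate S x hx Z d hsub hd
  rw [vt_mem]
  refine ⟨h1, ?_⟩
  rcases h2 with h2 | h2
  · exfalso
    cases w with
    | nil => exact hw rfl
    | cons s w =>
      obtain ⟨d0, Z1, z1, g1, g2, g3, g4, g5⟩ := hr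
      have g6 : d0 = x := by
        have := hB.st S x hx
        rw [g1] at this
        exact Option.some.inj this
      subst g6
      have g7 := (st_sub g4).1
      have g8 : Z1.Sub Z := br_sub g5
      have g9 : Z1.a d0 ≠ d0 := (st_strict g4).2
      have g10 := g8.2 d0 g9
      rw [h2] at h1
      exact g9 (g10.symm.trans h1.2)
  · exact fun h3 => h2.2 (S.B_sub_R h3)

private theorem vt_pow {a : ℝ} (ha : 1 ≤ a) {p q : ℕ} (h : q ≤ p + 1) (R : ℕ) :
    a ^ (R - p) / a ≤ a ^ (R - q) := by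
  have ha0 : 0 < a := lt_of_lt_of_le one_pos ha
  rcases Nat.eq_zero_or_pos (R - p) with h1 | h1
  · rw [h1, pow_zero]
    have h2 : 1 / a ≤ 1 := by
      rw [div_le_one ha0]
      exact ha
    exact h2.trans (one_le_pow₀ ha)
  · obtain ⟨n, hn⟩ : ∃ n, R - p = n + 1 := ⟨R - p - 1, by omega⟩
    rw [hn, pow_succ, mul_div_assoc, div_self ha0.ne', mul_one]
    exact pow_le_pow_right₀ ha (by omega)

private theorem vt_df {U U' : Part D} {m : List D} {a : ℕ} (hf : U.DiscFill U' m a) :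
    U'.B ⊆ U.B ∧ ∀ e ∈ U.B, e ∉ m → e ∈ U'.B := by
  rcases hf with ⟨_, _, rfl⟩ | ⟨_, V, _, hf⟩
  · exact ⟨subset_rfl, fun e he _ => he⟩
  · rw [hf.B]
    exact ⟨fun e he => he.1, fun e he hm => ⟨he, hm⟩⟩

private theorem vt_gl {U U' : Part D} {y : D} {u v m : List D} {a : ℕ} (hx : x ∈ U.B) (hy : y ∈ U.B)
    (hw : U.hw x = x :: (u ++ y :: v)) (hf : (U.glue x y hx hy).DiscFill U' m a) :
    (∀ e ∈ U.B, e ∉ U'.B → e ∈ x :: y :: m) ∧ U'.B ⊆ U.B := by
  have hxy : x ≠ y := by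
    have hn := U.hw_nodup hx
    rw [hw, List.nodup_cons] at hn
    rintro rfl
    apply hn.1
    rw [List.mem_append, List.mem_cons]
    tauto
  obtain ⟨h1, h2⟩ := vt_df hf
  rw [glue_B _ _ _ hxy] at h1 h2
  refine ⟨?_, fun e he => (h1 he).1⟩
  intro e he he'
  rw [List.mem_cons, List.mem_cons]
  by_contra h4
  push Not at h4
  refine he' (h2 e ⟨he, ?_⟩ h4.2.2)
  rw [Set.mem_insert_iff, Set.mem_singleton_iff]
  tauto

/-- the common part of `val_L` and `val_R` -/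
private theorem vt_lose (hL : Lv nx R lv) (hx : x ∈ S.B) (ha : 1 ≤ a) (hr : BR (nx S x) S x w Z z) (hw : w ≠ [])
    (hd : nx S x Z = some d) {s : Stp} (hst : Z.St d s Z' z') {m : List D}
    (h1 : ∀ e ∈ Z.B, e ∉ Z'.B → e ∈ m) (h2 : Z'.B ⊆ Z.B) :
    Val a R (lv S x Z) S Z - (m.length : ℝ) * a ^ (R - lv S x Z d) ≤ Val a R (lv S x Z') S Z' := by
  rw [vt_val, vt_val]
  have ha0 : 0 < a := lt_of_lt_of_le one_pos ha
  have hsub : vt_nb S Z' ⊆ vt_nb S Z := by
    intro e he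
    rw [vt_mem] at he ⊢
    exact ⟨h2 he.1, he.2⟩
  rw [← Finset.sum_sdiff hsub]
  have g1 : ∑ e ∈ vt_nb S Z \ vt_nb S Z', a ^ (R - lv S x Z e) ≤
      (m.length : ℝ) * a ^ (R - lv S x Z d) := by
    have g2 : ∑ e ∈ vt_nb S Z \ vt_nb S Z', a ^ (R - lv S x Z e) ≤
        ∑ e ∈ vt_nb S Z \ vt_nb S Z', a ^ (R - lv S x Z d) := by
      refine Finset.sum_le_sum fun e he => ?_
      rw [Finset.mem_sdiff, vt_mem] at he
      apply pow_le_pow_right₀ ha
      rcases hL.min S x w Z z d e hx hr hw hd he.1.1 he.1.2 with h | h <;> omega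
    rw [Finset.sum_const, nsmul_eq_mul] at g2
    refine g2.trans ?_
    apply mul_le_mul_of_nonneg_right _ (pow_nonneg ha0.le _)
    have g3 : vt_nb S Z \ vt_nb S Z' ⊆ m.toFinset := by
      intro e he
      rw [Finset.mem_sdiff, vt_mem, vt_mem] at he
      rw [List.mem_toFinset]
      refine h1 e he.1.1 fun h => he.2 ⟨h, he.1.2⟩
    exact_mod_cast (Finset.card_le_card g3).trans (List.toFinset_card_le m)
  have g4 : ∑ e ∈ vt_nb S Z', a ^ (R - lv S x Z e) ≤ ∑ e ∈ vt_nb S Z', a ^ (R - lv S x Z' e) := by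
    refine Finset.sum_le_sum fun e he => ?_
    rw [vt_mem] at he
    apply pow_le_pow_right₀ ha
    have := hL.mono S x w Z z d s Z' z' e hx hr hw hd hst he.1 (h2 he.1) he.2
    omega
  linarith

theorem val_T (hB : BH nx R₀ N) (hL : Lv nx R lv) (hx : x ∈ S.B) (ha : 1 ≤ a) (hr : BR (nx S x) S x w Z z) (hw : w ≠ [])
    (hd : nx S x Z = some d) (hst : Z.St d .T Z' z') :
    Val a R (lv S x Z) S Z + (2 / a - 1) * a ^ (R - lv S x Z d) ≤ Val a R (lv S x Z') S Z' := by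
  have hsub : S.Sub Z := br_sub hr
  have hdm := vt_gate hB hx hr hw hd
  have ha0 : 0 < a := lt_of_lt_of_le one_pos ha
  have hst0 := hst
  obtain ⟨t0, t1, t2, hdB, h0, h1, h2, h01, h12, h20, hZ', hz'⟩ := hst
  have hB' : Z'.B = (Z.B \ {d}) ∪ {t1, t2} := by
    rw [hZ', face_B]
  have k1 : t1 ∉ Z.B := fun h => h1 (Z.B_sub_R h)
  have k2 : t2 ∉ Z.B := fun h => h2 (Z.B_sub_R h)
  have l1 : t1 ∉ S.B := fun h => h1 (vt_R hsub (S.B_sub_R h))
  have l2 : t2 ∉ S.B := fun h => h2 (vt_R hsub (S.B_sub_R h))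
  have m1 : t1 ∈ Z'.B := by
    rw [hB']
    exact Or.inr (Or.inl rfl)
  have m2 : t2 ∈ Z'.B := by
    rw [hB']
    exact Or.inr (Or.inr rfl)
  have hset : vt_nb S Z' = insert t1 (insert t2 ((vt_nb S Z).erase d)) := by
    ext e
    rw [Finset.mem_insert, Finset.mem_insert, Finset.mem_erase, vt_mem, vt_mem, hB']
    constructor
    · rintro ⟨he | he, he'⟩
      · exact Or.inr (Or.inr ⟨he.2, he.1, he'⟩)
      · rw [Set.mem_insert_iff, Set.mem_singleton_iff] at he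
        tauto
    · rintro (rfl | rfl | ⟨he, he1, he2⟩)
      · exact ⟨Or.inr (Or.inl rfl), l1⟩
      · exact ⟨Or.inr (Or.inr rfl), l2⟩
      · exact ⟨Or.inl ⟨he1, he⟩, he2⟩
  rw [vt_val, vt_val, hset]
  have n2 : t2 ∉ (vt_nb S Z).erase d := by
    rw [Finset.mem_erase, vt_mem]
    tauto
  have n1 : t1 ∉ insert t2 ((vt_nb S Z).erase d) := by
    rw [Finset.mem_insert, Finset.mem_erase, vt_mem]
    tauto
  rw [Finset.sum_insert n1, Finset.sum_insert n2, ← Finset.add_sum_erase _ _ hdm]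
  have e1 := vt_pow ha (hL.T S x w Z z d Z' z' t1 hx hr hw hd hst0 m1 k1) R
  have e2 := vt_pow ha (hL.T S x w Z z d Z' z' t2 hx hr hw hd hst0 m2 k2) R
  have e3 : ∑ e ∈ (vt_nb S Z).erase d, a ^ (R - lv S x Z e) ≤
      ∑ e ∈ (vt_nb S Z).erase d, a ^ (R - lv S x Z' e) := by
    refine Finset.sum_le_sum fun e he => ?_
    rw [Finset.mem_erase, vt_mem] at he
    apply pow_le_pow_right₀ ha
    have he' : e ∈ Z'.B := by
      rw [hB']
      exact Or.inl ⟨he.2.1, he.1⟩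
    have := hL.mono S x w Z z d .T Z' z' e hx hr hw hd hst0 he' he.2.1 he.2.2
    omega
  have e4 : (2 / a - 1) * a ^ (R - lv S x Z d) =
      2 * (a ^ (R - lv S x Z d) / a) - a ^ (R - lv S x Z d) := by
    field_simp
  rw [e4]
  linarith

theorem val_L (hB : BH nx R₀ N) (hL : Lv nx R lv) (hx : x ∈ S.B) (ha : 1 ≤ a) (hr : BR (nx S x) S x w Z z) (hw : w ≠ [])
    (hd : nx S x Z = some d) {k v : ℕ} (hst : Z.St d (.L k v) Z' z') :
    Val a R (lv S x Z) S Z - (k + 2) * a ^ (R - lv S x Z d) ≤ Val a R (lv S x Z') S Z' := by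
  have hst0 := hst
  obtain ⟨y, u, v', w', hdB, hy, hhw, hk, hu, hf⟩ := hst
  obtain ⟨h1, h2⟩ := vt_gl hdB hy hhw hf
  have h3 := vt_lose hL hx ha hr hw hd hst0 h1 h2
  rw [List.length_cons, List.length_cons, hk] at h3
  push_cast at h3
  have h4 : (k : ℝ) + 1 + 1 = k + 2 := by ring
  rw [h4] at h3
  exact h3

theorem val_R (hB : BH nx R₀ N) (hL : Lv nx R lv) (hx : x ∈ S.B) (ha : 1 ≤ a) (hr : BR (nx S x) S x w Z z) (hw : w ≠ [])
    (hd : nx S x Z = some d) {k v : ℕ} (hst : Z.St d (.R k v) Z' z') :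
    Val a R (lv S x Z) S Z - (k + 2) * a ^ (R - lv S x Z d) ≤ Val a R (lv S x Z') S Z' := by
  have hst0 := hst
  obtain ⟨y, u, v', w', hdB, hy, hhw, hk, hu, hf⟩ := hst
  obtain ⟨h1, h2⟩ := vt_gl hdB hy hhw hf
  have h3 := vt_lose hL hx ha hr hw hd hst0 h1 h2
  rw [List.length_cons, List.length_cons, hk] at h3
  push_cast at h3
  have h4 : (k : ℝ) + 1 + 1 = k + 2 := by ring
  rw [h4] at h3
  exact h3

/-- After the first step. -/
theorem val_root (hL : Lv nx R lv) (hx : x ∈ S.B) (hst : S.St x .T Z z) : Val a R (lv S x Z) S Z = 2 * a ^ R := by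
  have hst0 := hst
  obtain ⟨t0, t1, t2, hdB, h0, h1, h2, h01, h12, h20, hZ', hz'⟩ := hst
  have hB' : Z.B = (S.B \ {x}) ∪ {t1, t2} := by
    rw [hZ', face_B]
  have l1 : t1 ∉ S.B := fun h => h1 (S.B_sub_R h)
  have l2 : t2 ∉ S.B := fun h => h2 (S.B_sub_R h)
  have m1 : t1 ∈ Z.B := by
    rw [hB']
    exact Or.inr (Or.inl rfl)
  have m2 : t2 ∈ Z.B := by
    rw [hB']
    exact Or.inr (Or.inr rfl)
  have hset : vt_nb S Z = {t1, t2} := by
    ext e
    rw [Finset.mem_insert, Finset.mem_singleton, vt_mem, hB']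
    constructor
    · rintro ⟨he | he, he'⟩
      · exact absurd he.1 he'
      · exact he
    · rintro (rfl | rfl)
      · exact ⟨Or.inr (Or.inl rfl), l1⟩
      · exact ⟨Or.inr (Or.inr rfl), l2⟩
  rw [vt_val, hset, Finset.sum_pair h12, hL.root S x Z z t1 hx hst0 m1 l1,
    hL.root S x Z z t2 hx hst0 m2 l2, Nat.sub_zero]
  ring

/-- At the end. -/
theorem val_end (hL : Lv nx R lv) (hx : x ∈ S.B) (hr : BR (nx S x) S x w Z z) (hw : w ≠ []) (hd : nx S x Z = none) :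
    Val a R (lv S x Z) S Z = exn S Z := by
  rw [vt_val]
  have h1 : ∑ e ∈ vt_nb S Z, a ^ (R - lv S x Z e) = ∑ e ∈ vt_nb S Z, (1 : ℝ) := by
    refine Finset.sum_congr rfl fun e he => ?_
    rw [vt_mem] at he
    rw [Nat.sub_eq_zero_of_le (hL.fin S x w Z z e hx hr hw hd he.1 he.2), pow_zero]
  rw [h1, Finset.sum_const, nsmul_eq_mul, mul_one]
  congr 1
  unfold exn
  rw [← Set.ncard_coe_finset]
  congr 1
  ext e
  rw [Finset.mem_coe, vt_mem]
  rfl

end SYS.NS
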